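import Pool.Agent.TH653.MB.A12

/-!
# Upper bound for the exponential means of a Bloch function
-/

set_option autoImplicit false

open Complex Set Topology Filter Metric MeasureTheory
open Real (circleAverage)

namespace Pool.Agent.TH363.IM

open Pool.Agent.H713R2 Pool.Agent.TH653.MB

/-- the radii -/
noncomputable def rd (j : ℕ) : ℝ := 1 - (1 / 2) ^ j

theorem rd_nonneg (j : ℕ) : 0 ≤ rd j := by
  have : (1 / 2 : ℝ) ^ j ≤ 1 := pow_le_one₀ (by norm_num) (by norm_num)
  rw [rd]; linarith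

theorem rd_lt (j : ℕ) : rd j < 1 := by
  have : (0 : ℝ) < (1 / 2) ^ j := by positivity
  rw [rd]; linarith

theorem rd_succ_ge (j : ℕ) : 1 / 2 ≤ rd (j + 1) := by
  have : (1 / 2 : ℝ) ^ j ≤ 1 := pow_le_one₀ (by norm_num) (by norm_num)
  rw [rd, pow_succ]; linarith

theorem rd_mono (j : ℕ) : rd j ≤ rd (j + 1) := by
  have : (0 : ℝ) < (1 / 2) ^ j := by positivity
  rw [rd, rd, pow_succ]; linarith

theorem rd_pow_le (m n : ℕ) :
    rd (m + 1) ^ (2 * n) ≤ rd m ^ (2 * n) + 2 * (1 / 2) ^ m * (n * rd (m + 1) ^ (2 * n)) := by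
  have h1 := rd_succ_ge m
  have h0 : 0 < rd (m + 1) := by linarith
  have h2 : (0 : ℝ) < (1 / 2) ^ m := by positivity
  set a : ℝ := rd m / rd (m + 1) - 1 with ha
  have h3 : -(1 / 2) ^ m ≤ a := by
    rw [ha, le_sub_iff_add_le, le_div_iff₀ h0]
    have e1 : rd (m + 1) = 1 - (1 / 2) ^ m / 2 := by rw [rd, pow_succ]; ring
    have e2 : rd m = 1 - (1 / 2) ^ m := rfl
    have h5 : (1 / 2 : ℝ) ^ m ≤ 1 := pow_le_one₀ (by norm_num) (by norm_num)
    rw [e1, e2]
    nlinarith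
  have h6 : (1 / 2 : ℝ) ^ m ≤ 1 := pow_le_one₀ (by norm_num) (by norm_num)
  have h4 := one_add_mul_le_pow (a := a) (by linarith) (2 * n)
  have h5 : (1 + a) ^ (2 * n) * rd (m + 1) ^ (2 * n) = rd m ^ (2 * n) := by
    rw [← mul_pow, ha]; congr 1; field_simp; ring
  have h7 : 0 < rd (m + 1) ^ (2 * n) := by positivity
  have h8 : (1 + ((2 * n : ℕ) : ℝ) * a) * rd (m + 1) ^ (2 * n) ≤ rd m ^ (2 * n) := by
    rw [← h5]; gcongr
  have h9 : (1 - 2 * n * (1 / 2) ^ m) * rd (m + 1) ^ (2 * n) ≤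
      (1 + ((2 * n : ℕ) : ℝ) * a) * rd (m + 1) ^ (2 * n) := by
    apply mul_le_mul_of_nonneg_right _ h7.le
    push_cast
    have : (0 : ℝ) ≤ 2 * n := by positivity
    nlinarith
  linarith

theorem expmean {B : ℂ → ℂ} (hB : DifferentiableOn ℂ B (ball 0 1)) (hB0 : B 0 = 0)
    (hBl : ∀ x ∈ ball (0 : ℂ) 1, ‖x * deriv B x‖ ≤ 4 / (1 - ‖x‖)) {p : ℝ} (hp : 256 * p ^ 2 ≤ 1)
    (m : ℕ) {ρ : ℝ} (hρ : 0 < ρ) (hρm : ρ ≤ rd m) :
    circleAverage (fun x => ‖exp ((p / 2 : ℝ) * B x)‖ ^ 2) 0 ρ ≤ Real.exp (256 * p ^ 2 * m) := by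
  set K : ℂ → ℂ := fun x => exp ((p / 2 : ℝ) * B x) with hK
  have hKd : DifferentiableOn ℂ K (ball 0 1) := (hB.const_mul _).cexp
  have hKder : ∀ x ∈ ball (0 : ℂ) 1, deriv K x = K x * ((p / 2 : ℝ) * deriv B x) := by
    intro x hx
    have h1 : HasDerivAt B (deriv B x) x := (hB.differentiableAt (isOpen_ball.mem_nhds hx)).hasDerivAt
    exact (h1.const_mul ((p / 2 : ℝ) : ℂ)).cexp.deriv
  set L : ℂ → ℂ := fun x => x * deriv K x with hL
  have hLd : DifferentiableOn ℂ L (ball 0 1) := differentiableOn_id.mul (hKd.deriv isOpen_ball)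
  set α : ℕ → ℝ := fun n => ‖tc K n‖ ^ 2 with hα
  have hα0 : ∀ n, 0 ≤ α n := fun n => by positivity
  have hI : ∀ r : ℝ, 0 < r → r < 1 → HasSum (fun n => α n * r ^ (2 * n))
      (circleAverage (fun x => ‖K x‖ ^ 2) 0 r) := fun r h0 h1 => hasSum_sq_tc h0 h1 hKd
  have hS : ∀ r : ℝ, 0 < r → r < 1 → HasSum (fun n : ℕ => (n : ℝ) ^ 2 * α n * r ^ (2 * n))
      (circleAverage (fun x => ‖L x‖ ^ 2) 0 r) := by
    intro r h0 h1
    refine (hasSum_sq_tc h0 h1 hLd).congr_fun fun n => ?_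
    rw [hL, tc_id_mul_deriv hKd, norm_mul, Complex.norm_natCast, mul_pow]
  have hSle : ∀ r : ℝ, 0 < r → r < 1 → circleAverage (fun x => ‖L x‖ ^ 2) 0 r ≤
      4 * p ^ 2 / (1 - r) ^ 2 * circleAverage (fun x => ‖K x‖ ^ 2) 0 r := by
    intro r h0 h1
    rw [← av_smul]
    apply Real.circleAverage_mono
    · exact ci_of_diff h0 h1 (hLd.continuousOn.norm.pow 2)
    · exact ci_of_diff h0 h1 (continuousOn_const.mul (hKd.continuousOn.norm.pow 2))
    · intro x hx
      rw [mem_sphere_zero_iff_norm, abs_of_pos h0] at hx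
      have hxb : x ∈ ball (0 : ℂ) 1 := by rw [mem_ball_zero_iff, hx]; exact h1
      have h2 := hBl x hxb
      rw [hx] at h2
      have h3 : ‖L x‖ = |p| / 2 * (‖x * deriv B x‖ * ‖K x‖) := by
        rw [hL]
        simp only
        rw [hKder x hxb, norm_mul, norm_mul, norm_mul, norm_mul, norm_real, Real.norm_eq_abs,
          abs_div, abs_two]
        ring
      rw [h3]
      have h4 : |p| / 2 * (‖x * deriv B x‖ * ‖K x‖) ≤ |p| / 2 * (4 / (1 - r) * ‖K x‖) := by gcongr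
      calc (|p| / 2 * (‖x * deriv B x‖ * ‖K x‖)) ^ 2 ≤ (|p| / 2 * (4 / (1 - r) * ‖K x‖)) ^ 2 := by
            gcongr
        _ = 4 * |p| ^ 2 / (1 - r) ^ 2 * ‖K x‖ ^ 2 := by
            have h1r : (1 - r) ≠ 0 := by linarith
            field_simp; norm_num
        _ = _ := by rw [sq_abs]
  -- the sums on the radii
  set If : ℕ → ℝ := fun j => ∑' n, α n * rd j ^ (2 * n) with hIf
  set Sf : ℕ → ℝ := fun j => ∑' n : ℕ, (n : ℝ) ^ 2 * α n * rd j ^ (2 * n) with hSf
  set Jf : ℕ → ℝ := fun j => ∑' n : ℕ, (n : ℝ) * α n * rd j ^ (2 * n) with hJf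
  have hrp : ∀ j, 0 < rd (j + 1) := fun j => by have := rd_succ_ge j; linarith
  have sI' : ∀ j, Summable (fun n => α n * rd (j + 1) ^ (2 * n)) := fun j =>
    (hI _ (hrp j) (rd_lt _)).summable
  have sI : ∀ j, Summable (fun n => α n * rd j ^ (2 * n)) := fun j => by
    refine Summable.of_nonneg_of_le (fun n => ?_) (fun n => ?_) (sI' j)
    · have := rd_nonneg j; have := hα0 n; positivity
    · have := rd_nonneg j; have := rd_mono j; have := hα0 n; gcongr
  have sS : ∀ j, Summable (fun n : ℕ => (n : ℝ) ^ 2 * α n * rd (j + 1) ^ (2 * n)) := fun j =>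
    (hS _ (hrp j) (rd_lt _)).summable
  have sJ' : ∀ j, Summable (fun n : ℕ => (n : ℝ) * α n * rd (j + 1) ^ (2 * n)) := fun j => by
    refine Summable.of_nonneg_of_le (fun n => ?_) (fun n => ?_) (sS j)
    · have := rd_nonneg (j + 1); have := hα0 n; positivity
    · have h1 := rd_nonneg (j + 1); have h2 := hα0 n
      have h3 : (n : ℝ) ≤ (n : ℝ) ^ 2 := by
        rcases Nat.eq_zero_or_pos n with h | h
        · rw [h]; norm_num
        · have : (1 : ℝ) ≤ n := by exact_mod_cast h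
          nlinarith
      gcongr
  have sJ : ∀ j, Summable (fun n : ℕ => (n : ℝ) * α n * rd j ^ (2 * n)) := fun j => by
    refine Summable.of_nonneg_of_le (fun n => ?_) (fun n => ?_) (sJ' j)
    · have := rd_nonneg j; have := hα0 n; positivity
    · have := rd_nonneg j; have := rd_mono j; have := hα0 n; gcongr
  have hI0 : ∀ j, 0 ≤ If j := fun j => tsum_nonneg fun n => by
    have := rd_nonneg j; have := hα0 n; positivity
  have hImono : ∀ j, If j ≤ If (j + 1) := fun j => (sI j).tsum_le_tsum (fun n => by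
    have := rd_nonneg j; have := rd_mono j; have := hα0 n; gcongr) (sI (j + 1))
  have hSf : ∀ j, Sf (j + 1) ≤ 16 * p ^ 2 * 4 ^ j * If (j + 1) := by
    intro j
    have h1 := hSle _ (hrp j) (rd_lt (j + 1))
    rw [← (hS _ (hrp j) (rd_lt _)).tsum_eq, ← (hI _ (hrp j) (rd_lt _)).tsum_eq] at h1
    refine h1.trans (le_of_eq ?_)
    have e : (1 - rd (j + 1)) = 1 / (2 * 2 ^ j) := by
      rw [rd, pow_succ, one_div_pow]; field_simp; ring
    rw [e]
    have e4 : (4 : ℝ) ^ j = 2 ^ j * 2 ^ j := by rw [← mul_pow]; norm_num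
    rw [e4]
    simp only [hIf]
    field_simp
    ring
  have hIstep : ∀ j, If (j + 1) ≤ If j + 2 * (1 / 2) ^ j * Jf (j + 1) := by
    intro j
    simp only [hIf, hJf]
    rw [← tsum_mul_left, ← (sI j).tsum_add ((sJ (j + 1)).mul_left _)]
    refine (sI (j + 1)).tsum_le_tsum (fun n => ?_) ((sI j).add ((sJ (j + 1)).mul_left _))
    calc α n * rd (j + 1) ^ (2 * n) ≤ α n * (rd j ^ (2 * n) +
          2 * (1 / 2) ^ j * (n * rd (j + 1) ^ (2 * n))) :=
        mul_le_mul_of_nonneg_left (rd_pow_le j n) (hα0 n)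
      _ = _ := by ring
  have hJstep : ∀ j, Jf (j + 1) ≤ Jf j + 2 * (1 / 2) ^ j * Sf (j + 1) := by
    intro j
    simp only [hJf]
    have e : Sf (j + 1) = ∑' n : ℕ, (n : ℝ) ^ 2 * α n * rd (j + 1) ^ (2 * n) := rfl
    rw [e, ← tsum_mul_left, ← (sJ j).tsum_add ((sS j).mul_left _)]
    refine (sJ (j + 1)).tsum_le_tsum (fun n => ?_) ((sJ j).add ((sS j).mul_left _))
    have h1 : (0 : ℝ) ≤ n * α n := mul_nonneg (Nat.cast_nonneg n) (hα0 n)
    calc (n : ℝ) * α n * rd (j + 1) ^ (2 * n) ≤ (n * α n) * (rd j ^ (2 * n) +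
          2 * (1 / 2) ^ j * (n * rd (j + 1) ^ (2 * n))) :=
        mul_le_mul_of_nonneg_left (rd_pow_le j n) h1
      _ = _ := by ring
  have hJ : ∀ j, Jf j ≤ 32 * p ^ 2 * (2 ^ j - 1) * If j := by
    intro j
    induction j with
    | zero =>
      have : Jf 0 = 0 := by
        simp only [hJf]
        have e : ∀ n : ℕ, (n : ℝ) * α n * rd 0 ^ (2 * n) = 0 := by
          intro n
          rcases Nat.eq_zero_or_pos n with h | h
          · rw [h]; simp
          · have : rd 0 = 0 := by simp [rd]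
            rw [this, zero_pow (by omega), mul_zero]
        simp only [e, tsum_zero]
      rw [this]; simp
    | succ j ih =>
      have h1 := hJstep j
      have h2 := hSf j
      have h3 := hImono j
      have h4 : (1 : ℝ) ≤ 2 ^ j := one_le_pow₀ (by norm_num)
      have h5 : 32 * p ^ 2 * (2 ^ j - 1) * If j ≤ 32 * p ^ 2 * (2 ^ j - 1) * If (j + 1) := by
        have : (0 : ℝ) ≤ 32 * p ^ 2 * (2 ^ j - 1) := by
          have : (0 : ℝ) ≤ 2 ^ j - 1 := by linarith
          positivity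
        gcongr
      have h6 : 2 * (1 / 2) ^ j * Sf (j + 1) ≤ 2 * (1 / 2) ^ j * (16 * p ^ 2 * 4 ^ j * If (j + 1)) := by
        gcongr
      have e4 : (4 : ℝ) ^ j = 2 ^ j * 2 ^ j := by rw [← mul_pow]; norm_num
      have h7 : 2 * (1 / 2 : ℝ) ^ j * (16 * p ^ 2 * 4 ^ j * If (j + 1)) =
          32 * p ^ 2 * 2 ^ j * If (j + 1) := by
        rw [e4, one_div_pow]; field_simp; ring
      rw [pow_succ]
      calc Jf (j + 1) ≤ 32 * p ^ 2 * (2 ^ j - 1) * If (j + 1) + 32 * p ^ 2 * 2 ^ j * If (j + 1) := by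
            linarith
        _ = _ := by ring
  have hIfin : ∀ j : ℕ, If j ≤ Real.exp (256 * p ^ 2 * j) := by
    intro j
    induction j with
    | zero =>
      have e : If 0 = 1 := by
        simp only [hIf]
        rw [tsum_eq_single 0]
        · have : tc K 0 = 1 := by rw [tc_zero, hK]; simp [hB0]
          simp [hα, this]
        · intro n hn
          have : rd 0 = 0 := by simp [rd]
          rw [this, zero_pow (by omega), mul_zero]
      rw [e]; simp
    | succ j ih =>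
      have h1 := hIstep j
      have h2 := hJ (j + 1)
      have h3 := hI0 (j + 1)
      have h4 : 2 * (1 / 2 : ℝ) ^ j * Jf (j + 1) ≤ 128 * p ^ 2 * If (j + 1) := by
        have h5 : Jf (j + 1) ≤ 64 * p ^ 2 * 2 ^ j * If (j + 1) := by
          refine h2.trans ?_
          have h6 : 32 * p ^ 2 * (2 ^ (j + 1) - 1) ≤ 64 * p ^ 2 * 2 ^ j := by
            have e5 : 32 * p ^ 2 * (2 ^ (j + 1) - 1) = 64 * p ^ 2 * 2 ^ j - 32 * p ^ 2 := by ring
            rw [e5]; linarith [sq_nonneg p]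
          gcongr
        calc 2 * (1 / 2 : ℝ) ^ j * Jf (j + 1) ≤
            2 * (1 / 2) ^ j * (64 * p ^ 2 * 2 ^ j * If (j + 1)) := by gcongr
          _ = _ := by rw [one_div_pow]; field_simp; ring
      set u : ℝ := 128 * p ^ 2 with hu
      have hu0 : 0 ≤ u := by positivity
      have hu1 : u ≤ 1 / 2 := by rw [hu]; linarith
      have h7 : (1 - u) * If (j + 1) ≤ If j := by linarith
      have h8 : 1 ≤ (1 - u) * Real.exp (2 * u) := by
        have := Real.add_one_le_exp (2 * u)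
        nlinarith
      have h9 : If (j + 1) ≤ Real.exp (2 * u) * If j := by
        calc If (j + 1) = 1 * If (j + 1) := (one_mul _).symm
          _ ≤ ((1 - u) * Real.exp (2 * u)) * If (j + 1) := by gcongr
          _ = Real.exp (2 * u) * ((1 - u) * If (j + 1)) := by ring
          _ ≤ _ := by gcongr
      calc If (j + 1) ≤ Real.exp (2 * u) * If j := h9
        _ ≤ Real.exp (2 * u) * Real.exp (256 * p ^ 2 * j) := by gcongr
        _ = _ := by rw [← Real.exp_add, hu]; congr 1; push_cast; ring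
  have hρ1 : ρ < 1 := lt_of_le_of_lt hρm (rd_lt m)
  refine le_trans ?_ (hIfin m)
  rw [← (hI ρ hρ hρ1).tsum_eq]
  refine (hI ρ hρ hρ1).summable.tsum_le_tsum (fun n => ?_) (sI m)
  have := hα0 n
  gcongr

end Pool.Agent.TH363.IM
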