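import Pool.Agent.TH363.IM.Fin
import Pool.Agent.TH363.IM.Up

/-!
# Large deviations of the derivative of the exterior map
-/

set_option autoImplicit false

open Set Metric Filter Topology Complex MeasureTheory N62a1eb23
open Real (circleAverage)

namespace Pool.Agent.TH363.IM

open Pool.Agent.H713R2

theorem pz {f : ℝ → ℝ} (hf : Continuous f) {A S : ℝ} (hA : 0 < A) (hS : 0 < S)
    (hmean : 2 * A ≤ ∫ θ in (0 : ℝ)..2 * Real.pi, f θ)
    (hsec : ∫ θ in (0 : ℝ)..2 * Real.pi, f θ ^ 2 ≤ S) :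
    ENNReal.ofReal (A ^ 2 / S) ≤
      volume {θ : ℝ | θ ∈ Ioc 0 (2 * Real.pi) ∧ A / (2 * Real.pi) ≤ f θ} := by
  have hpi := Real.pi_pos
  set E : Set ℝ := {θ : ℝ | θ ∈ Ioc 0 (2 * Real.pi) ∧ A / (2 * Real.pi) ≤ f θ} with hE
  have hEm : MeasurableSet E :=
    measurableSet_Ioc.inter (measurableSet_le measurable_const hf.measurable)
  have hEfin : volume E ≠ ⊤ := by
    apply ne_top_of_le_ne_top (b := volume (Ioc (0 : ℝ) (2 * Real.pi)))
    · rw [Real.volume_Ioc]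
      exact ENNReal.ofReal_ne_top
    · exact measure_mono fun x hx => hx.1
  set lam : ℝ := A / S with hlam
  have hlam0 : 0 < lam := by positivity
  have hI1 : IntegrableOn (fun θ => E.indicator (fun _ => 1 / (2 * lam)) θ) (Ioc 0 (2 * Real.pi)) := by
    apply Integrable.indicator _ hEm
    exact (continuous_const.integrableOn_Icc (a := 0) (b := 2 * Real.pi)).mono_set Ioc_subset_Icc_self
  have hI2 : IntegrableOn (fun θ => A / (2 * Real.pi) + lam / 2 * f θ ^ 2) (Ioc 0 (2 * Real.pi)) := by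
    have : Continuous (fun θ => A / (2 * Real.pi) + lam / 2 * f θ ^ 2) := by fun_prop
    exact (this.integrableOn_Icc (a := 0) (b := 2 * Real.pi)).mono_set Ioc_subset_Icc_self
  have h1 : ∫ θ in (0 : ℝ)..2 * Real.pi, f θ ≤
      ∫ θ in (0 : ℝ)..2 * Real.pi, ((A / (2 * Real.pi) + lam / 2 * f θ ^ 2) +
        E.indicator (fun _ => 1 / (2 * lam)) θ) := by
    rw [intervalIntegral.integral_of_le (by positivity), intervalIntegral.integral_of_le (by positivity)]
    apply setIntegral_mono_on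
    · exact (hf.integrableOn_Icc (a := 0) (b := 2 * Real.pi)).mono_set Ioc_subset_Icc_self
    · exact hI2.add hI1
    · exact measurableSet_Ioc
    · intro θ hθ
      by_cases h : θ ∈ E
      · rw [indicator_of_mem h]
        have h2 : f θ ≤ lam / 2 * f θ ^ 2 + 1 / (2 * lam) := by
          have h3 : lam / 2 * f θ ^ 2 + 1 / (2 * lam) - f θ = (lam * f θ - 1) ^ 2 / (2 * lam) := by
            field_simp; ring
          have h4 : 0 ≤ (lam * f θ - 1) ^ 2 / (2 * lam) := by positivity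
          linarith
        have h5 : 0 < A / (2 * Real.pi) := by positivity
        linarith
      · rw [indicator_of_notMem h, add_zero]
        have h2 : f θ < A / (2 * Real.pi) := by
          by_contra h5
          exact h ⟨hθ, not_lt.1 h5⟩
        have h3 : 0 ≤ lam / 2 * f θ ^ 2 := by positivity
        linarith
  have h2 : ∫ θ in (0 : ℝ)..2 * Real.pi, ((A / (2 * Real.pi) + lam / 2 * f θ ^ 2) +
        E.indicator (fun _ => 1 / (2 * lam)) θ) =
      A + lam / 2 * (∫ θ in (0 : ℝ)..2 * Real.pi, f θ ^ 2) + volume.real E / (2 * lam) := by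
    rw [intervalIntegral.integral_of_le (by positivity), integral_add hI2 hI1,
      integral_indicator hEm, Measure.restrict_restrict hEm,
      inter_eq_self_of_subset_left (fun x hx => hx.1 : E ⊆ Ioc 0 (2 * Real.pi)), setIntegral_const,
      smul_eq_mul, ← intervalIntegral.integral_of_le (by positivity),
      intervalIntegral.integral_add (f := fun _ => A / (2 * Real.pi))
        (g := fun θ => lam / 2 * f θ ^ 2) (continuous_const.intervalIntegrable _ _)
        ((by fun_prop : Continuous fun θ => lam / 2 * f θ ^ 2).intervalIntegrable _ _),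
      intervalIntegral.integral_const, intervalIntegral.integral_const_mul, smul_eq_mul]
    have e1 : (2 * Real.pi - 0) * (A / (2 * Real.pi)) = A := by field_simp; ring
    rw [e1]; ring
  rw [h2] at h1
  have h3 : lam / 2 * (∫ θ in (0 : ℝ)..2 * Real.pi, f θ ^ 2) ≤ lam / 2 * S := by gcongr
  have h4 : lam / 2 * S = A / 2 := by rw [hlam]; field_simp
  have h5 : A / 2 ≤ volume.real E / (2 * lam) := by linarith
  rw [le_div_iff₀ (by positivity)] at h5
  have h6 : A ^ 2 / S ≤ volume.real E := by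
    calc A ^ 2 / S = A / 2 * (2 * lam) := by rw [hlam]; field_simp
      _ ≤ _ := h5
  calc ENNReal.ofReal (A ^ 2 / S) ≤ ENNReal.ofReal (volume.real E) := ENNReal.ofReal_le_ofReal h6
    _ = volume E := ENNReal.ofReal_toReal hEfin

theorem second_moment {ψ : ℂ → ℂ} (hψ : IsExteriorMap (multibrotSet 2) ψ) {p : ℝ}
    (hp : 1024 * p ^ 2 ≤ 1) {r : ℝ} (h1 : 1 < r) (h2 : r < 2) :
    mm ψ (2 * p) r ≤ (4 / (r - 1)) ^ (2048 * p ^ 2) := by
  obtain ⟨β, hβ⟩ := exists_beta (d := 2) le_rfl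
  obtain ⟨B, hB1, hB2, hB3, hB4⟩ := Pool.Agent.TH653.MB.exists_log hβ
  have hr1 : 0 < r - 1 := by linarith
  have hinv1 : 0 < r⁻¹ := by positivity
  have hinv2 : r⁻¹ < 1 := inv_lt_one_of_one_lt₀ h1
  -- the choice of the level
  obtain ⟨m, hm1, hm2⟩ : ∃ m : ℕ, r⁻¹ ≤ rd m ∧ (2 : ℝ) ^ m ≤ 4 / (r - 1) := by
    have hy : 1 ≤ 1 / (1 - r⁻¹) := by
      rw [one_le_div (by linarith)]; linarith
    obtain ⟨n, hn1, hn2⟩ := exists_nat_pow_near hy (show (1 : ℝ) < 2 by norm_num)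
    refine ⟨n + 1, ?_, ?_⟩
    · rw [div_lt_iff₀ (by linarith)] at hn2
      rw [rd, one_div_pow, le_sub_iff_add_le, ← le_sub_iff_add_le', div_le_iff₀ (by positivity)]
      linarith
    · have e : 1 / (1 - r⁻¹) = r / (r - 1) := by field_simp
      rw [e] at hn1
      have h3 : r / (r - 1) ≤ 2 / (r - 1) := by gcongr
      rw [pow_succ]
      calc (2 : ℝ) ^ n * 2 ≤ (2 / (r - 1)) * 2 := by gcongr; exact hn1.trans h3
        _ = _ := by ring
  have hBl : ∀ x ∈ ball (0 : ℂ) 1, ‖x * deriv B x‖ ≤ 4 / (1 - ‖x‖) := by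
    intro x hx
    rw [hB4 x hx]
    exact Pool.Agent.TH653.MB.qq_bloch hβ hx
  have h3 := expmean hB1 hB2 hBl (p := 2 * p) (by linarith) m hinv1 hm1
  have h4 : mm ψ (2 * p) r = circleAverage (fun x => ‖exp ((2 * p / 2 : ℝ) * B x)‖ ^ 2) 0 r⁻¹ := by
    unfold circleAverage
    rw [smul_eq_mul, mm]
    congr 1
    have hper : Function.Periodic (fun θ : ℝ =>
        ‖exp ((2 * p / 2 : ℝ) * B (circleMap 0 r⁻¹ θ))‖ ^ 2) (2 * Real.pi) := by
      intro θ
      simp only [periodic_circleMap 0 r⁻¹ θ]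
    have h5 := hper.intervalIntegral_add_eq (-(2 * Real.pi)) 0
    rw [neg_add_cancel, zero_add] at h5
    have h6 := intervalIntegral.integral_comp_neg (a := 0) (b := 2 * Real.pi) (fun θ : ℝ =>
        ‖exp ((2 * p / 2 : ℝ) * B (circleMap 0 r⁻¹ θ))‖ ^ 2)
    rw [neg_zero, h5] at h6
    rw [← h6]
    apply intervalIntegral.integral_congr
    intro θ _
    have hn : 1 < ‖(r : ℂ) * exp (θ * I)‖ := by
      rw [norm_mul, norm_exp_ofReal_mul_I, mul_one, norm_real, Real.norm_eq_abs,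
        abs_of_pos (by linarith)]
      exact h1
    have hcm : ((r : ℂ) * exp (θ * I))⁻¹ = circleMap 0 r⁻¹ (-θ) := by
      rw [circleMap, mul_inv, ← exp_neg]
      push_cast
      rw [zero_add]
      congr 2; ring
    simp only
    rw [(Pool.Agent.TH653.MB.hasDerivAt_psi hβ hψ hn).deriv, hcm, ← hB3 _ (by
      rw [mem_ball_zero_iff, norm_circleMap_zero, abs_of_pos hinv1]; exact hinv2)]
    simp only [norm_exp]
    rw [← Real.exp_mul, ← Real.exp_nat_mul, re_ofReal_mul]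
    congr 1; push_cast; ring
  rw [h4]
  refine h3.trans ?_
  have h7 : (m : ℝ) ≤ 2 * Real.log (4 / (r - 1)) := by
    have h8 := Real.log_le_log (by positivity) hm2
    rw [Real.log_pow] at h8
    have := Real.log_two_gt_d9
    nlinarith [Nat.cast_nonneg (α := ℝ) m]
  rw [Real.rpow_def_of_pos (by positivity)]
  apply Real.exp_le_exp.2
  have : 0 ≤ 1024 * p ^ 2 := by positivity
  nlinarith

theorem cosh_ge (x : ℝ) : 1 + x ^ 2 / 2 ≤ Real.cosh x := by
  rw [← Real.cosh_abs]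
  have h1 : |x| = 2 * (|x| / 2) := by ring
  have h2 := Real.cosh_two_mul (|x| / 2)
  rw [← h1, Real.cosh_sq] at h2
  have h3 : |x| / 2 ≤ Real.sinh (|x| / 2) := Real.self_le_sinh_iff.2 (by positivity)
  have h4 : (|x| / 2) ^ 2 ≤ Real.sinh (|x| / 2) ^ 2 := by gcongr
  have h5 : |x| ^ 2 = x ^ 2 := sq_abs x
  rw [h2]
  nlinarith

theorem eps_ok {p : ℝ} (hp : p ≠ 0) (hp1 : 1024 * p ^ 2 ≤ 1) :
    (2 : ℝ) ^ (2 * (p ^ 2 / 200)) < Real.cosh (p / 5) := by
  refine lt_of_lt_of_le ?_ (cosh_ge (p / 5))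
  have hp2 : 0 < p ^ 2 := by positivity
  rw [Real.rpow_def_of_pos (by norm_num)]
  set v : ℝ := Real.log 2 * (2 * (p ^ 2 / 200)) with hv
  have hl := Real.log_two_lt_d9
  have hl0 := Real.log_two_gt_d9
  have hv0 : 0 ≤ v := by positivity
  have hv1 : v ≤ 7 / 1000 * p ^ 2 := by rw [hv]; nlinarith
  have h1 : Real.exp v ≤ 1 + 2 * v := by
    have h2 := Real.add_one_le_exp (-v)
    have h3 : Real.exp (-v) * Real.exp v = 1 := by rw [← Real.exp_add]; simp
    have h4 : 0 < Real.exp v := Real.exp_pos v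
    have h5 : (1 - v) * Real.exp v ≤ 1 := by
      rw [← h3]
      exact mul_le_mul_of_nonneg_right (by linarith) h4.le
    have h6 : v ≤ 1 / 2 := by linarith
    nlinarith
  nlinarith

theorem dev {ψ : ℂ → ℂ} (hψ : IsExteriorMap (multibrotSet 2) ψ) {p : ℝ} (hp : p ≠ 0)
    (hp1 : 1024 * p ^ 2 ≤ 1) : ∃ r0 : ℝ, 1 < r0 ∧ ∀ r : ℝ, 1 < r → r < r0 →
      ENNReal.ofReal ((r - 1) ^ (2048 * p ^ 2)) ≤
        volume {θ : ℝ | θ ∈ Ioc 0 (2 * Real.pi) ∧
          (r - 1) ^ (-(p ^ 2 / 400)) ≤ ‖deriv ψ (r * exp (θ * I))‖ ^ p} := by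
  obtain ⟨c, hc, hlow⟩ := growth_means hψ hp (eps_ok hp hp1)
  obtain ⟨-, -, hcont⟩ := mean_facts hψ p
  have hpi := Real.pi_pos
  have hpi3 := Real.pi_gt_three
  have hp2 : 0 < p ^ 2 := by positivity
  -- conditions near `1`
  have hlim : Tendsto (fun r : ℝ => (r - 1) ^ (-(p ^ 2 / 400))) (𝓝[>] 1) atTop := by
    have h1 : Tendsto (fun x : ℝ => x ^ (-(p ^ 2 / 400))) (𝓝[>] 0) atTop :=
      tendsto_rpow_neg_nhdsGT_zero (neg_lt_zero.2 (by positivity))
    refine h1.comp ?_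
    have h2 : Tendsto (fun r : ℝ => r - 1) (𝓝[>] 1) (𝓝 0) := by
      have : Tendsto (fun r : ℝ => r - 1) (𝓝 1) (𝓝 (1 - 1)) := (continuous_id.sub continuous_const).tendsto 1
      rw [sub_self] at this
      exact this.mono_left nhdsWithin_le_nhds
    refine tendsto_nhdsWithin_iff.2 ⟨h2, ?_⟩
    filter_upwards [self_mem_nhdsWithin] with r hr
    have : (1 : ℝ) < r := hr
    simp only [mem_Ioi]; linarith
  set T : ℝ := max (2 / c) (4 ^ (2048 * p ^ 2) / c ^ 2 + 1) with hT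
  have hev := hlim.eventually_ge_atTop T
  rw [eventually_nhdsWithin_iff] at hev
  obtain ⟨δ, hδ, hδ2⟩ := Metric.eventually_nhds_iff.1 hev
  refine ⟨min (1 + δ) 2, lt_min (by linarith) (by norm_num), fun r h1 h2 => ?_⟩
  have hr2 : r < 2 := h2.trans_le (min_le_right _ _)
  have hrδ : r < 1 + δ := h2.trans_le (min_le_left _ _)
  have hr1 : 0 < r - 1 := by linarith
  have hTr : T ≤ (r - 1) ^ (-(p ^ 2 / 400)) := hδ2 (by
    rw [Real.dist_eq, abs_of_pos hr1]; linarith) h1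
  have hT1 : 2 / c ≤ (r - 1) ^ (-(p ^ 2 / 400)) := (le_max_left _ _).trans hTr
  have hT2 : 4 ^ (2048 * p ^ 2) / c ^ 2 + 1 ≤ (r - 1) ^ (-(p ^ 2 / 400)) :=
    (le_max_right _ _).trans hTr
  set X : ℝ := (r - 1) ^ (-(p ^ 2 / 400)) with hX
  have hX0 : 0 < X := by positivity
  have hX1 : 1 ≤ X := by
    have : (0 : ℝ) ≤ 4 ^ (2048 * p ^ 2) / c ^ 2 := by positivity
    linarith
  have hX2 : (r - 1) ^ (-(p ^ 2 / 200)) = X ^ 2 := by
    rw [hX, ← Real.rpow_mul_natCast hr1.le]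
    congr 1; push_cast; ring
  have hmean := hlow r h1 hr2
  rw [hX2] at hmean
  have hsec := second_moment hψ hp1 h1 hr2
  set A : ℝ := Real.pi * (c * X ^ 2) with hA
  set S : ℝ := 2 * Real.pi * (4 / (r - 1)) ^ (2048 * p ^ 2) with hS
  have hA0 : 0 < A := by positivity
  have hS0 : 0 < S := by positivity
  have key := pz (f := fun θ : ℝ => ‖deriv ψ (r * exp (θ * I))‖ ^ p) (hcont r h1) hA0 hS0 (by
    rw [mm] at hmean
    rw [hA]
    have h3 : (2 * Real.pi) * (c * X ^ 2) ≤ (2 * Real.pi) * ((2 * Real.pi)⁻¹ *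
        ∫ θ in (0 : ℝ)..2 * Real.pi, ‖deriv ψ (r * exp (θ * I))‖ ^ p) := by gcongr
    rw [← mul_assoc (2 * Real.pi) (2 * Real.pi)⁻¹, mul_inv_cancel₀ (by positivity), one_mul] at h3
    linarith) (by
    rw [mm] at hsec
    rw [hS]
    have h3 : (2 * Real.pi) * ((2 * Real.pi)⁻¹ *
        ∫ θ in (0 : ℝ)..2 * Real.pi, ‖deriv ψ (r * exp (θ * I))‖ ^ (2 * p)) ≤
        (2 * Real.pi) * (4 / (r - 1)) ^ (2048 * p ^ 2) := by gcongr
    rw [← mul_assoc (2 * Real.pi) (2 * Real.pi)⁻¹, mul_inv_cancel₀ (by positivity), one_mul] at h3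
    refine le_trans (le_of_eq ?_) h3
    apply intervalIntegral.integral_congr
    intro θ _
    simp only
    rw [← Real.rpow_natCast, ← Real.rpow_mul (norm_nonneg _)]
    congr 1; push_cast; ring)
  refine le_trans (ENNReal.ofReal_le_ofReal ?_) (key.trans (measure_mono ?_))
  · rw [le_div_iff₀ hS0, hS, hA, Real.div_rpow (by norm_num) hr1.le]
    have h3 : 0 < (r - 1) ^ (2048 * p ^ 2) := by positivity
    have h4 : (r - 1) ^ (2048 * p ^ 2) * (2 * Real.pi * (4 ^ (2048 * p ^ 2) / (r - 1) ^ (2048 * p ^ 2))) =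
        2 * Real.pi * 4 ^ (2048 * p ^ 2) := by field_simp
    rw [h4]
    have h5 : 4 ^ (2048 * p ^ 2) ≤ c ^ 2 * X := by
      have : 4 ^ (2048 * p ^ 2) / c ^ 2 ≤ X := by linarith
      rw [div_le_iff₀ (by positivity)] at this
      linarith
    have h6 : X ≤ X ^ 4 := by
      calc X = X ^ 1 := (pow_one X).symm
        _ ≤ X ^ 4 := pow_le_pow_right₀ hX1 (by norm_num)
    calc 2 * Real.pi * 4 ^ (2048 * p ^ 2) ≤ 2 * Real.pi * (c ^ 2 * X ^ 4) := by
          gcongr
          exact h5.trans (by gcongr)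
      _ ≤ Real.pi * Real.pi * (c ^ 2 * X ^ 4) := by
          gcongr
          linarith
      _ = _ := by ring
  · intro θ hθ
    refine ⟨hθ.1, le_trans ?_ hθ.2⟩
    have h3 : A / (2 * Real.pi) = (c / 2 * X) * X := by rw [hA]; field_simp
    rw [h3]
    have h4 : 1 ≤ c / 2 * X := by
      rw [div_le_iff₀ hc] at hT1
      linarith
    calc X = 1 * X := (one_mul X).symm
      _ ≤ _ := by gcongr

theorem deviations {ψ : ℂ → ℂ} (hψ : IsExteriorMap (multibrotSet 2) ψ) :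
    ∃ C s0 : ℝ, 0 < C ∧ 0 < s0 ∧ ∀ s : ℝ, 0 < s → s ≤ s0 → ∃ r0 : ℝ, 1 < r0 ∧
      ∀ r : ℝ, 1 < r → r < r0 →
        ENNReal.ofReal ((r - 1) ^ (C * s ^ 2)) ≤ volume {θ : ℝ | θ ∈ Ioc 0 (2 * Real.pi) ∧
          (r - 1) ^ (-s) ≤ ‖deriv ψ (r * exp (θ * I))‖} ∧
        ENNReal.ofReal ((r - 1) ^ (C * s ^ 2)) ≤ volume {θ : ℝ | θ ∈ Ioc 0 (2 * Real.pi) ∧
          ‖deriv ψ (r * exp (θ * I))‖ ≤ (r - 1) ^ s} := by
  refine ⟨2048 * 160000, 1 / 12800, by norm_num, by norm_num, fun s hs hs0 => ?_⟩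
  set p : ℝ := 400 * s with hp
  have hp0 : 0 < p := by positivity
  have hps : p ≤ 1 / 32 := by rw [hp]; linarith
  have hp1 : 1024 * p ^ 2 ≤ 1 := by nlinarith
  obtain ⟨ra, hra, ha⟩ := dev hψ hp0.ne' hp1
  obtain ⟨rb, hrb, hb⟩ := dev hψ (p := -p) (by linarith [hp0] : -p ≠ 0) (by rwa [neg_sq])
  refine ⟨min ra rb, lt_min hra hrb, fun r h1 h2 => ?_⟩
  have hr1 : 0 < r - 1 := by linarith
  have e1 : 2048 * 160000 * s ^ 2 = 2048 * p ^ 2 := by rw [hp]; ring
  have e2 : p ^ 2 / 400 = s * p := by rw [hp]; ring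
  rw [e1]
  constructor
  · refine (ha r h1 (h2.trans_le (min_le_left _ _))).trans (measure_mono fun θ hθ => ⟨hθ.1, ?_⟩)
    have h3 := hθ.2
    rw [e2, ← neg_mul, Real.rpow_mul hr1.le] at h3
    exact (Real.rpow_le_rpow_iff (by positivity) (norm_nonneg _) hp0).1 h3
  · have h4 := hb r h1 (h2.trans_le (min_le_right _ _))
    rw [neg_sq] at h4
    refine h4.trans (measure_mono fun θ hθ => ⟨hθ.1, ?_⟩)
    have h3 := hθ.2
    have hn : 0 < ‖deriv ψ (r * exp (θ * I))‖ := by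
      apply norm_pos_iff.2
      apply Pool.Agent.Helper265.Br.deriv_ne_zero (U := {z : ℂ | 1 < ‖z‖})
        (isOpen_lt continuous_const continuous_norm) hψ.diff hψ.inj
      change 1 < ‖(r : ℂ) * exp (θ * I)‖
      rw [norm_mul, norm_exp_ofReal_mul_I, mul_one, norm_real, Real.norm_eq_abs,
        abs_of_pos (by linarith)]
      exact h1
    rw [e2, Real.rpow_neg hr1.le, Real.rpow_neg hn.le, inv_le_inv₀ (by positivity) (by positivity),
      Real.rpow_mul hr1.le] at h3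
    exact (Real.rpow_le_rpow_iff hn.le (by positivity) hp0).1 h3

end Pool.Agent.TH363.IM
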