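import Mathlib

/-!
# A holomorphic fixed point step

`Q` is holomorphic on `V'` with small derivative and `h : (c, z) ↦ h (c, z)` maps `ball a δ × V` to
`V'`; then `u z = Q (h (u z, z))` has a holomorphic solution `u` on `V`, with control of `u'`.
-/

set_option autoImplicit false

open Set Metric Filter Topology

namespace Pool.Agent.TH363.IM

theorem step {a : ℂ} {δ : ℝ} (hδ : 0 < δ) {V V' : Set ℂ} (hV : IsOpen V) (hV' : IsOpen V')
    {h : ℂ × ℂ → ℂ} (hh : DifferentiableOn ℂ h (ball a δ ×ˢ V))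
    (hmap : ∀ c ∈ ball a δ, ∀ z ∈ V, h (c, z) ∈ V') {M τ : ℝ} (hτ0 : 0 ≤ τ)
    (hM : ∀ c ∈ ball a (δ / 2), ∀ z ∈ V, ‖deriv (fun c => h (c, z)) c‖ ≤ M)
    {Q : ℂ → ℂ} (hQ : DifferentiableOn ℂ Q V') (hQm : ∀ y ∈ V', Q y ∈ ball a (δ / 4))
    (hτ : ∀ y ∈ V', ‖deriv Q y‖ ≤ τ) (hτM : τ * M ≤ 1 / 2) :
    ∃ u : ℂ → ℂ, DifferentiableOn ℂ u V ∧ (∀ z ∈ V, u z ∈ ball a (δ / 4)) ∧
      (∀ z ∈ V, u z = Q (h (u z, z))) ∧
      ∀ z ∈ V, (1 - τ * M) * ‖deriv u z‖ ≤
          ‖deriv Q (h (u z, z))‖ * ‖deriv (fun z' => h (u z, z')) z‖ ∧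
        ‖deriv Q (h (u z, z))‖ * ‖deriv (fun z' => h (u z, z')) z‖ ≤
          (1 + τ * M) * ‖deriv u z‖ := by
  have hsub2 : ball a (δ / 2) ⊆ ball a δ := ball_subset_ball (by linarith)
  have hsub4 : ball a (δ / 4) ⊆ ball a (δ / 2) := ball_subset_ball (by linarith)
  have hop : IsOpen (ball a δ ×ˢ V) := isOpen_ball.prod hV
  have hhd : ∀ c ∈ ball a δ, ∀ z ∈ V, DifferentiableAt ℂ h (c, z) := fun c hc z hz =>
    hh.differentiableAt (hop.mem_nhds ⟨hc, hz⟩)
  have hQd : ∀ y ∈ V', DifferentiableAt ℂ Q y := fun y hy =>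
    hQ.differentiableAt (hV'.mem_nhds hy)
  -- the partial derivatives
  have hpc : ∀ c ∈ ball a δ, ∀ z ∈ V, HasDerivAt (fun c => h (c, z)) (fderiv ℂ h (c, z) (1, 0)) c := by
    intro c hc z hz
    have h1 : HasDerivAt (fun c : ℂ => (c, z)) ((1 : ℂ), (0 : ℂ)) c :=
      (hasDerivAt_id c).prodMk (hasDerivAt_const c z)
    exact (hhd c hc z hz).hasFDerivAt.comp_hasDerivAt c h1
  have hpz : ∀ c ∈ ball a δ, ∀ z ∈ V, HasDerivAt (fun z => h (c, z)) (fderiv ℂ h (c, z) (0, 1)) z := by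
    intro c hc z hz
    have h1 : HasDerivAt (fun z : ℂ => (c, z)) ((0 : ℂ), (1 : ℂ)) z :=
      (hasDerivAt_const z c).prodMk (hasDerivAt_id z)
    exact (hhd c hc z hz).hasFDerivAt.comp_hasDerivAt z h1
  -- Lipschitz bound in `c`
  have hlip : ∀ z ∈ V, ∀ c ∈ ball a (δ / 2), ∀ c' ∈ ball a (δ / 2),
      ‖Q (h (c', z)) - Q (h (c, z))‖ ≤ 1 / 2 * ‖c' - c‖ := by
    intro z hz c hc c' hc'
    apply (convex_ball a (δ / 2)).norm_image_sub_le_of_norm_deriv_le
      (f := fun c => Q (h (c, z))) ?_ ?_ hc hc'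
    · intro x hx
      exact DifferentiableAt.comp x (hQd _ (hmap x (hsub2 hx) z hz)) (hpc x (hsub2 hx) z hz).differentiableAt
    · intro x hx
      have h1 := (hQd _ (hmap x (hsub2 hx) z hz)).hasDerivAt.comp x (hpc x (hsub2 hx) z hz)
      have h2 : deriv (fun c => Q (h (c, z))) x =
          deriv Q (h (x, z)) * fderiv ℂ h (x, z) (1, 0) := h1.deriv
      rw [h2, norm_mul]
      have h3 := hM x hx z hz
      rw [(hpc x (hsub2 hx) z hz).deriv] at h3
      calc ‖deriv Q (h (x, z))‖ * ‖fderiv ℂ h (x, z) (1, 0)‖ ≤ τ * M :=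
            mul_le_mul (hτ _ (hmap x (hsub2 hx) z hz)) h3 (norm_nonneg _) hτ0
        _ ≤ 1 / 2 := hτM
  -- the iteration
  obtain ⟨us, us0, usS⟩ : ∃ us : ℕ → ℂ → ℂ, (∀ z, us 0 z = a) ∧
      ∀ m z, us (m + 1) z = Q (h (us m z, z)) :=
    ⟨fun m => Nat.rec (fun _ => a) (fun _ f z => Q (h (f z, z))) m, fun z => rfl,
      fun m z => rfl⟩
  have hmem : ∀ m, ∀ z ∈ V, us m z ∈ ball a (δ / 4) := by
    intro m
    induction m with
    | zero => intro z _; rw [us0]; exact mem_ball_self (by linarith)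
    | succ m ih =>
      intro z hz
      rw [usS]
      exact hQm _ (hmap _ (hsub2 (hsub4 (ih z hz))) z hz)
  have hdiff : ∀ m, DifferentiableOn ℂ (us m) V := by
    intro m
    induction m with
    | zero => exact (differentiableOn_const a).congr fun z _ => us0 z
    | succ m ih =>
      intro z hz
      have h1 : DifferentiableAt ℂ (us m) z := ih.differentiableAt (hV.mem_nhds hz)
      have h2 : DifferentiableAt ℂ (fun z => (us m z, z)) z := h1.prodMk differentiableAt_id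
      have h3 : DifferentiableAt ℂ (fun z => h (us m z, z)) z :=
        DifferentiableAt.comp z (hhd _ (hsub2 (hsub4 (hmem m z hz))) z hz) h2
      have h4 : DifferentiableAt ℂ (us (m + 1)) z := by
        have h5 : us (m + 1) = Q ∘ fun z => h (us m z, z) := funext fun z => usS m z
        rw [h5]
        exact DifferentiableAt.comp z (hQd _ (hmap _ (hsub2 (hsub4 (hmem m z hz))) z hz)) h3
      exact h4.differentiableWithinAt
  have hgeo : ∀ z ∈ V, ∀ m, dist (us m z) (us (m + 1) z) ≤ δ * (1 / 2) ^ m := by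
    intro z hz m
    induction m with
    | zero =>
      have h1 := hmem (0 + 1) z hz
      rw [us0, dist_comm]
      rw [mem_ball] at h1
      simp only [pow_zero, mul_one]
      linarith
    | succ m ih =>
      rw [dist_comm, dist_eq_norm, usS (m + 1), usS m]
      have h1 := hlip z hz _ (hsub4 (hmem m z hz)) _ (hsub4 (hmem (m + 1) z hz))
      rw [dist_comm, dist_eq_norm] at ih
      rw [usS m] at h1 ih
      calc _ ≤ 1 / 2 * ‖Q (h (us m z, z)) - us m z‖ := h1
        _ ≤ 1 / 2 * (δ * (1 / 2) ^ m) := by gcongr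
        _ = δ * (1 / 2) ^ (m + 1) := by ring
  have hcau : ∀ z ∈ V, ∃ w, Tendsto (fun m => us m z) atTop (𝓝 w) := fun z hz =>
    cauchySeq_tendsto_of_complete (cauchySeq_of_le_geometric (1 / 2) δ (by norm_num) (hgeo z hz))
  choose! u hu using hcau
  have hrate : ∀ z ∈ V, ∀ m, dist (us m z) (u z) ≤ δ * (1 / 2) ^ m / (1 - 1 / 2) := fun z hz m =>
    dist_le_of_le_geometric_of_tendsto (1 / 2) δ (by norm_num) (hgeo z hz) (hu z hz) m
  have hunif : TendstoUniformlyOn us u atTop V := by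
    rw [Metric.tendstoUniformlyOn_iff]
    intro ε hε
    have h1 : Tendsto (fun m : ℕ => δ * (1 / 2 : ℝ) ^ m / (1 - 1 / 2)) atTop (𝓝 0) := by
      have h2 := (tendsto_pow_atTop_nhds_zero_of_lt_one (by norm_num : (0 : ℝ) ≤ 1 / 2)
        (by norm_num)).const_mul δ
      have h3 := h2.div_const (1 - 1 / 2)
      simpa using h3
    filter_upwards [h1.eventually (gt_mem_nhds hε)] with m hm z hz
    rw [dist_comm]
    exact lt_of_le_of_lt (hrate z hz m) hm
  have hud : DifferentiableOn ℂ u V :=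
    hunif.tendstoLocallyUniformlyOn.differentiableOn (Eventually.of_forall hdiff) hV
  have hcl : ∀ z ∈ V, u z ∈ ball a (δ / 2) := by
    intro z hz
    have h1 : u z ∈ closedBall a (δ / 4) :=
      isClosed_closedBall.mem_of_tendsto (hu z hz)
        (Eventually.of_forall fun m => ball_subset_closedBall (hmem m z hz))
    exact closedBall_subset_ball (by linarith) h1
  have hfix : ∀ z ∈ V, u z = Q (h (u z, z)) := by
    intro z hz
    have h1 : Tendsto (fun m => us (m + 1) z) atTop (𝓝 (u z)) :=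
      (hu z hz).comp (tendsto_add_atTop_nat 1)
    have h2 : Tendsto (fun m => us (m + 1) z) atTop (𝓝 (Q (h (u z, z)))) := by
      have hc : ContinuousAt (fun c => Q (h (c, z))) (u z) :=
        ContinuousAt.comp (f := fun c => h (c, z)) (g := Q)
          (hQd _ (hmap _ (hsub2 (hcl z hz)) z hz)).continuousAt
          (hpc _ (hsub2 (hcl z hz)) z hz).continuousAt
      exact (hc.tendsto.comp (hu z hz)).congr fun m => (usS m z).symm
    exact tendsto_nhds_unique h1 h2
  have hum : ∀ z ∈ V, u z ∈ ball a (δ / 4) := by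
    intro z hz
    rw [hfix z hz]
    exact hQm _ (hmap _ (hsub2 (hcl z hz)) z hz)
  refine ⟨u, hud, hum, hfix, ?_⟩
  intro z hz
  have hc := hsub2 (hcl z hz)
  have hu' := (hud.differentiableAt (hV.mem_nhds hz)).hasDerivAt
  have h1 : HasDerivAt (fun z => (u z, z)) (deriv u z, (1 : ℂ)) z := hu'.prodMk (hasDerivAt_id z)
  have h2 : HasDerivAt (fun z => h (u z, z)) (fderiv ℂ h (u z, z) (deriv u z, 1)) z :=
    HasFDerivAt.comp_hasDerivAt (f := fun z => (u z, z)) z (hhd _ hc z hz).hasFDerivAt h1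
  have h3 := (hQd _ (hmap _ hc z hz)).hasDerivAt.comp z h2
  have h4 : deriv u z = deriv Q (h (u z, z)) * fderiv ℂ h (u z, z) (deriv u z, 1) := by
    have h5 : (Q ∘ fun z => h (u z, z)) =ᶠ[𝓝 z] u := by
      filter_upwards [hV.mem_nhds hz] with y hy
      exact (hfix y hy).symm
    rw [← h3.deriv, h5.deriv_eq]
  have h6 : fderiv ℂ h (u z, z) (deriv u z, 1) =
      deriv u z * fderiv ℂ h (u z, z) (1, 0) + fderiv ℂ h (u z, z) (0, 1) := by
    have : ((deriv u z, (1 : ℂ)) : ℂ × ℂ) = deriv u z • ((1 : ℂ), (0 : ℂ)) + ((0 : ℂ), (1 : ℂ)) := by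
      simp
    rw [this, map_add, map_smul, smul_eq_mul]
  rw [h6] at h4
  have h7 := (hpc _ hc z hz).deriv
  have h8 := (hpz _ hc z hz).deriv
  rw [h8]
  have h9 := hM _ (hcl z hz) z hz
  rw [h7] at h9
  set q := deriv Q (h (u z, z))
  set A := fderiv ℂ h (u z, z) (1, 0)
  set B := fderiv ℂ h (u z, z) (0, 1)
  have hqA : ‖q * A‖ ≤ τ * M := by
    rw [norm_mul]
    exact mul_le_mul (hτ _ (hmap _ hc z hz)) h9 (norm_nonneg _) hτ0
  have h10 : q * B = deriv u z * (1 - q * A) := by linear_combination -h4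
  rw [← norm_mul, h10, norm_mul]
  constructor
  · rw [mul_comm]
    gcongr
    calc 1 - τ * M ≤ ‖(1 : ℂ)‖ - ‖q * A‖ := by rw [norm_one]; linarith
      _ ≤ ‖1 - q * A‖ := norm_sub_norm_le _ _
  · rw [mul_comm]
    gcongr
    calc ‖1 - q * A‖ ≤ ‖(1 : ℂ)‖ + ‖q * A‖ := norm_sub_le _ _
      _ ≤ 1 + τ * M := by rw [norm_one]; linarith

/-- Cauchy's bound for the derivative in `c`. -/
theorem cauchy_c {a : ℂ} {δ ρ : ℝ} (hδ : 0 < δ) {y : ℂ} {f : ℂ → ℂ}
    (hf : DifferentiableOn ℂ f (ball a δ)) (hm : ∀ c ∈ ball a δ, f c ∈ closedBall y ρ) :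
    ∀ c ∈ ball a (δ / 2), ‖deriv f c‖ ≤ 4 * ρ / δ := by
  intro c hc
  have h1 : closedBall c (δ / 4) ⊆ ball a δ := by
    intro x hx
    rw [mem_closedBall] at hx
    rw [mem_ball] at hc ⊢
    have := dist_triangle x c a
    linarith
  have h2 : DiffContOnCl ℂ (fun x => f x - y) (ball c (δ / 4)) := by
    apply DifferentiableOn.diffContOnCl
    rw [closure_ball c (by positivity)]
    exact (hf.mono h1).sub_const y
  have h3 := Complex.norm_deriv_le_of_forall_mem_sphere_norm_le (by positivity : 0 < δ / 4) h2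
    (C := ρ) (fun z hz => by
      have h4 := hm z (h1 (sphere_subset_closedBall hz))
      rwa [mem_closedBall, dist_eq_norm] at h4)
  have h5 : deriv (fun x => f x - y) c = deriv f c := by
    rw [deriv_sub_const]
  rw [h5] at h3
  calc ‖deriv f c‖ ≤ ρ / (δ / 4) := h3
    _ = 4 * ρ / δ := by field_simp

end Pool.Agent.TH363.IM
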