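import Mathlib

/-!
# Disjoint discs in an annulus and circle means
-/

set_option autoImplicit false

open Set Metric Filter Topology Complex MeasureTheory

namespace Pool.Agent.TH363.IM

theorem area_bound {F : ℂ → ℝ} (hF0 : ∀ z, 0 ≤ F z) {r1 r2 η S : ℝ} (h1 : 0 < r1) (h12 : r1 < r2)
    (hη : 0 < η)
    (hS : ∀ r ∈ Ioo r1 r2, Continuous (fun θ : ℝ => F (r * exp (θ * I))) ∧
      ∫ θ in (0 : ℝ)..2 * Real.pi, F (r * exp (θ * I)) ≤ S)
    {ι : Type} [Fintype ι] (ζ : ι → ℂ) (v : ι → ℝ) (hv : ∀ i, 0 ≤ v i)
    (hdis : Pairwise (Function.onFun Disjoint fun i => ball (ζ i) η))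
    (hsub : ∀ i, ball (ζ i) η ⊆ {z | r1 < ‖z‖ ∧ ‖z‖ < r2})
    (hF : ∀ i, ∀ z ∈ ball (ζ i) η, v i ≤ F z) :
    Real.pi * η ^ 2 * ∑ i, v i ≤ (r2 - r1) * (r2 * S) := by
  have hpi := Real.pi_pos
  have hS0 : 0 ≤ S := by
    obtain ⟨h2, h3⟩ := hS ((r1 + r2) / 2) ⟨by linarith, by linarith⟩
    exact (intervalIntegral.integral_nonneg (by positivity) fun θ _ => hF0 _).trans h3
  set A : Set ℂ := {z | r1 < ‖z‖ ∧ ‖z‖ < r2} with hA
  set f : ℂ → ENNReal := A.indicator (fun z => ENNReal.ofReal (F z)) with hf
  -- lower bound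
  have hlow : ENNReal.ofReal (Real.pi * η ^ 2 * ∑ i, v i) ≤ ∫⁻ z, f z := by
    have e1 : ENNReal.ofReal (Real.pi * η ^ 2 * ∑ i, v i) =
        ∑ i, ENNReal.ofReal (v i) * volume (ball (ζ i) η) := by
      rw [mul_comm, ENNReal.ofReal_mul (Finset.sum_nonneg fun i _ => hv i),
        ENNReal.ofReal_sum_of_nonneg fun i _ => hv i, Finset.sum_mul]
      refine Finset.sum_congr rfl fun i _ => ?_
      rw [Complex.volume_ball]
      congr 1
      rw [mul_comm, ENNReal.ofReal_mul (by positivity), ENNReal.ofReal_pow hη.le,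
        ← NNReal.coe_real_pi, ENNReal.ofReal_coe_nnreal]
    have e2 : ∀ i, ENNReal.ofReal (v i) * volume (ball (ζ i) η) ≤ ∫⁻ z in ball (ζ i) η, f z := by
      intro i
      rw [← setLIntegral_const]
      apply setLIntegral_mono_ae' measurableSet_ball
      refine Filter.Eventually.of_forall fun z hz => ?_
      rw [hf, indicator_of_mem (hsub i hz)]
      exact ENNReal.ofReal_le_ofReal (hF i z hz)
    rw [e1]
    calc ∑ i, ENNReal.ofReal (v i) * volume (ball (ζ i) η) ≤ ∑ i, ∫⁻ z in ball (ζ i) η, f z :=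
          Finset.sum_le_sum fun i _ => e2 i
      _ = ∫⁻ z in ⋃ i, ball (ζ i) η, f z := by
          rw [lintegral_iUnion (fun i => measurableSet_ball) hdis, tsum_fintype]
      _ ≤ _ := setLIntegral_le_lintegral _ _
  -- upper bound
  have hup : ∫⁻ z, f z ≤ ENNReal.ofReal ((r2 - r1) * (r2 * S)) := by
    rw [← Complex.lintegral_comp_polarCoord_symm]
    have htar : polarCoord.target = Ioi (0 : ℝ) ×ˢ Ioo (-Real.pi) Real.pi := rfl
    rw [htar, Measure.volume_eq_prod, ← Measure.prod_restrict]
    refine (lintegral_prod_le _).trans ?_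
    have hin : ∀ r ∈ Ioi (0 : ℝ), ∫⁻ θ in Ioo (-Real.pi) Real.pi,
        ENNReal.ofReal r • f (Complex.polarCoord.symm (r, θ)) ≤
        (Ioo r1 r2).indicator (fun _ => ENNReal.ofReal (r2 * S)) r := by
      intro r hr
      have hr0 : 0 < r := hr
      have hsymm : ∀ θ : ℝ, Complex.polarCoord.symm (r, θ) = r * exp (θ * I) := by
        intro θ
        rw [Complex.polarCoord_symm_apply, exp_mul_I]
        push_cast; ring
      have hnorm : ∀ θ : ℝ, ‖(r : ℂ) * exp (θ * I)‖ = r := by
        intro θ
        rw [norm_mul, norm_exp_ofReal_mul_I, mul_one, norm_real, Real.norm_eq_abs, abs_of_pos hr0]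
      simp only [hsymm]
      by_cases hrm : r ∈ Ioo r1 r2
      · rw [indicator_of_mem hrm]
        obtain ⟨hc, hi⟩ := hS r hrm
        have e1 : ∀ θ : ℝ, ENNReal.ofReal r • f ((r : ℂ) * exp (θ * I)) =
            ENNReal.ofReal (r * F ((r : ℂ) * exp (θ * I))) := by
          intro θ
          have : (r : ℂ) * exp (θ * I) ∈ A := by
            rw [hA, mem_setOf_eq, hnorm]; exact hrm
          rw [hf, indicator_of_mem this, smul_eq_mul, ENNReal.ofReal_mul hr0.le]
        simp only [e1]
        have hcc : Continuous (fun θ : ℝ => r * F ((r : ℂ) * exp (θ * I))) := hc.const_mul r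
        rw [← ofReal_integral_eq_lintegral_ofReal]
        · apply ENNReal.ofReal_le_ofReal
          rw [← integral_Ioc_eq_integral_Ioo, ← intervalIntegral.integral_of_le (by linarith)]
          have hper : Function.Periodic (fun θ : ℝ => r * F ((r : ℂ) * exp (θ * I))) (2 * Real.pi) := by
            intro θ
            have : exp (((θ + 2 * Real.pi : ℝ) : ℂ) * I) = exp (θ * I) := by
              push_cast
              rw [add_mul, exp_add, exp_two_pi_mul_I, mul_one]
            simp only [this]
          have h3 := hper.intervalIntegral_add_eq (-Real.pi) 0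
          have e3 : -Real.pi + 2 * Real.pi = Real.pi := by ring
          rw [e3, zero_add] at h3
          rw [h3, intervalIntegral.integral_const_mul]
          have h4 : 0 ≤ ∫ θ in (0 : ℝ)..2 * Real.pi, F (r * exp (θ * I)) :=
            intervalIntegral.integral_nonneg (by positivity) fun θ _ => hF0 _
          exact mul_le_mul hrm.2.le hi h4 (by linarith)
        · exact (hcc.integrableOn_Icc (a := -Real.pi) (b := Real.pi)).mono_set Ioo_subset_Icc_self
        · exact Filter.Eventually.of_forall fun θ => mul_nonneg hr0.le (hF0 _)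
      · rw [indicator_of_notMem hrm]
        have e1 : ∀ θ : ℝ, ENNReal.ofReal r • f ((r : ℂ) * exp (θ * I)) = 0 := by
          intro θ
          have : (r : ℂ) * exp (θ * I) ∉ A := by
            rw [hA, mem_setOf_eq, hnorm]; exact hrm
          rw [hf, indicator_of_notMem this, smul_zero]
        simp only [e1]
        simp
    calc _ ≤ ∫⁻ r in Ioi (0 : ℝ), (Ioo r1 r2).indicator (fun _ => ENNReal.ofReal (r2 * S)) r := by
          apply setLIntegral_mono_ae' measurableSet_Ioi
          exact Filter.Eventually.of_forall hin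
      _ ≤ ∫⁻ r, (Ioo r1 r2).indicator (fun _ => ENNReal.ofReal (r2 * S)) r :=
          setLIntegral_le_lintegral _ _
      _ = ENNReal.ofReal ((r2 - r1) * (r2 * S)) := by
          rw [lintegral_indicator measurableSet_Ioo, setLIntegral_const, Real.volume_Ioo,
            ← ENNReal.ofReal_mul (by have : 0 < r2 := by linarith
                                     positivity), mul_comm]
  have := hlow.trans hup
  rwa [ENNReal.ofReal_le_ofReal_iff] at this
  have : 0 < r2 := by linarith
  have : 0 < r2 - r1 := by linarith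
  positivity

end Pool.Agent.TH363.IM
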