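import Pool.Agent.TH363.IM.Per
import Pool.Agent.TH363.IM.Abs

/-!
# Crossing from the dynamical plane to the parameter plane
-/

set_option autoImplicit false

open Set Metric Filter Topology Complex

namespace Pool.Agent.TH363.IM

/-- the fixed point `α` -/
noncomputable def al (c : ℂ) : ℂ := (1 - sq (1 - 4 * c)) / 2

theorem al_eq (c : ℂ) : al c ^ 2 + c = al c := by
  rw [al]; linear_combination (1 / 4) * sq_sq (1 - 4 * c)

theorem hasDerivAt_al {c : ℂ} (h : 1 - 4 * c ∈ slitPlane) :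
    HasDerivAt al (1 / sq (1 - 4 * c)) c := by
  have h1 : HasDerivAt (fun c : ℂ => 1 - 4 * c) (-4) c := by
    simpa using ((hasDerivAt_id c).const_mul (4 : ℂ)).const_sub 1
  have h2 : HasDerivAt (sq ∘ fun c : ℂ => 1 - 4 * c) (1 / (2 * sq (1 - 4 * c)) * -4) c :=
    HasDerivAt.comp c (hasDerivAt_sq h) h1
  have h3 : HasDerivAt al (-(1 / (2 * sq (1 - 4 * c)) * -4) / 2) c :=
    (h2.const_sub 1).div_const 2
  have h4 := sq_ne (slitPlane_ne_zero h)
  have h5 : -(1 / (2 * sq (1 - 4 * c)) * -4) / 2 = 1 / sq (1 - 4 * c) := by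
    field_simp; norm_num
  rwa [h5] at h3

theorem sq_ofReal {x : ℝ} (hx : 0 ≤ x) : sq (x : ℂ) = (√x : ℝ) := by
  rw [sq, Real.sqrt_eq_rpow, ofReal_cpow hx]
  congr 1; push_cast; norm_num

theorem al_a {a b β q : ℝ} (P : Par a b β q) : al a = -b ∧ sq (1 - 4 * (a : ℂ)) = 1 + 2 * b := by
  have h1 : sq (1 - 4 * (a : ℂ)) = 1 + 2 * b := by
    have e : (1 - 4 * (a : ℂ)) = ((1 - 4 * a : ℝ) : ℂ) := by push_cast; ring
    have := P.a2
    have hb := P.b1
    have he := P.eq
    rw [e, sq_ofReal (by linarith)]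
    have h2 : √(1 - 4 * a) = 1 + 2 * b := by
      rw [show (1 - 4 * a) = (1 + 2 * b) ^ 2 by linear_combination -4 * he]
      exact Real.sqrt_sq (by linarith)
    rw [h2]; push_cast; ring
  exact ⟨by rw [al, h1]; ring, h1⟩

/-- the word `- … -` -/
def mi (k : ℕ) : List Bool := List.replicate k false

/-- the conditions on `c` near `a` -/
structure NearA (q : ℝ) (c : ℂ) : Prop where
  h1 : (al c).re ≤ -(4 / 5)
  h2 : 17 / 25 ≤ (al c ^ 2).re
  h3 : ‖zz q - al c‖ ≤ 101 / 100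
  h4 : c.re ≤ -(153 / 100)
  h5 : 1 - 4 * c ∈ slitPlane

theorem nearA_ev {a b β q : ℝ} (P : Par a b β q) : ∀ᶠ c in 𝓝 (a : ℂ), NearA q c := by
  obtain ⟨e1, e2⟩ := al_a P
  have ha2 := P.a2
  have hs : 1 - 4 * (a : ℂ) ∈ slitPlane := by
    rw [mem_slitPlane_iff]; left
    have : (1 - 4 * (a : ℂ)).re = 1 - 4 * a := by simp
    rw [this]; linarith
  have hc : ContinuousAt al (a : ℂ) := (hasDerivAt_al hs).continuousAt
  have hre : Continuous (fun z : ℂ => z.re) := continuous_re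
  have c1 : ContinuousAt (fun c => (al c).re) (a : ℂ) := hre.continuousAt.comp hc
  have c2 : ContinuousAt (fun c => (al c ^ 2).re) (a : ℂ) := hre.continuousAt.comp (hc.pow 2)
  have c3 : ContinuousAt (fun c => ‖zz q - al c‖) (a : ℂ) := (continuousAt_const.sub hc).norm
  have c4 : ContinuousAt (fun c : ℂ => c.re) (a : ℂ) := hre.continuousAt
  have hb1 := P.b1
  have f1 : ∀ᶠ c in 𝓝 (a : ℂ), (al c).re < -(4 / 5) := by
    apply c1.eventually (gt_mem_nhds _)
    change (al (a : ℂ)).re < _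
    rw [e1]; simp; linarith
  have f2 : ∀ᶠ c in 𝓝 (a : ℂ), 17 / 25 < (al c ^ 2).re := by
    apply c2.eventually (lt_mem_nhds _)
    change _ < (al (a : ℂ) ^ 2).re
    rw [e1]
    have : ((-(b : ℂ)) ^ 2).re = b ^ 2 := by
      have : (-(b : ℂ)) ^ 2 = ((b ^ 2 : ℝ) : ℂ) := by push_cast; ring
      rw [this, ofReal_re]
    rw [this]; nlinarith
  have f3 : ∀ᶠ c in 𝓝 (a : ℂ), ‖zz q - al c‖ < 101 / 100 := by
    apply c3.eventually (gt_mem_nhds _)
    change ‖zz q - al (a : ℂ)‖ < _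
    rw [e1]
    have h : ‖zz q - -(b : ℂ)‖ ^ 2 = β - b := by
      rw [← normSq_eq_norm_sq, normSq_apply]
      have h1 : (zz q - -(b : ℂ)).re = b := by simp [zz]
      have h2 : (zz q - -(b : ℂ)).im = q := by simp [zz]
      rw [h1, h2]
      have := P.eq; have := P.hq
      linarith
    have := P.β2
    nlinarith [norm_nonneg (zz q - -(b : ℂ))]
  have f4 : ∀ᶠ c in 𝓝 (a : ℂ), c.re < -(153 / 100) := by
    apply c4.eventually (gt_mem_nhds _)
    change (a : ℂ).re < _
    rw [ofReal_re]; linarith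
  have f5 : ∀ᶠ c in 𝓝 (a : ℂ), 1 - 4 * c ∈ slitPlane := by
    have : ContinuousAt (fun c : ℂ => 1 - 4 * c) (a : ℂ) := by fun_prop
    exact this.eventually_mem (isOpen_slitPlane.mem_nhds hs)
  filter_upwards [f1, f2, f3, f4, f5] with c g1 g2 g3 g4 g5 using ⟨g1.le, g2.le, g3.le, g4.le, g5⟩

theorem minus_step {q : ℝ} {c : ℂ} (H : NearA q c) {y : ℂ} {t : ℝ} (ht : 0 < t)
    (h : t ^ 2 ≤ (y - c).re) : ‖sg false * sq (y - c) - al c‖ * (t + 4 / 5) ≤ ‖y - al c‖ := by
  have h1 : (sg false * sq (y - c) - al c) * (sg false * sq (y - c) + al c) = y - al c := by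
    have e : sg false = -1 := by simp [sg]
    rw [e]; linear_combination sq_sq (y - c) - al_eq c
  rw [← h1, norm_mul]
  refine mul_le_mul_of_nonneg_left ?_ (norm_nonneg _)
  have h2 : ‖sg false * sq (y - c) + al c‖ = ‖sq (y - c) - al c‖ := by
    have e : sg false = -1 := by simp [sg]
    rw [e, ← norm_neg]; congr 1; ring
  rw [h2]
  have h3 := abs_re_le_norm (sq (y - c) - al c)
  rw [sub_re] at h3
  have h4 := le_abs_self ((sq (y - c)).re - (al c).re)
  have h5 := H.h1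
  have h6 : t ≤ (sq (y - c)).re := by
    have h7 := sq_re_sq (y - c)
    have h8 := sq_re_nonneg (y - c)
    nlinarith [sq_nonneg (sq (y - c)).im]
  linarith

theorem mi_near {q : ℝ} {c : ℂ} (H : NearA q c) (k : ℕ) {y : ℂ} (hy : ‖y - al c‖ ≤ 3 / 5) :
    Good c (mi k) y ∧ ‖br c (mi k) y - al c‖ ≤ ‖y - al c‖ * (13 / 14) ^ k := by
  induction k generalizing y with
  | zero => exact ⟨trivial, by simp [mi, br]⟩
  | succ k ih =>
    have h1 : 2 / 25 ≤ (y - c).re := by
      have e : y - c = (y - al c) + al c ^ 2 := by linear_combination -al_eq c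
      rw [e, add_re]
      have h2 := abs_re_le_norm (y - al c)
      have h3 := neg_abs_le (y - al c).re
      have := H.h2
      linarith
    have h2 := minus_step H (y := y) (t := 7 / 25) (by norm_num) (by norm_num at h1 ⊢; linarith)
    have h3 : ‖sg false * sq (y - c) - al c‖ ≤ ‖y - al c‖ * (13 / 14) := by
      nlinarith [norm_nonneg (y - al c), norm_nonneg (sg false * sq (y - c) - al c)]
    have h4 : ‖sg false * sq (y - c) - al c‖ ≤ 3 / 5 := by
      nlinarith [norm_nonneg (y - al c)]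
    obtain ⟨h5, h6⟩ := ih h4
    refine ⟨⟨?_, h5⟩, ?_⟩
    · rw [mem_slitPlane_iff]; left; linarith
    · change ‖br c (mi k) (sg false * sq (y - c)) - al c‖ ≤ _
      calc _ ≤ ‖sg false * sq (y - c) - al c‖ * (13 / 14) ^ k := h6
        _ ≤ (‖y - al c‖ * (13 / 14)) * (13 / 14) ^ k := by gcongr
        _ = _ := by ring

theorem mi_first {q : ℝ} {c : ℂ} (H : NearA q c) (k : ℕ) {z : ℂ}
    (hz : z ∈ ball (zz q) (1 / 8)) :
    Good c (mi (k + 1)) z ∧ ‖br c (mi (k + 1)) z - al c‖ ≤ 3 / 5 * (13 / 14) ^ k := by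
  rw [mem_ball, dist_eq_norm] at hz
  have h1 : 7 / 5 ≤ (z - c).re := by
    have e : z - c = (z - zz q) + (zz q - c) := by ring
    have h0 : (zz q - c).re = -c.re := by simp [zz]
    rw [e, add_re, h0]
    have h2 := abs_re_le_norm (z - zz q)
    have h3 := neg_abs_le (z - zz q).re
    have := H.h4
    linarith
  have h2 := minus_step H (y := z) (t := 59 / 50) (by norm_num) (by norm_num at h1 ⊢; linarith)
  have h3 : ‖z - al c‖ ≤ 227 / 200 := by
    have := norm_sub_le_norm_sub_add_norm_sub z (zz q) (al c)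
    have := H.h3
    linarith
  have h4 : ‖sg false * sq (z - c) - al c‖ ≤ 3 / 5 := by
    nlinarith
  obtain ⟨h5, h6⟩ := mi_near H k h4
  refine ⟨⟨?_, h5⟩, ?_⟩
  · rw [mem_slitPlane_iff]; left; linarith
  · change ‖br c (mi k) (sg false * sq (z - c)) - al c‖ ≤ _
    refine h6.trans ?_
    gcongr

/-- the transversality function -/
noncomputable def Dc (c : ℂ) : ℂ := (fc c)^[2] c - al c

theorem Dc_eq (c : ℂ) : Dc c = (c ^ 2 + c) ^ 2 + c - al c := rfl

theorem Dc_a {a b β q : ℝ} (P : Par a b β q) : Dc a = 0 := by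
  rw [Dc_eq, (al_a P).1]
  have h1 : (b : ℂ) = (a : ℂ) ^ 2 + a := by rw [P.hb]; push_cast; ring
  have h2 : (b : ℂ) ^ 2 + a = -b := by exact_mod_cast congrArg (fun x : ℝ => (x : ℂ)) P.eq
  rw [← h1]; linear_combination h2

theorem Dc_deriv {c : ℂ} (h : 1 - 4 * c ∈ slitPlane) :
    HasDerivAt Dc (2 * (c ^ 2 + c) * (2 * c + 1) + 1 - 1 / sq (1 - 4 * c)) c := by
  have h1 : HasDerivAt (fun c : ℂ => (c ^ 2 + c) ^ 2 + c) (2 * (c ^ 2 + c) * (2 * c + 1) + 1) c := by
    have := ((((hasDerivAt_id' c).fun_pow 2).fun_add (hasDerivAt_id' c)).fun_pow 2).fun_add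
      (hasDerivAt_id' c)
    refine this.congr_deriv ?_
    norm_num
  exact h1.sub (hasDerivAt_al h)

theorem Dc_ne {a b β q : ℝ} (P : Par a b β q) :
    2 * ((a : ℂ) ^ 2 + a) * (2 * a + 1) + 1 - 1 / sq (1 - 4 * (a : ℂ)) ≠ 0 := by
  have h1 : (b : ℂ) = (a : ℂ) ^ 2 + a := by rw [P.hb]; push_cast; ring
  rw [(al_a P).2, ← h1]
  have h2 : (2 * (b : ℂ) * (2 * a + 1) + 1 - 1 / (1 + 2 * b)) =
      ((2 * b * (2 * a + 1) + 1 - 1 / (1 + 2 * b) : ℝ) : ℂ) := by push_cast; ring
  rw [h2]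
  intro h3
  have h4 : 2 * b * (2 * a + 1) + 1 - 1 / (1 + 2 * b) = 0 := by exact_mod_cast h3
  have hb := P.b1
  have ha := P.a2
  have h5 : 0 < 1 / (1 + 2 * b) := by positivity
  nlinarith

/-- The base of the tree: a branch of the inverse of a parameter iterate on the disc. -/
theorem base {a b β q : ℝ} (P : Par a b β q) {ε : ℝ} (hε : 0 < ε) :
    ∃ (n : ℕ) (Q : ℂ → ℂ), DifferentiableOn ℂ Q (ball (zz q) (1 / 8)) ∧
      (∀ z ∈ ball (zz q) (1 / 8), Q z ∈ ball (a : ℂ) ε ∧ (fc (Q z))^[n] (Q z) = z ∧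
        deriv Q z ≠ 0) ∧ ∀ z ∈ closedBall (zz q) (1 / 10), ‖deriv Q z‖ ≤ ε := by
  set d : ℂ := 2 * ((a : ℂ) ^ 2 + a) * (2 * a + 1) + 1 - 1 / sq (1 - 4 * (a : ℂ)) with hd
  have hd0 : d ≠ 0 := Dc_ne P
  have hdn : 0 < ‖d‖ := norm_pos_iff.2 hd0
  have hna := nearA_ev P
  have hDa : HasDerivAt Dc d a := Dc_deriv hna.self_of_nhds.h5
  have hlin : ∀ᶠ c in 𝓝 (a : ℂ), ‖Dc c - Dc a - (c - a) * d‖ ≤ ‖d‖ / 16 * ‖c - a‖ := by
    have := (hasDerivAt_iff_isLittleO.1 hDa).def (c := ‖d‖ / 16) (by positivity)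
    simpa [smul_eq_mul] using this
  obtain ⟨δ1, hδ1, hb⟩ := Metric.eventually_nhds_iff_ball.1 (hna.and hlin)
  set δ : ℝ := min δ1 (ε / 20) with hδd
  have hδ : 0 < δ := lt_min hδ1 (by positivity)
  have hδε : δ ≤ ε / 20 := min_le_right _ _
  have hδs : ball (a : ℂ) δ ⊆ ball (a : ℂ) δ1 := ball_subset_ball (min_le_left _ _)
  obtain ⟨k, hk⟩ : ∃ k : ℕ, 3 / 5 * (13 / 14 : ℝ) ^ k ≤ ‖d‖ * δ / 16 := by
    obtain ⟨k, hk⟩ := exists_pow_lt_of_lt_one (show 0 < ‖d‖ * δ / 16 by positivity)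
      (show (13 / 14 : ℝ) < 1 by norm_num)
    refine ⟨k, ?_⟩
    have : (0 : ℝ) < (13 / 14) ^ k := by positivity
    linarith
  set V : Set ℂ := ball (zz q) (1 / 8) with hV
  set h : ℂ × ℂ → ℂ := fun x => br x.1 (mi (k + 1)) x.2 - al x.1 - (Dc x.1 - (x.1 - a) * d) with hh
  have hbnd : ∀ c ∈ ball (a : ℂ) δ, ∀ z ∈ V, ‖h (c, z)‖ ≤ ‖d‖ * δ / 8 := by
    intro c hc z hz
    obtain ⟨H, hl⟩ := hb c (hδs hc)
    have h1 := (mi_first H k hz).2
    rw [Dc_a P, sub_zero] at hl
    rw [mem_ball, dist_eq_norm] at hc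
    calc ‖h (c, z)‖ ≤ ‖br c (mi (k + 1)) z - al c‖ + ‖Dc c - (c - a) * d‖ := norm_sub_le _ _
      _ ≤ ‖d‖ * δ / 16 + ‖d‖ / 16 * δ := by
          apply add_le_add (h1.trans hk) (hl.trans _)
          gcongr
      _ = _ := by ring
  have hdiff : DifferentiableOn ℂ h (ball (a : ℂ) δ ×ˢ V) := by
    rintro ⟨c, z⟩ ⟨hc, hz⟩
    obtain ⟨H, -⟩ := hb c (hδs hc)
    have h1 := br_joint (mi (k + 1)) (p := (c, z)) (mi_first H k hz).1
    have h2 : DifferentiableAt ℂ (fun x : ℂ × ℂ => al x.1) (c, z) :=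
      DifferentiableAt.comp (f := fun x : ℂ × ℂ => x.1) (g := al) (c, z)
        (hasDerivAt_al H.h5).differentiableAt differentiableAt_fst
    have h3 : DifferentiableAt ℂ (fun x : ℂ × ℂ => Dc x.1) (c, z) :=
      DifferentiableAt.comp (f := fun x : ℂ × ℂ => x.1) (g := Dc) (c, z)
        (Dc_deriv H.h5).differentiableAt differentiableAt_fst
    have h4 : DifferentiableAt ℂ (fun x : ℂ × ℂ => (x.1 - a) * d) (c, z) :=
      (differentiableAt_fst.sub_const _).mul_const _
    exact ((h1.sub h2).sub (h3.sub h4)).differentiableWithinAt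
  have hMc : ∀ c ∈ ball (a : ℂ) (δ / 2), ∀ z ∈ V, ‖deriv (fun c => h (c, z)) c‖ ≤ ‖d‖ / 2 := by
    intro c hc z hz
    have h1 : DifferentiableOn ℂ (fun c => h (c, z)) (ball (a : ℂ) δ) := by
      intro c hc
      have h2 : DifferentiableAt ℂ h (c, z) := hdiff.differentiableAt
        ((isOpen_ball.prod isOpen_ball).mem_nhds ⟨hc, hz⟩)
      exact (DifferentiableAt.comp (f := fun c : ℂ => (c, z)) (g := h) c h2
        (differentiableAt_id.prodMk (differentiableAt_const _))).differentiableWithinAt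
    have h3 := cauchy_c (y := 0) (ρ := ‖d‖ * δ / 8) hδ h1 (fun c hc => by
      rw [mem_closedBall, dist_zero_right]; exact hbnd c hc z hz) c hc
    calc _ ≤ _ := h3
      _ = _ := by field_simp; ring
  set Q : ℂ → ℂ := fun x => a + x / d with hQ
  have hQd : ∀ x, HasDerivAt Q (1 / d) x := fun x => by
    exact ((hasDerivAt_id' x).div_const d).const_add (a : ℂ)
  obtain ⟨u, hu1, hu2, hu3, hu4⟩ := step (a := (a : ℂ)) hδ (V := V) (V' := ball 0 (‖d‖ * δ / 4))
    isOpen_ball isOpen_ball (h := h) hdiff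
    (fun c hc z hz => by
      rw [mem_ball, dist_zero_right]
      have := hbnd c hc z hz
      have : 0 < ‖d‖ * δ := by positivity
      linarith)
    (M := ‖d‖ / 2) (τ := 1 / ‖d‖) (by positivity) hMc (Q := Q)
    (fun x _ => (hQd x).differentiableAt.differentiableWithinAt)
    (fun x hx => by
      rw [mem_ball, dist_zero_right] at hx
      rw [mem_ball, dist_eq_norm]
      simp only [hQ]
      rw [add_sub_cancel_left, norm_div, div_lt_iff₀ hdn]
      linarith)
    (fun x _ => by rw [(hQd x).deriv, norm_div, norm_one])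
    (by rw [div_mul_div_comm, one_mul, mul_comm, div_le_div_iff₀ (by positivity) (by norm_num)]; linarith)
  refine ⟨k + 1 + 2, u, hu1, ?_, ?_⟩
  · intro z hz
    have hc : u z ∈ ball (a : ℂ) δ := ball_subset_ball (by linarith) (hu2 z hz)
    obtain ⟨H, -⟩ := hb (u z) (hδs hc)
    have hgood := (mi_first H k hz).1
    have e1 := hu3 z hz
    have e2 : (fc (u z))^[2] (u z) = br (u z) (mi (k + 1)) z := by
      have e3 : (u z - a) * d = h (u z, z) := by
        conv_lhs => rw [e1]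
        simp only [hQ]
        field_simp
        ring
      simp only [hh] at e3
      have e4 : (fc (u z))^[2] (u z) = Dc (u z) + al (u z) := by rw [Dc]; ring
      rw [e4]; linear_combination e3
    refine ⟨ball_subset_ball (by linarith) hc, ?_, ?_⟩
    · rw [Function.iterate_add_apply, e2]
      have := iter_br (u z) (mi (k + 1)) z
      simpa [mi] using this
    · intro h0
      have h5 := (hu4 z hz).2
      rw [h0, norm_zero, mul_zero, (hQd _).deriv] at h5
      have h6 : HasDerivAt (fun z' => h (u z, z')) (dbr (u z) (mi (k + 1)) z) z := by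
        have := (((hasDerivAt_br hgood).sub_const (al (u z))).sub_const
          (Dc (u z) - (u z - a) * d))
        exact this
      rw [h6.deriv, norm_div, norm_one] at h5
      have h7 : 0 < ‖dbr (u z) (mi (k + 1)) z‖ := norm_pos_iff.2 (dbr_ne hgood)
      have h8 : 0 < 1 / ‖d‖ * ‖dbr (u z) (mi (k + 1)) z‖ := by positivity
      linarith
  · intro z hz
    have hsub : closedBall z (1 / 80) ⊆ V := by
      intro x hx
      rw [mem_closedBall] at hx hz
      rw [hV, mem_ball]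
      have := dist_triangle x z (zz q)
      linarith
    have h4 : ‖deriv (fun x => u x - a) z‖ ≤ (δ / 4) / (1 / 80) := by
      apply norm_deriv_le_of_forall_mem_sphere_norm_le (by norm_num)
      · apply DifferentiableOn.diffContOnCl
        rw [closure_ball z (by norm_num)]
        exact (hu1.mono hsub).sub_const _
      · intro x hx
        have := hu2 x (hsub (sphere_subset_closedBall hx))
        rw [mem_ball, dist_eq_norm] at this
        exact this.le
    rw [deriv_sub_const] at h4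
    have h5 : δ / 4 / (1 / 80) = 20 * δ := by ring
    rw [h5] at h4
    linarith

end Pool.Agent.TH363.IM
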