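import Mathlib

/-!
# Branches of the inverse iterates of `z ^ 2 + c` and the transfer operator at the band merging point
-/

set_option autoImplicit false

open Set Metric Filter Topology Complex

namespace Pool.Agent.TH363.IM

/-- The principal square root. -/
noncomputable def sq (z : ℂ) : ℂ := z ^ (((2 : ℕ) : ℂ)⁻¹)

theorem sq_sq (z : ℂ) : sq z ^ 2 = z := cpow_nat_inv_pow z two_ne_zero

theorem norm_sq_sq (z : ℂ) : ‖sq z‖ ^ 2 = ‖z‖ := by rw [← norm_pow, sq_sq]

theorem sq_re_nonneg (z : ℂ) : 0 ≤ (sq z).re := by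
  by_cases hz : z = 0
  · rw [sq, hz, zero_cpow (by norm_num)]; simp
  · rw [sq, cpow_def_of_ne_zero hz, exp_re]
    have h1 : (Complex.log z * ((2 : ℕ) : ℂ)⁻¹).im = arg z / 2 := by
      have : (((2 : ℕ) : ℂ)⁻¹) = ((1 / 2 : ℝ) : ℂ) := by push_cast; norm_num
      rw [this, im_mul_ofReal, log_im]; ring
    rw [h1]
    refine mul_nonneg (Real.exp_pos _).le (Real.cos_nonneg_of_mem_Icc ⟨?_, ?_⟩)
    · have := neg_pi_lt_arg z; linarith
    · have := arg_le_pi z; linarith

theorem sq_ne {z : ℂ} (hz : z ≠ 0) : sq z ≠ 0 := by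
  intro h
  have := sq_sq z
  rw [h] at this
  exact hz (by simpa using this.symm)

theorem hasDerivAt_sq {z : ℂ} (hz : z ∈ slitPlane) : HasDerivAt sq (1 / (2 * sq z)) z := by
  have h0 : z ≠ 0 := slitPlane_ne_zero hz
  have h1 : HasDerivAt (fun z : ℂ => z ^ (((2 : ℕ) : ℂ)⁻¹))
      ((((2 : ℕ) : ℂ)⁻¹) * z ^ ((((2 : ℕ) : ℂ)⁻¹) - 1) * 1) z :=
    (hasDerivAt_id z).cpow_const hz
  have h2 : (((2 : ℕ) : ℂ)⁻¹) * z ^ ((((2 : ℕ) : ℂ)⁻¹) - 1) * 1 = 1 / (2 * sq z) := by
    rw [cpow_sub _ _ h0, cpow_one]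
    change _ * (sq z / z) * 1 = _
    have h3 := sq_ne h0
    have h4 := sq_sq z
    have h5 : sq z / z = 1 / sq z := by
      rw [div_eq_div_iff h0 h3, one_mul, ← h4]
      rw [h4]; rw [← pow_two, h4]
    rw [h5]
    push_cast
    field_simp
  rw [h2] at h1
  exact h1

/-- The sign of a letter. -/
noncomputable def sg (s : Bool) : ℂ := if s then 1 else -1

theorem sg_sq (s : Bool) : sg s ^ 2 = 1 := by cases s <;> simp [sg]

theorem norm_sg (s : Bool) : ‖sg s‖ = 1 := by cases s <;> simp [sg]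

theorem sg_ne (s : Bool) : sg s ≠ 0 := by cases s <;> simp [sg]

/-- The branch of the inverse of an iterate of `z ^ 2 + c` given by a word. -/
noncomputable def br (c : ℂ) : List Bool → ℂ → ℂ
  | [], z => z
  | s :: σ, z => br c σ (sg s * sq (z - c))

/-- Its derivative. -/
noncomputable def dbr (c : ℂ) : List Bool → ℂ → ℂ
  | [], _ => 1
  | s :: σ, z => dbr c σ (sg s * sq (z - c)) * (sg s / (2 * sq (z - c)))

/-- The branch is holomorphic near `z`. -/
def Good (c : ℂ) : List Bool → ℂ → Prop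
  | [], _ => True
  | s :: σ, z => z - c ∈ slitPlane ∧ Good c σ (sg s * sq (z - c))

theorem br_append (c : ℂ) (σ τ : List Bool) (z : ℂ) : br c (σ ++ τ) z = br c τ (br c σ z) := by
  induction σ generalizing z with
  | nil => rfl
  | cons s σ ih => exact ih _

theorem dbr_append (c : ℂ) (σ τ : List Bool) (z : ℂ) :
    dbr c (σ ++ τ) z = dbr c τ (br c σ z) * dbr c σ z := by
  induction σ generalizing z with
  | nil => simp [dbr, br]
  | cons s σ ih =>
    change dbr c (σ ++ τ) _ * _ = dbr c τ (br c σ _) * (dbr c σ _ * _)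
    rw [ih]; ring

theorem good_append (c : ℂ) (σ τ : List Bool) (z : ℂ) :
    Good c (σ ++ τ) z ↔ Good c σ z ∧ Good c τ (br c σ z) := by
  induction σ generalizing z with
  | nil => simp [Good, br]
  | cons s σ ih =>
    change (_ ∧ Good c (σ ++ τ) _) ↔ (_ ∧ Good c σ _) ∧ Good c τ (br c σ _)
    rw [ih, and_assoc]

theorem dbr_ne {c : ℂ} {σ : List Bool} {z : ℂ} (h : Good c σ z) : dbr c σ z ≠ 0 := by
  induction σ generalizing z with
  | nil => exact one_ne_zero
  | cons s σ ih =>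
    refine mul_ne_zero (ih h.2) (div_ne_zero (sg_ne s) ?_)
    exact mul_ne_zero two_ne_zero (sq_ne (slitPlane_ne_zero h.1))

/-- the map `(c, z) ↦ (c, ± √(z - c))` -/
noncomputable def ph (s : Bool) (p : ℂ × ℂ) : ℂ × ℂ := (p.1, sg s * sq (p.2 - p.1))

theorem ph_diff (s : Bool) {p : ℂ × ℂ} (hp : p.2 - p.1 ∈ slitPlane) :
    DifferentiableAt ℂ (ph s) p := by
  have h1 : DifferentiableAt ℂ (fun p : ℂ × ℂ => p.2 - p.1) p :=
    differentiableAt_snd.sub differentiableAt_fst
  have h2 : DifferentiableAt ℂ (fun p : ℂ × ℂ => sq (p.2 - p.1)) p :=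
    DifferentiableAt.comp (f := fun p : ℂ × ℂ => p.2 - p.1) (g := sq) p
      (hasDerivAt_sq hp).differentiableAt h1
  exact differentiableAt_fst.prodMk ((differentiableAt_const _).mul h2)

theorem isOpen_slit : IsOpen {p : ℂ × ℂ | p.2 - p.1 ∈ slitPlane} :=
  isOpen_slitPlane.preimage (continuous_snd.sub continuous_fst)

theorem isOpen_good (σ : List Bool) : IsOpen {p : ℂ × ℂ | Good p.1 σ p.2} := by
  induction σ with
  | nil =>
    have : {p : ℂ × ℂ | Good p.1 [] p.2} = univ := by ext p; simp [Good]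
    rw [this]; exact isOpen_univ
  | cons s σ ih =>
    have h1 : ContinuousOn (ph s) {p : ℂ × ℂ | p.2 - p.1 ∈ slitPlane} := fun p hp =>
      (ph_diff s hp).continuousAt.continuousWithinAt
    exact h1.isOpen_inter_preimage isOpen_slit ih

theorem br_joint (σ : List Bool) {p : ℂ × ℂ} (hp : Good p.1 σ p.2) :
    DifferentiableAt ℂ (fun p : ℂ × ℂ => br p.1 σ p.2) p := by
  induction σ generalizing p with
  | nil => exact differentiableAt_snd
  | cons s σ ih =>
    exact DifferentiableAt.comp (f := ph s) (g := fun p : ℂ × ℂ => br p.1 σ p.2) p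
      (ih (p := ph s p) hp.2) (ph_diff s hp.1)

theorem dbr_joint (σ : List Bool) {p : ℂ × ℂ} (hp : Good p.1 σ p.2) :
    ContinuousAt (fun p : ℂ × ℂ => dbr p.1 σ p.2) p := by
  induction σ generalizing p with
  | nil => exact continuousAt_const
  | cons s σ ih =>
    have h1 : ContinuousAt (fun p : ℂ × ℂ => dbr (ph s p).1 σ (ph s p).2) p :=
      ContinuousAt.comp (f := ph s) (g := fun p : ℂ × ℂ => dbr p.1 σ p.2)
        (ih (p := ph s p) hp.2) (ph_diff s hp.1).continuousAt
    have h2 : ContinuousAt (fun p : ℂ × ℂ => sq (p.2 - p.1)) p :=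
      ContinuousAt.comp (f := fun p : ℂ × ℂ => p.2 - p.1) (hasDerivAt_sq hp.1).continuousAt
        (continuous_snd.sub continuous_fst).continuousAt
    exact h1.mul (continuousAt_const.div (continuousAt_const.mul h2)
      (mul_ne_zero two_ne_zero (sq_ne (slitPlane_ne_zero hp.1))))

theorem hasDerivAt_br {c : ℂ} {σ : List Bool} {z : ℂ} (h : Good c σ z) :
    HasDerivAt (br c σ) (dbr c σ z) z := by
  induction σ generalizing z with
  | nil => exact hasDerivAt_id z
  | cons s σ ih =>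
    have h1 : HasDerivAt (fun z => z - c) 1 z := (hasDerivAt_id z).sub_const c
    have h1' : HasDerivAt (sq ∘ fun z => z - c) (1 / (2 * sq (z - c)) * 1) z :=
      HasDerivAt.comp z (hasDerivAt_sq h.1) h1
    have h2 : HasDerivAt (fun z => sg s * sq (z - c)) (sg s * (1 / (2 * sq (z - c)) * 1)) z :=
      h1'.const_mul (sg s)
    have h3 : HasDerivAt (br c σ ∘ fun z => sg s * sq (z - c))
      (dbr c σ (sg s * sq (z - c)) * (sg s * (1 / (2 * sq (z - c)) * 1))) z :=
      HasDerivAt.comp z (ih h.2) h2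
    have h4 : dbr c (s :: σ) z = dbr c σ (sg s * sq (z - c)) * (sg s * (1 / (2 * sq (z - c)) * 1)) := by
      change dbr c σ (sg s * sq (z - c)) * (sg s / (2 * sq (z - c))) = _
      ring
    rw [h4]
    exact h3

/-- The quadratic polynomial. -/
def fc (c z : ℂ) : ℂ := z ^ 2 + c

theorem fc_root (c z : ℂ) (s : Bool) : fc c (sg s * sq (z - c)) = z := by
  rw [fc, mul_pow, sg_sq, sq_sq]; ring

theorem iter_br (c : ℂ) (σ : List Bool) (z : ℂ) : (fc c)^[σ.length] (br c σ z) = z := by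
  induction σ generalizing z with
  | nil => rfl
  | cons s σ ih =>
    rw [List.length_cons, Function.iterate_succ_apply']
    change fc c ((fc c)^[σ.length] (br c σ (sg s * sq (z - c)))) = z
    rw [ih, fc_root]

theorem br_inj_word {c : ℂ} {σ τ : List Bool} (hl : σ.length = τ.length) {z : ℂ}
    (hσ : Good c σ z) (h : br c σ z = br c τ z) : σ = τ := by
  induction σ generalizing τ z with
  | nil => exact (List.length_eq_zero_iff.1 hl.symm).symm
  | cons s σ ih =>
    cases τ with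
    | nil => simp at hl
    | cons t τ =>
      simp only [List.length_cons, add_left_inj] at hl
      change br c σ (sg s * sq (z - c)) = br c τ (sg t * sq (z - c)) at h
      have h1 := congrArg ((fc c)^[σ.length]) h
      rw [iter_br, hl, iter_br] at h1
      have h0 := sq_ne (slitPlane_ne_zero hσ.1)
      have h2 : s = t := by
        have h3 := mul_right_cancel₀ h0 h1
        cases s <;> cases t <;> simp [sg] at h3 ⊢
        · norm_num at h3
        · norm_num at h3
      subst h2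
      rw [ih hl hσ.2 h]

/-! ### the parameter -/

/-- The band merging parameter `a` with its postcritical points `b`, `-b` (fixed), the fixed point
`β` and the preimage `i q` of `-β`. -/
structure Par (a b β q : ℝ) : Prop where
  a1 : -(31 / 20) < a
  a2 : a < -(77 / 50)
  hb : b = a ^ 2 + a
  eq : b ^ 2 + a = -b
  b1 : 83 / 100 < b
  b2 : b < 17 / 20
  β1 : 183 / 100 < β
  β2 : β < 37 / 20
  hβ : β ^ 2 + a = β
  q1 : 53 / 100 < q
  q2 : q < 14 / 25
  hq : q ^ 2 = a + β

theorem exists_par : ∃ a b β q : ℝ, Par a b β q := by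
  have h1 : ∃ a ∈ Icc (-(31 / 20) : ℝ) (-(77 / 50)), a ^ 3 + 2 * a ^ 2 + 2 * a + 2 = 0 := by
    have hc : ContinuousOn (fun a : ℝ => a ^ 3 + 2 * a ^ 2 + 2 * a + 2)
        (Icc (-(31 / 20) : ℝ) (-(77 / 50))) := by fun_prop
    have h := intermediate_value_Icc (by norm_num : (-(31 / 20) : ℝ) ≤ -(77 / 50)) hc
    have h0 : (0 : ℝ) ∈ Icc ((-(31 / 20) : ℝ) ^ 3 + 2 * (-(31 / 20)) ^ 2 + 2 * (-(31 / 20)) + 2)
        ((-(77 / 50)) ^ 3 + 2 * (-(77 / 50)) ^ 2 + 2 * (-(77 / 50)) + 2) := by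
      constructor <;> norm_num
    obtain ⟨a, ha, h2⟩ := h h0
    exact ⟨a, ha, h2⟩
  obtain ⟨a, ⟨h2, h3⟩, h4⟩ := h1
  have ha1 : -(31 / 20) < a := by
    rcases h2.lt_or_eq with h | h
    · exact h
    · rw [← h] at h4; norm_num at h4
  have ha2 : a < -(77 / 50) := by
    rcases h3.lt_or_eq with h | h
    · exact h
    · rw [h] at h4; norm_num at h4
  set β : ℝ := (1 + √(1 - 4 * a)) / 2 with hβd
  have hs : √(1 - 4 * a) ^ 2 = 1 - 4 * a := Real.sq_sqrt (by linarith)
  have hs0 : 0 ≤ √(1 - 4 * a) := Real.sqrt_nonneg _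
  have hβ : β ^ 2 + a = β := by rw [hβd]; nlinarith
  have hβ0 : 0 < β := by rw [hβd]; linarith
  have hβ1 : 183 / 100 < β := by
    by_contra h
    push Not at h
    have hb2 : 1 / 2 ≤ β := by rw [hβd]; linarith
    nlinarith
  have hβ2 : β < 37 / 20 := by
    by_contra h
    push Not at h
    nlinarith
  have hq0 : 0 < a + β := by nlinarith
  have he : (a ^ 2 + a) ^ 2 + a = -(a ^ 2 + a) := by linear_combination a * h4
  have hb1 : 83 / 100 < a ^ 2 + a := by nlinarith
  have hb2 : a ^ 2 + a < 17 / 20 := by nlinarith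
  have hq1 : 53 / 100 < √(a + β) := by
    rw [Real.lt_sqrt (by norm_num)]
    nlinarith
  have hq2 : √(a + β) < 14 / 25 := by
    rw [Real.sqrt_lt' (by norm_num)]
    nlinarith
  exact ⟨a, a ^ 2 + a, β, √(a + β), ha1, ha2, rfl, he, hb1, hb2, hβ1, hβ2, hβ, hq1, hq2,
    Real.sq_sqrt hq0.le⟩

end Pool.Agent.TH363.IM
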