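import Pool.Agent.TH363.IM.Ret
import Pool.Agent.Helper265.BrK

/-!
# A family of words with large derivative sum returning to a disc
-/

set_option autoImplicit false

open Set Metric Filter Topology Complex

namespace Pool.Agent.TH363.IM

noncomputable def t0 (k : ℕ) : List Bool := true :: (pl (k + 2) ++ [false])
noncomputable def t1 (k : ℕ) : List Bool := false :: (pl (k + 2) ++ [false])
noncomputable def t2 (k : ℕ) : List Bool := true :: false :: (pl (k + 1) ++ [false])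

theorem wt_eq {a b p : ℝ} {y : ℂ} (h : y ∈ Dm) :
    wt a b p y = (‖y - (a : ℂ)‖ ^ 2 * ‖y - (b : ℂ)‖ * ‖y + (b : ℂ)‖) ^ (-(p / 4)) := by
  have h1 := norm_sub_pos h a
  have h2 := norm_sub_pos h b
  have h3 := norm_add_pos h b
  rw [Real.mul_rpow (by positivity) h3.le, Real.mul_rpow (by positivity) h2.le, wt,
    ← Real.rpow_natCast, ← Real.rpow_mul h1.le]
  congr 3
  push_cast; ring

theorem three {x y z : ℝ} (hx : 0 < x) (hy : 0 < y) (hz : 0 < z) (hz5 : z ≤ 5)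
    (h1 : 2 / 3 ≤ x + y) (h2 : 2 / 3 ≤ x + z) (h3 : 2 / 3 ≤ y + z) :
    x ^ 2 ≤ 540 * (x ^ 2 * y * z) ∨ y ^ 2 ≤ 540 * (x ^ 2 * y * z) ∨
      (2 * z) ^ 2 ≤ 540 * (x ^ 2 * y * z) := by
  rcases le_or_gt (1 / 3) x with hx3 | hx3
  · have hx9 : 1 / 9 ≤ x ^ 2 := by nlinarith
    rcases le_or_gt (1 / 3) y with hy3 | hy3
    · right; right
      have : 1 / 27 ≤ x ^ 2 * y := by nlinarith
      nlinarith
    · right; left
      have hz3 : 1 / 3 ≤ z := by linarith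
      have : 1 / 27 ≤ x ^ 2 * z := by nlinarith
      nlinarith
  · left
    have hy3 : 1 / 3 ≤ y := by linarith
    have hz3 : 1 / 3 ≤ z := by linarith
    have : 1 / 9 ≤ y * z := by nlinarith
    nlinarith [sq_nonneg x]

theorem pos_case {p W α D E : ℝ} (hp : 0 < p) (hW : 0 < W) (hα : 0 < α) (hE : 0 < E)
    (h1 : α ^ 2 ≤ 540 * W) (h2 : E ≤ D * √α) :
    E ^ p / 540 ^ (p / 4) * W ^ (-(p / 4)) ≤ D ^ p := by
  have hs : 0 < √α := Real.sqrt_pos.2 hα
  have hD : 0 < D := by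
    by_contra hD
    push Not at hD
    nlinarith
  have h3 : E ^ p ≤ D ^ p * √α ^ p := by
    rw [← Real.mul_rpow hD.le hs.le]
    exact Real.rpow_le_rpow hE.le h2 hp.le
  have h4 : √α ^ p = (α ^ 2) ^ (p / 4) := by
    rw [Real.sqrt_eq_rpow, ← Real.rpow_mul hα.le, ← Real.rpow_natCast, ← Real.rpow_mul hα.le]
    congr 1; push_cast; ring
  have h5 : (α ^ 2) ^ (p / 4) ≤ 540 ^ (p / 4) * W ^ (p / 4) := by
    rw [← Real.mul_rpow (by norm_num) hW.le]
    exact Real.rpow_le_rpow (by positivity) h1 (by linarith)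
  rw [Real.rpow_neg hW.le, div_mul_eq_mul_div, ← div_eq_mul_inv, div_div,
    div_le_iff₀ (by positivity)]
  calc E ^ p ≤ D ^ p * √α ^ p := h3
    _ ≤ D ^ p * (540 ^ (p / 4) * W ^ (p / 4)) := by rw [h4]; gcongr
    _ = _ := by ring

theorem ret_sum {a b β q : ℝ} (P : Par a b β q) {k : ℕ} (hk : 5 / β ^ (k + 1) ≤ 1 / 40) {p : ℝ}
    (hp : p ≠ 0) : ∃ c : ℝ, 0 < c ∧ ∀ y ∈ Dm, ∀ s0 s1 s2 : Bool,
      c * wt a b p y ≤ ‖dbr a (t0 k ++ [s0]) y‖ ^ p + ‖dbr a (t1 k ++ [s1]) y‖ ^ p +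
        ‖dbr a (t2 k ++ [s2]) y‖ ^ p := by
  have hβ0 : 1 < β := by have := P.β1; linarith
  have ha1 := P.a1
  have ha2 := P.a2
  have hb1 := P.b1
  have hb2 := P.b2
  rcases lt_or_gt_of_ne hp with hp0 | hp0
  · refine ⟨(25 : ℝ) ^ (p / 4), by positivity, fun y hy s0 s1 s2 => ?_⟩
    have h1 := norm_sub_pos hy a
    have h2 := norm_sub_pos hy b
    have h3 := norm_add_pos hy b
    have hk' : 5 / β ^ (k + 2 + 1) ≤ 1 / 40 := by
      refine le_trans ?_ hk
      apply div_le_div_of_nonneg_left (by norm_num) (by positivity)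
      exact pow_le_pow_right₀ hβ0.le (by omega)
    have h4 := E0 P hk' s0 hy
    have h5 : true :: (pl (k + 2) ++ [false]) ++ [s0] = t0 k ++ [s0] := rfl
    rw [h5] at h4
    have hD := norm_pos_iff.2 (dbr_ne (good_Dm P (t0 k ++ [s0]) hy))
    set D := ‖dbr a (t0 k ++ [s0]) y‖
    have hs : 0 < √‖y - (a : ℂ)‖ := Real.sqrt_pos.2 h1
    have h6 : wt a b p y ≤ 25 ^ (-(p / 4)) * √‖y - (a : ℂ)‖ ^ (-p) := by
      rw [wt_eq hy]
      have h7 : √‖y - (a : ℂ)‖ ^ (-p) = (‖y - (a : ℂ)‖ ^ 2) ^ (-(p / 4)) := by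
        rw [Real.sqrt_eq_rpow, ← Real.rpow_mul h1.le, ← Real.rpow_natCast, ← Real.rpow_mul h1.le]
        congr 1; push_cast; ring
      rw [h7, ← Real.mul_rpow (by norm_num) (by positivity)]
      refine Real.rpow_le_rpow (by positivity) ?_ (by linarith)
      have h8 : ‖y - (b : ℂ)‖ ≤ 5 := by
        have := norm_sub_Dm (x := b) hy (by rw [abs_of_pos (by linarith)]; linarith)
        linarith
      have h9 : ‖y + (b : ℂ)‖ ≤ 5 := by
        have := norm_sub_Dm (x := -b) hy (by rw [abs_neg, abs_of_pos (by linarith)]; linarith)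
        push_cast at this
        rw [sub_neg_eq_add] at this
        linarith
      calc ‖y - (a : ℂ)‖ ^ 2 * ‖y - (b : ℂ)‖ * ‖y + (b : ℂ)‖ ≤ ‖y - (a : ℂ)‖ ^ 2 * 5 * 5 := by
            gcongr
        _ = _ := by ring
    have h10 : √‖y - (a : ℂ)‖ ^ (-p) ≤ D ^ p := by
      rw [Real.rpow_neg hs.le, ← Real.inv_rpow hs.le]
      apply Real.rpow_le_rpow_of_nonpos hD _ hp0.le
      rw [← one_div, le_div_iff₀ hs]; exact h4
    have h11 : (0 : ℝ) ≤ ‖dbr a (t1 k ++ [s1]) y‖ ^ p := by positivity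
    have h12 : (0 : ℝ) ≤ ‖dbr a (t2 k ++ [s2]) y‖ ^ p := by positivity
    have h13 : (25 : ℝ) ^ (p / 4) * wt a b p y ≤ √‖y - (a : ℂ)‖ ^ (-p) := by
      calc (25 : ℝ) ^ (p / 4) * wt a b p y ≤
          25 ^ (p / 4) * (25 ^ (-(p / 4)) * √‖y - (a : ℂ)‖ ^ (-p)) := by gcongr
        _ = (25 ^ (p / 4) * 25 ^ (-(p / 4))) * √‖y - (a : ℂ)‖ ^ (-p) := by ring
        _ = _ := by rw [← Real.rpow_add (by norm_num)]; simp
    linarith
  · refine ⟨((1 / 5 : ℝ) ^ (k + 5)) ^ p / 540 ^ (p / 4), by positivity, fun y hy s0 s1 s2 => ?_⟩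
    have h1 := norm_sub_pos hy a
    have h2 := norm_sub_pos hy b
    have h3 := norm_add_pos hy b
    have hE : (0 : ℝ) < (1 / 5) ^ (k + 5) := by positivity
    have e0 : (1 / 5 : ℝ) ^ (k + 5) ≤ ‖dbr a (t0 k ++ [s0]) y‖ * √‖y - (a : ℂ)‖ := by
      have := E1 P true (pl (k + 2) ++ [false] ++ [s0]) hy
      have e : (pl (k + 2) ++ [false] ++ [s0]).length + 1 = k + 5 := by simp [pl]
      rw [e] at this
      exact this
    have e1 : (1 / 5 : ℝ) ^ (k + 5) ≤ ‖dbr a (t1 k ++ [s1]) y‖ * √‖y - (b : ℂ)‖ := by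
      have := E2 P true (pl (k + 1) ++ [false] ++ [s1]) hy
      have e : (pl (k + 1) ++ [false] ++ [s1]).length + 2 = k + 5 := by simp [pl]
      rw [e] at this
      exact this
    have e2 : (1 / 5 : ℝ) ^ (k + 5) ≤ ‖dbr a (t2 k ++ [s2]) y‖ * √(2 * ‖y + (b : ℂ)‖) := by
      have := E3 P true (pl k ++ [false] ++ [s2]) hy
      have e : (pl k ++ [false] ++ [s2]).length + 3 = k + 5 := by simp [pl]
      rw [e] at this
      exact this
    have h8 : ‖y - (b : ℂ)‖ ≤ 5 := by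
      have := norm_sub_Dm (x := b) hy (by rw [abs_of_pos (by linarith)]; linarith)
      linarith
    have h9 : ‖y + (b : ℂ)‖ ≤ 5 := by
      have := norm_sub_Dm (x := -b) hy (by rw [abs_neg, abs_of_pos (by linarith)]; linarith)
      push_cast at this
      rw [sub_neg_eq_add] at this
      linarith
    have s1' : 2 / 3 ≤ ‖y - (a : ℂ)‖ + ‖y - (b : ℂ)‖ := by
      have h : ‖((b - a : ℝ) : ℂ)‖ ≤ ‖y - (a : ℂ)‖ + ‖y - (b : ℂ)‖ := by
        have : ((b - a : ℝ) : ℂ) = (y - a) - (y - b) := by push_cast; ring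
        rw [this]; exact norm_sub_le _ _
      rw [norm_real, Real.norm_eq_abs, abs_of_pos (by linarith)] at h
      linarith
    have s2' : 2 / 3 ≤ ‖y - (a : ℂ)‖ + ‖y + (b : ℂ)‖ := by
      have h : ‖((b + a : ℝ) : ℂ)‖ ≤ ‖y - (a : ℂ)‖ + ‖y + (b : ℂ)‖ := by
        have : ((b + a : ℝ) : ℂ) = (y + b) - (y - a) := by push_cast; ring
        rw [this]; exact (norm_sub_le _ _).trans (le_of_eq (add_comm _ _))
      rw [norm_real, Real.norm_eq_abs, abs_of_neg (by linarith)] at h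
      linarith
    have s3' : 2 / 3 ≤ ‖y - (b : ℂ)‖ + ‖y + (b : ℂ)‖ := by
      have h : ‖((2 * b : ℝ) : ℂ)‖ ≤ ‖y - (b : ℂ)‖ + ‖y + (b : ℂ)‖ := by
        have : ((2 * b : ℝ) : ℂ) = (y + b) - (y - b) := by push_cast; ring
        rw [this]; exact (norm_sub_le _ _).trans (le_of_eq (add_comm _ _))
      rw [norm_real, Real.norm_eq_abs, abs_of_pos (by linarith)] at h
      linarith
    have hW : 0 < ‖y - (a : ℂ)‖ ^ 2 * ‖y - (b : ℂ)‖ * ‖y + (b : ℂ)‖ := by positivity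
    have n0 : (0 : ℝ) ≤ ‖dbr a (t0 k ++ [s0]) y‖ ^ p := by positivity
    have n1 : (0 : ℝ) ≤ ‖dbr a (t1 k ++ [s1]) y‖ ^ p := by positivity
    have n2 : (0 : ℝ) ≤ ‖dbr a (t2 k ++ [s2]) y‖ ^ p := by positivity
    rw [wt_eq hy]
    rcases three h1 h2 h3 h9 s1' s2' s3' with h | h | h
    · have := pos_case hp0 hW h1 hE h e0
      linarith
    · have := pos_case hp0 hW h2 hE h e1
      linarith
    · have := pos_case hp0 hW (by positivity : 0 < 2 * ‖y + (b : ℂ)‖) hE h e2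
      linarith

theorem cl_app (σ t : List Bool) : cl (σ ++ t) = σ ++ (t ++ [decide (0 < sgr (σ ++ t))]) := by
  rw [cl, List.append_assoc]

theorem cl_inj {n : ℕ} {σ σ' t t' : List Bool} (h1 : σ.length = n) (h2 : σ'.length = n)
    (h : cl (σ ++ t) = cl (σ' ++ t')) : σ = σ' ∧ ∃ s s' : Bool, t ++ [s] = t' ++ [s'] := by
  rw [cl_app, cl_app] at h
  obtain ⟨h3, h4⟩ := List.append_inj h (h1.trans h2.symm)
  exact ⟨h3, _, _, h4⟩

theorem ball_Dm {a b β q : ℝ} (P : Par a b β q) {z : ℂ} (hz : z ∈ ball (zz q) q) :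
    z ∈ Dm ∧ 0 < z.im := by
  rw [mem_ball, dist_eq_norm] at hz
  have hq := P.q2
  have h1 := abs_im_le_norm (z - zz q)
  have h2 : (z - zz q).im = z.im - q := by simp [zz]
  rw [h2] at h1
  have h3 := neg_abs_le (z.im - q)
  have h4 : 0 < z.im := by linarith
  refine ⟨⟨h4.ne', ?_⟩, h4⟩
  have h5 : ‖z‖ ≤ ‖z - zz q‖ + ‖zz q‖ := by
    calc ‖z‖ = ‖(z - zz q) + zz q‖ := by rw [sub_add_cancel]
      _ ≤ _ := norm_add_le _ _
  have h6 : ‖zz q‖ = q := by
    rw [zz, norm_mul, norm_I, mul_one, norm_real, Real.norm_eq_abs, abs_of_pos]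
    have := P.q1; linarith
  linarith

/-- The family of words. -/
theorem fam {a b β q : ℝ} (P : Par a b β q) {p : ℝ} (hp : p ≠ 0) {ε : ℝ}
    (hε : (2 : ℝ) ^ (2 * ε) < Real.cosh (p / 5)) (Λ : ℝ) :
    ∃ N : ℕ, 1 ≤ N ∧ ∃ J : Finset (List Bool), (∀ τ ∈ J, τ.length = N) ∧
      (∀ τ ∈ J, ∀ z ∈ ball (zz q) q, br a τ z ∈ ball (zz q) (1 / 40)) ∧
      Λ * (2 ^ (1 - p + ε)) ^ N ≤ ∑ τ ∈ J, ‖dbr a τ (zz q)‖ ^ p := by
  have hβ0 : 1 < β := by have := P.β1; linarith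
  have hq1 := P.q1
  obtain ⟨k, hk⟩ : ∃ k : ℕ, 5 / β ^ (k + 1) ≤ 1 / 100 := by
    obtain ⟨k, hk⟩ := pow_unbounded_of_one_lt 500 hβ0
    refine ⟨k, ?_⟩
    rw [div_le_iff₀ (by positivity)]
    have : β ^ k ≤ β ^ (k + 1) := pow_le_pow_right₀ hβ0.le (by omega)
    linarith
  obtain ⟨c, hc, hret⟩ := ret_sum P (k := k) (by linarith) hp
  have hz0 : zz q ∈ ball (zz q) q := mem_ball_self (by linarith)
  obtain ⟨hzD, hzim⟩ := ball_Dm P hz0
  have hw := wt_pos (a := a) (b := b) (p := p) hzD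
  set H : ℝ := 2 ^ ε with hH
  have hH0 : 0 < H := by positivity
  have hHH : H ^ 2 = 2 ^ (2 * ε) := by
    rw [hH, ← Real.rpow_natCast, ← Real.rpow_mul (by norm_num)]
    congr 1; push_cast; ring
  have hch : 1 < Real.cosh (p / 5) / H ^ 2 := by
    rw [one_lt_div (by positivity), hHH]; exact hε
  set G : ℝ := 2 ^ (1 - p) with hG
  have hG0 : 0 < G := by positivity
  have hGH : (2 : ℝ) ^ (1 - p + ε) = G * H := Real.rpow_add (by norm_num) _ _
  obtain ⟨m, hm⟩ := pow_unbounded_of_one_lt (Λ * (G * H) ^ (k + 5) / (c * wt a b p (zz q))) hch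
  rw [div_lt_iff₀ (by positivity), div_pow, div_mul_eq_mul_div, lt_div_iff₀ (by positivity)] at hm
  set n := 2 * m with hn
  set f : List Bool → ℝ := fun τ => ‖dbr a τ (zz q)‖ ^ p with hf
  set J0 := (words n).image (fun σ => cl (σ ++ t0 k)) with hJ0
  set J1 := (words n).image (fun σ => cl (σ ++ t1 k)) with hJ1
  set J2 := (words n).image (fun σ => cl (σ ++ t2 k)) with hJ2
  have hlen0 : (t0 k).length = k + 4 := by simp [t0, pl]
  have hlen1 : (t1 k).length = k + 4 := by simp [t1, pl]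
  have hlen2 : (t2 k).length = k + 4 := by simp [t2, pl]
  have hinj : ∀ t : List Bool, Set.InjOn (fun σ => cl (σ ++ t)) (words n : Set (List Bool)) := by
    intro t σ hσ σ' hσ' h
    exact (cl_inj (mem_words hσ) (mem_words hσ') h).1
  have d01 : Disjoint J0 J1 := by
    rw [Finset.disjoint_left]
    intro x h1 h2
    simp only [hJ0, hJ1, Finset.mem_image] at h1 h2
    obtain ⟨σ, h3, rfl⟩ := h1
    obtain ⟨σ', h4, h5⟩ := h2
    obtain ⟨-, s, s', h6⟩ := cl_inj (mem_words h4) (mem_words h3) h5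
    simp [t0, t1] at h6
  have d02 : Disjoint J0 J2 := by
    rw [Finset.disjoint_left]
    intro x h1 h2
    simp only [hJ0, hJ2, Finset.mem_image] at h1 h2
    obtain ⟨σ, h3, rfl⟩ := h1
    obtain ⟨σ', h4, h5⟩ := h2
    obtain ⟨-, s, s', h6⟩ := cl_inj (mem_words h4) (mem_words h3) h5
    simp [t0, t2, pl, List.replicate_succ] at h6
  have d12 : Disjoint J1 J2 := by
    rw [Finset.disjoint_left]
    intro x h1 h2
    simp only [hJ1, hJ2, Finset.mem_image] at h1 h2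
    obtain ⟨σ, h3, rfl⟩ := h1
    obtain ⟨σ', h4, h5⟩ := h2
    obtain ⟨-, s, s', h6⟩ := cl_inj (mem_words h4) (mem_words h3) h5
    simp [t1, t2] at h6
  have hclen : ∀ σ t : List Bool, σ.length = n → t.length = k + 4 →
      (cl (σ ++ t)).length = n + (k + 5) := by
    intro σ t h1 h2
    rw [cl_app]; simp [h1, h2]; try ring
  have hmapt : ∀ σ t t' : List Bool, ∀ j : ℕ, k ≤ j → t = t' ++ (pl j ++ [false]) →
      ∀ z ∈ ball (zz q) q, br a (cl (σ ++ t)) z ∈ ball (zz q) (1 / 40) := by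
    intro σ t t' j hj ht z hz
    obtain ⟨h1, h2⟩ := ball_Dm P hz
    have h3 := land P j (σ ++ t') h1 h2
    rw [ht, ← List.append_assoc, mem_ball, dist_eq_norm]
    refine lt_of_le_of_lt h3 ?_
    rw [div_lt_iff₀ (by linarith)]
    have h4 : 5 / β ^ (j + 1) ≤ 5 / β ^ (k + 1) := by
      apply div_le_div_of_nonneg_left (by norm_num) (by positivity)
      exact pow_le_pow_right₀ hβ0.le (by omega)
    nlinarith
  refine ⟨n + (k + 5), by omega, J0 ∪ J1 ∪ J2, ?_, ?_, ?_⟩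
  · intro τ hτ
    simp only [hJ0, hJ1, hJ2, Finset.mem_union, Finset.mem_image] at hτ
    rcases hτ with (⟨σ, h1, rfl⟩ | ⟨σ, h1, rfl⟩) | ⟨σ, h1, rfl⟩
    · exact hclen σ _ (mem_words h1) hlen0
    · exact hclen σ _ (mem_words h1) hlen1
    · exact hclen σ _ (mem_words h1) hlen2
  · intro τ hτ
    simp only [hJ0, hJ1, hJ2, Finset.mem_union, Finset.mem_image] at hτ
    rcases hτ with (⟨σ, h1, rfl⟩ | ⟨σ, h1, rfl⟩) | ⟨σ, h1, rfl⟩
    · exact hmapt σ (t0 k) [true] (k + 2) (by omega) rfl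
    · exact hmapt σ (t1 k) [false] (k + 2) (by omega) rfl
    · exact hmapt σ (t2 k) [true, false] (k + 1) (by omega) rfl
  · have hsum : ∑ τ ∈ J0 ∪ J1 ∪ J2, f τ = ∑ σ ∈ words n,
        (f (cl (σ ++ t0 k)) + f (cl (σ ++ t1 k)) + f (cl (σ ++ t2 k))) := by
      rw [Finset.sum_union (by rw [Finset.disjoint_union_left]; exact ⟨d02, d12⟩),
        Finset.sum_union d01, hJ0, hJ1, hJ2, Finset.sum_image (hinj _), Finset.sum_image (hinj _),
        Finset.sum_image (hinj _), Finset.sum_add_distrib, Finset.sum_add_distrib]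
    rw [hsum]
    have hterm : ∀ σ ∈ words n, c * (‖dbr a σ (zz q)‖ ^ p * wt a b p (br a σ (zz q))) ≤
        f (cl (σ ++ t0 k)) + f (cl (σ ++ t1 k)) + f (cl (σ ++ t2 k)) := by
      intro σ _
      have h1 : ∀ t : List Bool, f (cl (σ ++ t)) = ‖dbr a σ (zz q)‖ ^ p *
          ‖dbr a (t ++ [decide (0 < sgr (σ ++ t))]) (br a σ (zz q))‖ ^ p := by
        intro t
        simp only [hf]
        rw [cl_app, dbr_append, norm_mul, Real.mul_rpow (norm_nonneg _) (norm_nonneg _), mul_comm]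
      rw [h1, h1, h1, ← mul_add, ← mul_add]
      have h2 := hret _ (br_Dm P σ hzD) (decide (0 < sgr (σ ++ t0 k)))
        (decide (0 < sgr (σ ++ t1 k))) (decide (0 < sgr (σ ++ t2 k)))
      calc _ = ‖dbr a σ (zz q)‖ ^ p * (c * wt a b p (br a σ (zz q))) := by ring
        _ ≤ _ := mul_le_mul_of_nonneg_left h2 (by positivity)
    refine le_trans ?_ (Finset.sum_le_sum hterm)
    rw [← Finset.mul_sum, sum_words_eq]
    have hgr := growth P p m _ hzD
    rw [hGH]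
    calc Λ * (G * H) ^ (n + (k + 5)) = (Λ * (G * H) ^ (k + 5) * (H ^ 2) ^ m) * G ^ n := by
          rw [pow_add, mul_pow G H n, hn, pow_mul H 2 m]; ring
      _ ≤ (Real.cosh (p / 5) ^ m * (c * wt a b p (zz q))) * G ^ n := by gcongr
      _ = c * (G ^ (2 * m) * Real.cosh (p / 5) ^ m * wt a b p (zz q)) := by rw [hn]; ring
      _ ≤ _ := mul_le_mul_of_nonneg_left hgr hc.le

end Pool.Agent.TH363.IM
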