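import Pool.Agent.TH653.MB.A12
import Pool.Agent.Helper610.Bohr.Basic

/-!
# Monotonicity of the integral means of the derivative of the exterior map
-/

set_option autoImplicit false

open Set Metric Filter Topology Complex MeasureTheory N62a1eb23

namespace Pool.Agent.TH363.IM

open Pool.Agent.H713R2 Pool.Agent.TH653.MB Pool.Agent.Helper610.Bohr

/-- the integral mean -/
noncomputable def mm (ψ : ℂ → ℂ) (p r : ℝ) : ℝ :=
  (2 * Real.pi)⁻¹ * ∫ θ in (0 : ℝ)..2 * Real.pi, ‖deriv ψ (r * exp (θ * I))‖ ^ p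

theorem mean_facts {ψ : ℂ → ℂ} (hψ : IsExteriorMap (multibrotSet 2) ψ) (p : ℝ) :
    (∀ r1 r2 : ℝ, 1 < r1 → r1 ≤ r2 → mm ψ p r2 ≤ mm ψ p r1) ∧ (∀ r : ℝ, 1 < r → 1 ≤ mm ψ p r) ∧
      ∀ r : ℝ, 1 < r → Continuous (fun θ : ℝ => ‖deriv ψ (r * exp (θ * I))‖ ^ p) := by
  obtain ⟨β, hβ⟩ := exists_beta (d := 2) le_rfl
  obtain ⟨B, hB1, hB2, hB3, -⟩ := Pool.Agent.TH653.MB.exists_log hβ
  set K : ℂ → ℂ := fun x => exp ((p / 2 : ℝ) * B x) with hK
  have hKd : DifferentiableOn ℂ K (ball 0 1) := (hB1.const_mul _).cexp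
  have hnorm : ∀ r : ℝ, 1 < r → ∀ θ : ℝ, ‖(r : ℂ) * exp (θ * I)‖ = r := by
    intro r hr θ
    rw [norm_mul, norm_exp_ofReal_mul_I, mul_one, norm_real, Real.norm_eq_abs,
      abs_of_pos (by linarith)]
  have hptb : ∀ r : ℝ, 1 < r → ∀ θ : ℝ, pt r⁻¹ θ ∈ ball (0 : ℂ) 1 := by
    intro r hr θ
    rw [mem_ball_zero_iff, norm_pt (by positivity)]
    exact inv_lt_one_of_one_lt₀ hr
  have hinv : ∀ r : ℝ, 1 < r → ∀ θ : ℝ, ((r : ℂ) * exp (θ * I))⁻¹ = pt r⁻¹ (-θ) := by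
    intro r hr θ
    rw [pt, mul_inv, ← exp_neg]
    push_cast
    congr 2; ring
  have hval : ∀ r : ℝ, 1 < r → ∀ θ : ℝ, ‖deriv ψ (r * exp (θ * I))‖ ^ p =
      ‖K (pt r⁻¹ (-θ))‖ ^ 2 := by
    intro r hr θ
    have h1 : 1 < ‖(r : ℂ) * exp (θ * I)‖ := by rw [hnorm r hr]; exact hr
    rw [(hasDerivAt_psi hβ hψ h1).deriv, hinv r hr, ← hB3 _ (hptb r hr (-θ)), hK]
    simp only [norm_exp]
    rw [← Real.exp_mul, ← Real.exp_nat_mul, re_ofReal_mul]
    congr 1; push_cast; ring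
  have hmm : ∀ r : ℝ, 1 < r → mm ψ p r =
      (2 * Real.pi)⁻¹ * ∫ θ in (0 : ℝ)..2 * Real.pi, ‖K (pt r⁻¹ θ)‖ ^ 2 := by
    intro r hr
    rw [mm]
    congr 1
    simp only [hval r hr]
    rw [intervalIntegral.integral_comp_neg (fun θ => ‖K (pt r⁻¹ θ)‖ ^ 2)]
    have hper : Function.Periodic (fun θ : ℝ => ‖K (pt r⁻¹ θ)‖ ^ 2) (2 * Real.pi) := by
      intro θ
      have : pt r⁻¹ (θ + 2 * Real.pi) = pt r⁻¹ θ := by
        unfold pt
        push_cast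
        rw [add_mul, exp_add, exp_two_pi_mul_I, mul_one]
      simp only [this]
    have h3 := hper.intervalIntegral_add_eq (-(2 * Real.pi)) 0
    rw [neg_add_cancel, zero_add] at h3
    rw [neg_zero, h3]
  have hsum : ∀ r : ℝ, 1 < r → HasSum (fun n => ‖coeff K n‖ ^ 2 * r⁻¹ ^ (2 * n)) (mm ψ p r) := by
    intro r hr
    rw [hmm r hr]
    exact (PS.of_diff hKd).parseval hKd (by positivity) (inv_lt_one_of_one_lt₀ hr)
  refine ⟨?_, ?_, ?_⟩
  · intro r1 r2 h1 h12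
    refine hasSum_le (fun n => ?_) (hsum r2 (by linarith)) (hsum r1 h1)
    have : r2⁻¹ ≤ r1⁻¹ := inv_anti₀ (by linarith) h12
    have : 0 ≤ r2⁻¹ := inv_nonneg.2 (by linarith)
    gcongr
  · intro r hr
    have h1 := (hsum r hr).summable.le_tsum 0 (fun n _ => by positivity)
    rw [(hsum r hr).tsum_eq] at h1
    have h2 : coeff K 0 = 1 := by
      simp [coeff, hK, hB2]
    rw [h2] at h1
    simpa using h1
  · intro r hr
    simp only [hval r hr]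
    have h1 : Continuous (fun θ : ℝ => K (pt r⁻¹ (-θ))) := by
      refine hKd.continuousOn.comp_continuous ?_ (fun θ => hptb r hr (-θ))
      exact (continuous_pt r⁻¹).comp continuous_neg
    exact h1.norm.pow 2

end Pool.Agent.TH363.IM
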