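import Pool.Agent.TH363.IM.Leaf
import Pool.Agent.TH363.IM.Area
import Pool.Agent.TH363.IM.Mean

/-!
# Power growth of the integral means
-/

set_option autoImplicit false

open Set Metric Filter Topology Complex MeasureTheory N62a1eb23

namespace Pool.Agent.TH363.IM

open Pool.Agent.H713R2

/-- growth along a sequence of radii -/
theorem radii {ψ : ℂ → ℂ} (hψ : IsExteriorMap (multibrotSet 2) ψ) {p : ℝ} (hp : p ≠ 0) {ε : ℝ}
    (hε : (2 : ℝ) ^ (2 * ε) < Real.cosh (p / 5)) :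
    ∃ (N n1 : ℕ) (C g : ℝ), 1 ≤ N ∧ 0 < C ∧ 0 < g ∧ ∀ k : ℕ,
      C * ((2 : ℝ) ^ (n1 + k * N)) ^ ε ≤ mm ψ p (Real.exp (g / 2 ^ (n1 + k * N))) := by
  obtain ⟨a, b, β, q, P⟩ := exists_par
  obtain ⟨δ', η, c0, g', hδ', hη, hc0, hg', hleaf⟩ := leaf P hψ p
  obtain ⟨N, hN, n1, S0, δ, hS0, hδ, hδδ', htree⟩ := tree P hp hε hδ'
  obtain ⟨hmono, hone, hcont⟩ := mean_facts hψ p
  have hpi := Real.pi_pos
  refine ⟨N, n1, η ^ 2 * c0 / (8 * Real.exp 8) * S0 * ((2 : ℝ) ^ n1) ^ (p - 1 - ε), g' / 2, hN,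
    by positivity, by positivity, fun k => ?_⟩
  obtain ⟨ι, hι, Q, m, hQd, hQ, hm, hdis, hS⟩ := htree k
  set n := n1 + k * N with hn
  have h2n : (0 : ℝ) < 2 ^ n := by positivity
  have h2n1 : (1 : ℝ) ≤ 2 ^ n := one_le_pow₀ (by norm_num)
  have hball : ball (a : ℂ) (δ / 4) ⊆ ball (a : ℂ) δ' := ball_subset_ball (by linarith)
  have hl := fun i => hleaf n (Q i) (m i) (hQd i) (fun z hz => by
    obtain ⟨h1, h2, -, h4, h5⟩ := hQ i z hz
    exact ⟨hball h1, h2, h4, h5⟩)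
  choose ζ hζ using hl
  set r1 : ℝ := Real.exp (g' / 2 / 2 ^ n) with hr1
  set r2 : ℝ := Real.exp (4 / 2 ^ n) with hr2
  have hgn : 0 < g' / 2 ^ n := by positivity
  have hr11 : 1 < r1 := by rw [hr1]; apply Real.one_lt_exp_iff.2; positivity
  have hηn : 0 < η / 2 ^ n := by positivity
  -- the annulus is nonempty
  have hsub : ∀ i, ball (ζ i) (η / 2 ^ n) ⊆ {z | r1 < ‖z‖ ∧ ‖z‖ < r2} := by
    intro i v hv
    obtain ⟨h1, -, h3, h4, -⟩ := hζ i v hv
    have hv0 : 0 < ‖v‖ := by linarith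
    constructor
    · rw [hr1, ← Real.lt_log_iff_exp_lt hv0]
      have : g' / 2 / 2 ^ n = (g' / 2 ^ n) / 2 := by ring
      linarith
    · rw [hr2, ← Real.log_lt_iff_lt_exp hv0]
      have : (3 : ℝ) / 2 ^ n < 4 / 2 ^ n := by gcongr; norm_num
      linarith
  have hdis' : Pairwise (Function.onFun Disjoint fun i => ball (ζ i) (η / 2 ^ n)) := by
    intro i j hij
    rw [Function.onFun, Set.disjoint_left]
    intro v hv hv'
    obtain ⟨-, ⟨z, hz, e1⟩, -⟩ := hζ i v hv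
    obtain ⟨-, ⟨z', hz', e2⟩, -⟩ := hζ j v hv'
    exact hij (hdis i j z hz z' hz' (e1.trans e2.symm))
  -- there is an index
  have hne : Nonempty ι := by
    by_contra hcon
    rw [not_nonempty_iff] at hcon
    rw [Finset.univ_eq_empty, Finset.sum_empty] at hS
    have : 0 < S0 * ((2 ^ (1 - p + ε)) ^ N) ^ k := by positivity
    linarith
  obtain ⟨i0⟩ := hne
  have hr12 : r1 < r2 := by
    have h1 := hsub i0 (mem_ball_self hηn)
    exact h1.1.trans h1.2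
  have key := area_bound (F := fun z => ‖deriv ψ z‖ ^ p) (fun z => by positivity)
    (S := 2 * Real.pi * mm ψ p r1) (by linarith : 0 < r1) hr12 hηn
    (fun r hr => ⟨hcont r (by linarith [hr.1]), by
      have h1 := hmono r1 r hr11 hr.1.le
      have h2 : ∫ θ in (0 : ℝ)..2 * Real.pi, ‖deriv ψ (r * exp (θ * I))‖ ^ p =
          2 * Real.pi * mm ψ p r := by
        rw [mm, ← mul_assoc, mul_inv_cancel₀ (by positivity), one_mul]
      rw [h2]
      gcongr⟩) ζ (fun i => c0 * (2 ^ n) ^ p * m i) (fun i => by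
        have := (hm i).le
        positivity) hdis' hsub (fun i z hz => (hζ i z hz).2.2.2.2)
  rw [← Finset.mul_sum] at key
  have hmm1 : 1 ≤ mm ψ p r1 := hone r1 hr11
  have hr2e : r2 ≤ Real.exp 4 := Real.exp_le_exp.2 (div_le_self (by norm_num) h2n1)
  have hr20 : 0 < r2 := Real.exp_pos _
  have hr2r1 : r2 - r1 ≤ 4 / 2 ^ n * Real.exp 4 := by
    have h1 : r2 - 1 ≤ 4 / 2 ^ n * r2 := by
      have h2 := Real.add_one_le_exp (-(4 / 2 ^ n : ℝ))
      rw [Real.exp_neg, ← hr2] at h2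
      have h3 : (-(4 / 2 ^ n : ℝ) + 1) * r2 ≤ r2⁻¹ * r2 := by gcongr
      rw [inv_mul_cancel₀ hr20.ne'] at h3
      linarith
    have h4 : 4 / 2 ^ n * r2 ≤ 4 / 2 ^ n * Real.exp 4 := by gcongr
    linarith
  have hright : (r2 - r1) * (r2 * (2 * Real.pi * mm ψ p r1)) ≤
      (4 / 2 ^ n * Real.exp 4) * (Real.exp 4 * (2 * Real.pi * mm ψ p r1)) := by
    have : 0 < r2 - r1 := by linarith
    gcongr
  have hkey := key.trans hright
  have hkey2 : η ^ 2 * c0 / (8 * Real.exp 8) * ((2 ^ n) ^ p / 2 ^ n * ∑ i, m i) ≤ mm ψ p r1 := by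
    have e8 : Real.exp 8 = Real.exp 4 * Real.exp 4 := by rw [← Real.exp_add]; norm_num
    rw [e8]
    have h1 : Real.pi * (η / 2 ^ n) ^ 2 * (c0 * (2 ^ n) ^ p * ∑ i, m i) =
        (8 * Real.pi * (Real.exp 4 * Real.exp 4) / 2 ^ n) *
          (η ^ 2 * c0 / (8 * (Real.exp 4 * Real.exp 4)) * ((2 ^ n) ^ p / 2 ^ n * ∑ i, m i)) := by
      field_simp
    have h2 : (4 / 2 ^ n * Real.exp 4) * (Real.exp 4 * (2 * Real.pi * mm ψ p r1)) =
        (8 * Real.pi * (Real.exp 4 * Real.exp 4) / 2 ^ n) * mm ψ p r1 := by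
      field_simp; norm_num
    rw [h1, h2] at hkey
    exact le_of_mul_le_mul_left hkey (by positivity)
  refine le_trans ?_ hkey2
  -- the exponents
  have hpow : (2 ^ n : ℝ) ^ p / 2 ^ n * ((2 ^ (1 - p + ε)) ^ N) ^ k =
      ((2 : ℝ) ^ n1) ^ (p - 1 - ε) * ((2 : ℝ) ^ n) ^ ε := by
    have e1 : ∀ j : ℕ, ∀ x : ℝ, ((2 : ℝ) ^ j) ^ x = 2 ^ ((j : ℝ) * x) := by
      intro j x
      rw [← Real.rpow_natCast, ← Real.rpow_mul (by norm_num)]
    have e2 : ((2 : ℝ) ^ n) = 2 ^ (n : ℝ) := (Real.rpow_natCast _ _).symm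
    have e3 : (((2 : ℝ) ^ (1 - p + ε)) ^ N) ^ k = 2 ^ ((1 - p + ε) * (N * k : ℕ)) := by
      rw [← pow_mul, ← Real.rpow_natCast, ← Real.rpow_mul (by norm_num)]
    rw [e1, e1, e1, e3, e2, ← Real.rpow_sub (by norm_num), ← Real.rpow_add (by norm_num),
      ← Real.rpow_add (by norm_num)]
    congr 1
    rw [hn]; push_cast; ring
  calc η ^ 2 * c0 / (8 * Real.exp 8) * S0 * ((2 : ℝ) ^ n1) ^ (p - 1 - ε) * (2 ^ n) ^ ε
      = η ^ 2 * c0 / (8 * Real.exp 8) * (S0 * (((2 : ℝ) ^ n1) ^ (p - 1 - ε) * (2 ^ n) ^ ε)) := by ring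
    _ = η ^ 2 * c0 / (8 * Real.exp 8) * ((2 ^ n) ^ p / 2 ^ n *
        (S0 * ((2 ^ (1 - p + ε)) ^ N) ^ k)) := by rw [← hpow]; ring
    _ ≤ _ := by gcongr

theorem growth_means {ψ : ℂ → ℂ} (hψ : IsExteriorMap (multibrotSet 2) ψ) {p : ℝ} (hp : p ≠ 0)
    {ε : ℝ} (hε : (2 : ℝ) ^ (2 * ε) < Real.cosh (p / 5)) :
    ∃ c : ℝ, 0 < c ∧ ∀ r : ℝ, 1 < r → r < 2 → c * (r - 1) ^ (-ε) ≤ mm ψ p r := by
  obtain ⟨hmono, hone, -⟩ := mean_facts hψ p
  rcases le_or_gt ε 0 with hε0 | hε0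
  · refine ⟨1, one_pos, fun r h1 h2 => ?_⟩
    rw [one_mul]
    exact (Real.rpow_le_one (by linarith) (by linarith) (by linarith)).trans (hone r h1)
  obtain ⟨N, n1, C, g, hN, hC, hg, hrad⟩ := radii hψ hp hε
  set L : ℝ := g / 2 ^ n1 with hL
  have hL0 : 0 < L := by positivity
  set c1 : ℝ := C * (g / 2 ^ N) ^ ε with hc1
  have hc10 : 0 < c1 := by positivity
  refine ⟨min (L ^ ε) c1, lt_min (by positivity) hc10, fun r h1 h2 => ?_⟩
  have hr1 : 0 < r - 1 := by linarith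
  have hlog : 0 < Real.log r := Real.log_pos h1
  have hlogr : Real.log r ≤ r - 1 := Real.log_le_sub_one_of_pos (by linarith)
  have hrp : 0 < (r - 1) ^ (-ε) := by positivity
  rcases le_or_gt (Real.log r) L with hcase | hcase
  · -- there is a good radius
    have hX : 1 ≤ L / Real.log r := by rw [one_le_div hlog]; exact hcase
    have hy : (1 : ℝ) < 2 ^ N := one_lt_pow₀ (by norm_num) (by omega)
    obtain ⟨k, hk1, hk2⟩ := exists_nat_pow_near hX hy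
    have e1 : ((2 : ℝ) ^ N) ^ k = 2 ^ (k * N) := by rw [← pow_mul, mul_comm]
    have hle : r ≤ Real.exp (g / 2 ^ (n1 + k * N)) := by
      rw [← Real.log_le_iff_le_exp (by linarith)]
      rw [e1, le_div_iff₀ hlog, hL, le_div_iff₀ (by positivity)] at hk1
      rw [le_div_iff₀ (by positivity), pow_add]
      linarith
    have h3 := hmono r _ h1 hle
    have h4 := hrad k
    have h5 : (g / 2 ^ N / (r - 1)) ≤ 2 ^ (n1 + k * N) := by
      rw [pow_succ, e1, div_lt_iff₀ hlog, hL, div_lt_iff₀ (by positivity)] at hk2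
      rw [div_div, div_le_iff₀ (by positivity), pow_add]
      have h6 : g ≤ (2 ^ (k * N) * 2 ^ N * (r - 1)) * 2 ^ n1 := by
        refine hk2.le.trans ?_
        gcongr
      linarith
    calc min (L ^ ε) c1 * (r - 1) ^ (-ε) ≤ c1 * (r - 1) ^ (-ε) := by
          gcongr; exact min_le_right _ _
      _ = C * (g / 2 ^ N / (r - 1)) ^ ε := by
          rw [Real.div_rpow (by positivity) hr1.le, Real.rpow_neg hr1.le, hc1]; ring
      _ ≤ C * (2 ^ (n1 + k * N)) ^ ε := by gcongr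
      _ ≤ _ := h4.trans h3
  · have h3 : L ≤ r - 1 := by linarith
    calc min (L ^ ε) c1 * (r - 1) ^ (-ε) ≤ L ^ ε * (r - 1) ^ (-ε) := by
          gcongr; exact min_le_left _ _
      _ ≤ (r - 1) ^ ε * (r - 1) ^ (-ε) := by gcongr
      _ = 1 := by rw [← Real.rpow_add hr1]; simp
      _ ≤ _ := hone r h1

end Pool.Agent.TH363.IM
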