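import Pool.Agent.TH363.IM.Tree
import Pool.Agent.TH653.MB.A1

/-!
# The escape rate near the band merging parameter
-/

set_option autoImplicit false

open Set Metric Filter Topology Complex N62a1eb23

namespace Pool.Agent.TH363.IM

open Pool.Agent.H713R2 Pool.Agent.H713R2.AR

theorem fc_eq (c : ℂ) : fc c = Pool.Agent.H712R2.fc 2 c := rfl

theorem green_iter (c z : ℂ) (n : ℕ) : green 2 c ((fc c)^[n] z) = 2 ^ n * green 2 c z := by
  have h1 := gap_tendsto (d := 2) le_rfl c ((fc c)^[n] z)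
  have h2 : Tendsto (fun N => (2 : ℝ) ^ n * gap 2 c z (N + n)) atTop
      (𝓝 (2 ^ n * green 2 c z)) :=
    ((gap_tendsto (d := 2) le_rfl c z).comp (tendsto_add_atTop_nat n)).const_mul _
  refine tendsto_nhds_unique h1 (h2.congr fun N => ?_)
  unfold gap
  rw [← fc_eq, Function.iterate_add_apply]
  push_cast
  rw [pow_add]
  field_simp

theorem green_psi {β : ℂ → ℂ} (hβ : IsBeta 2 β) {z : ℂ} (hz : 1 < ‖z‖) :
    green 2 (z * β z⁻¹) (z * β z⁻¹) = Real.log ‖z‖ := by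
  obtain ⟨h1, h2⟩ := inv_mem_ball hz
  have hz0 : 0 < ‖z‖ := by linarith
  have hlog : 0 ≤ Real.log ‖z‖ := Real.log_nonneg hz.le
  -- `BB` tends to one
  have hx1 : ‖z⁻¹‖ < 1 := mem_ball_zero_iff.1 h1
  have hB : Tendsto (fun n => 3 * ‖z⁻¹‖ ^ (2 ^ (n + 1) - 1)) atTop (𝓝 (3 * 0)) := by
    apply Tendsto.const_mul
    apply (tendsto_pow_atTop_nhds_zero_of_lt_one (norm_nonneg _) hx1).comp
    have : Tendsto (fun n : ℕ => n) atTop atTop := tendsto_id
    refine tendsto_atTop_mono (fun n => ?_) this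
    have : n + 1 < 2 ^ (n + 1) := Nat.lt_two_pow_self
    omega
  rw [mul_zero] at hB
  have hev : ∀ᶠ n : ℕ in atTop, 1 / 2 ≤ ‖BB 2 β n z⁻¹‖ := by
    filter_upwards [hB.eventually (gt_mem_nhds (show (0 : ℝ) < 1 / 2 by norm_num))] with n hn
    have h3 := Pool.Agent.TH653.MB.BB_sub_one_le (d := 2) le_rfl hβ n h1
    have h4 : ‖(1 : ℂ)‖ ≤ ‖BB 2 β n z⁻¹‖ + ‖BB 2 β n z⁻¹ - 1‖ := by
      have := norm_sub_le (BB 2 β n z⁻¹) (BB 2 β n z⁻¹ - 1)
      rwa [sub_sub_cancel] at this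
    rw [norm_one] at h4
    linarith
  refine tendsto_nhds_unique (gap_tendsto (d := 2) le_rfl _ _) ?_
  have hlim : Tendsto (fun n : ℕ => Real.log ‖z‖ + Real.log ‖BB 2 β n z⁻¹‖ / 2 ^ n) atTop
      (𝓝 (Real.log ‖z‖ + 0)) := by
    apply Tendsto.const_add
    have h2n : Tendsto (fun n : ℕ => (2 : ℝ) ^ n) atTop atTop :=
      tendsto_pow_atTop_atTop_of_one_lt (by norm_num)
    apply squeeze_zero_norm' (a := fun n : ℕ => Real.log 2 / (2 : ℝ) ^ n)
    · filter_upwards [hev] with n hn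
      rw [Real.norm_eq_abs, abs_div, abs_of_pos (by positivity : (0:ℝ) < 2 ^ n)]
      apply div_le_div_of_nonneg_right _ (by positivity)
      rw [abs_le]
      constructor
      · rw [← Real.log_inv]
        exact Real.log_le_log (by norm_num) (by linarith)
      · exact Real.log_le_log (by linarith) (BB_le_two le_rfl hβ n h1)
    · exact h2n.const_div_atTop _
  rw [add_zero] at hlim
  have hlarge : ∀ᶠ n : ℕ in atTop, Real.log 2 ≤ 2 ^ n * Real.log ‖z‖ := by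
    have h2n : Tendsto (fun n : ℕ => (2 : ℝ) ^ n * Real.log ‖z‖) atTop atTop :=
      (tendsto_pow_atTop_atTop_of_one_lt (by norm_num)).atTop_mul_const (Real.log_pos hz)
    exact h2n.eventually_ge_atTop _
  refine hlim.congr' ?_
  filter_upwards [hev, hlarge] with n hn hl
  unfold gap
  rw [Pool.Agent.H712R2.iter_c le_rfl]
  have h3 := BB_eq le_rfl β n z⁻¹ h2
  rw [inv_inv] at h3
  have hb0 : 0 < ‖BB 2 β n z⁻¹‖ := by linarith
  have hP : ‖Pool.Agent.H712R2.P 2 (n + 1) (z * β z⁻¹)‖ = ‖z‖ ^ (2 ^ n) * ‖BB 2 β n z⁻¹‖ := by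
    rw [h3, norm_mul, norm_pow, norm_inv, inv_pow]
    field_simp
  have hlogP : Real.log ‖Pool.Agent.H712R2.P 2 (n + 1) (z * β z⁻¹)‖ =
      2 ^ n * Real.log ‖z‖ + Real.log ‖BB 2 β n z⁻¹‖ := by
    rw [hP, Real.log_mul (by positivity) hb0.ne', Real.log_pow]
    push_cast; ring
  have hge : 0 ≤ Real.log ‖Pool.Agent.H712R2.P 2 (n + 1) (z * β z⁻¹)‖ := by
    rw [hlogP]
    have : -Real.log 2 ≤ Real.log ‖BB 2 β n z⁻¹‖ := by
      rw [← Real.log_inv]
      exact Real.log_le_log (by norm_num) (by linarith)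
    linarith
  have hpl : Real.posLog ‖Pool.Agent.H712R2.P 2 (n + 1) (z * β z⁻¹)‖ =
      Real.log ‖Pool.Agent.H712R2.P 2 (n + 1) (z * β z⁻¹)‖ := max_eq_right hge
  rw [hpl, hlogP]
  push_cast
  field_simp

theorem green_mandel {c : ℂ} (hc : c ∈ multibrotSet 2) : green 2 c c = 0 := by
  refine tendsto_nhds_unique (gap_tendsto (d := 2) le_rfl _ _) ?_
  have h2n : Tendsto (fun n : ℕ => (2 : ℝ) ^ n) atTop atTop :=
    tendsto_pow_atTop_atTop_of_one_lt (by norm_num)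
  apply squeeze_zero' (g := fun n : ℕ => Real.log 2 / (2 : ℝ) ^ n)
  · refine Filter.Eventually.of_forall fun n => ?_
    unfold gap
    exact div_nonneg Real.posLog_nonneg (by positivity)
  · refine Filter.Eventually.of_forall fun n => ?_
    unfold gap
    push_cast
    apply div_le_div_of_nonneg_right _ (by positivity)
    rw [Pool.Agent.H712R2.iter_c le_rfl]
    have h1 := (Pool.Agent.H712R2.mem_multibrot_iff le_rfl c).mp hc (n + 1)
    refine (Real.posLog_le_posLog (norm_nonneg _) h1).trans (le_of_eq ?_)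
    rw [Real.posLog_eq_log]
    rw [abs_of_pos (by norm_num)]; norm_num
  · exact h2n.const_div_atTop _

theorem green_le_of {c z : ℂ} (hc : ‖c‖ ≤ 2) (k : ℕ) (h : ‖(fc c)^[k] z‖ ≤ 3) :
    green 2 c z ≤ 3 / 2 ^ k := by
  have h1 := (abs_le.1 (green_near (d := 2) le_rfl (A := 2) (by norm_num) hc z k)).2
  have h2 : gap 2 c z k ≤ Real.log 3 / 2 ^ k := by
    unfold gap
    push_cast
    apply div_le_div_of_nonneg_right _ (by positivity)
    refine (Real.posLog_le_posLog (norm_nonneg _) h).trans (le_of_eq ?_)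
    rw [Real.posLog_eq_log]
    rw [abs_of_pos (by norm_num)]; norm_num
  push_cast at h1
  have h3 : Real.log 3 + Real.log (2 * 2) ≤ 3 := by
    rw [← Real.log_mul (by norm_num) (by norm_num)]
    have h4 : (3 : ℝ) * (2 * 2) ≤ Real.exp 3 := by
      have := Real.exp_one_gt_d9
      have h5 : Real.exp 3 = Real.exp 1 ^ 3 := by rw [← Real.exp_nat_mul]; norm_num
      rw [h5]
      have h6 : (2.7 : ℝ) ^ 3 ≤ Real.exp 1 ^ 3 := by gcongr; linarith
      norm_num at h6 ⊢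
      linarith
    calc Real.log (3 * (2 * 2)) ≤ Real.log (Real.exp 3) := Real.log_le_log (by norm_num) h4
      _ = 3 := Real.log_exp 3
  have h5 : Real.log 3 / 2 ^ k + Real.log (2 * 2) / 2 ^ k ≤ 3 / 2 ^ k := by
    rw [← add_div]
    exact div_le_div_of_nonneg_right h3 (by positivity)
  linarith

theorem green_ge_of {c z : ℂ} (hc : ‖c‖ ≤ 2) (k : ℕ) (h : 8 ≤ ‖(fc c)^[k] z‖) :
    Real.log 2 / 2 ^ k ≤ green 2 c z := by
  have h1 := (abs_le.1 (green_near (d := 2) le_rfl (A := 2) (by norm_num) hc z k)).1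
  have h2 : Real.log 8 / 2 ^ k ≤ gap 2 c z k := by
    unfold gap
    push_cast
    apply div_le_div_of_nonneg_right _ (by positivity)
    exact (Real.log_le_log (by norm_num) h).trans (log_le_posLog' _)
  push_cast at h1
  have h3 : Real.log 8 = Real.log 2 + Real.log (2 * 2) := by
    rw [← Real.log_mul (by norm_num) (by norm_num)]; norm_num
  rw [h3, add_div] at h2
  linarith

theorem grow_a {a b β q : ℝ} (P : Par a b β q) {η : ℝ} (hη : 0 ≤ η) {w : ℂ}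
    (h : β + η ≤ ‖w‖) (k : ℕ) : β + 3 ^ k * η ≤ ‖(fc a)^[k] w‖ := by
  have hβ := P.β1
  induction k with
  | zero => simpa using h
  | succ k ih =>
    rw [Function.iterate_succ_apply']
    set x := (fc a)^[k] w
    have h1 : ‖x‖ ^ 2 ≤ ‖fc a x‖ + (-a) := by
      have h2 : x ^ 2 = fc a x - a := by rw [fc]; ring
      have ha := P.a2
      calc ‖x‖ ^ 2 = ‖fc a x - a‖ := by rw [← norm_pow, h2]
        _ ≤ ‖fc a x‖ + ‖(a : ℂ)‖ := norm_sub_le _ _
        _ = _ := by rw [norm_real, Real.norm_eq_abs, abs_of_neg (by linarith)]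
    have h3 : 0 ≤ 3 ^ k * η := by positivity
    have h4 : ‖x‖ ^ 2 - β ^ 2 = (‖x‖ - β) * (‖x‖ + β) := by ring
    have h5 := P.hβ
    have h6 : 3 * (3 ^ k * η) ≤ (‖x‖ - β) * (‖x‖ + β) := by nlinarith
    rw [pow_succ]
    nlinarith

theorem cont_iter (k : ℕ) : Continuous (fun x : ℂ × ℂ => (fc x.1)^[k] x.2) := by
  induction k with
  | zero => exact continuous_snd
  | succ k ih =>
    simp only [Function.iterate_succ_apply']
    exact (ih.pow 2).add continuous_fst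

theorem fix_iter {a b β q : ℝ} (P : Par a b β q) (k : ℕ) :
    (fc a)^[k + 2] (zz q) = β := by
  have h1 : fc a (zz q) = -β := zz_sq P
  have h2 : fc (a : ℂ) (-β : ℂ) = β := by
    have : (β : ℂ) ^ 2 + a = β := by exact_mod_cast congrArg (fun x : ℝ => (x : ℂ)) P.hβ
    rw [fc]; linear_combination this
  have h3 : fc (a : ℂ) (β : ℂ) = β := by
    have : (β : ℂ) ^ 2 + a = β := by exact_mod_cast congrArg (fun x : ℝ => (x : ℂ)) P.hβ
    rw [fc]; exact this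
  rw [Function.iterate_add_apply]
  have h4 : (fc (a : ℂ))^[2] (zz q) = β := by
    change fc a (fc a (zz q)) = β
    rw [h1, h2]
  rw [h4]
  exact Function.iterate_fixed h3 k

/-- The region used in the escape set. -/
theorem near_green {a b β q : ℝ} (P : Par a b β q) :
    ∃ t1 t2 ρ g g' δ' : ℝ, q < t1 ∧ t1 < t2 ∧ t2 = q + 1 / 20 ∧ 0 < ρ ∧ ρ ≤ 1 / 80 ∧ 0 < g ∧
      0 < g' ∧ 0 < δ' ∧ ∀ c ∈ ball (a : ℂ) δ', ‖c‖ ≤ 2 ∧
        (∀ t ∈ Icc t1 t2, ∀ z ∈ closedBall ((t : ℂ) * I) ρ, g' ≤ green 2 c z) ∧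
        green 2 c (t1 * I) ≤ g / 2 ∧ g ≤ green 2 c (t2 * I) := by
  have hq1 := P.q1
  have hq2 := P.q2
  have ha1 := P.a1
  have ha2 := P.a2
  have hβ1 := P.β1
  have hqq := P.hq
  set t2 : ℝ := q + 1 / 20 with ht2
  have hnormI : ∀ t : ℝ, ∀ s : ℂ, t ^ 2 - a - 2 * |t| * ‖s‖ - ‖s‖ ^ 2 ≤
      ‖fc a ((t : ℂ) * I + s)‖ := by
    intro t s
    have h1 : fc a ((t : ℂ) * I + s) = -(((t ^ 2 - a : ℝ) : ℂ)) + (2 * t * I * s + s ^ 2) := by
      rw [fc]; push_cast; linear_combination ((t : ℂ) ^ 2) * I_sq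
    have h2 : ‖(((t ^ 2 - a : ℝ) : ℂ))‖ ≤ ‖fc a ((t : ℂ) * I + s)‖ + ‖2 * t * I * s + s ^ 2‖ := by
      have e : (((t ^ 2 - a : ℝ) : ℂ)) = (2 * t * I * s + s ^ 2) - fc a ((t : ℂ) * I + s) := by
        rw [h1]; ring
      rw [e]
      exact (norm_sub_le _ _).trans (le_of_eq (add_comm _ _))
    have h3 : ‖2 * (t : ℂ) * I * s + s ^ 2‖ ≤ 2 * |t| * ‖s‖ + ‖s‖ ^ 2 := by
      refine (norm_add_le _ _).trans (le_of_eq ?_)
      rw [norm_mul, norm_mul, norm_mul, norm_I, norm_real, Real.norm_eq_abs, Complex.norm_two,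
        norm_pow]
      ring
    have h4 : t ^ 2 - a ≤ ‖(((t ^ 2 - a : ℝ) : ℂ))‖ := by
      rw [norm_real]; exact le_abs_self _
    linarith
  -- the constant `g`
  obtain ⟨k2, hk2⟩ : ∃ k2 : ℕ, 8 < ‖(fc (a : ℂ))^[k2 + 1] ((t2 : ℂ) * I)‖ := by
    obtain ⟨k, hk⟩ := pow_unbounded_of_one_lt (8 / (t2 ^ 2 - q ^ 2)) (show (1 : ℝ) < 3 by norm_num)
    have hpos : 0 < t2 ^ 2 - q ^ 2 := by rw [ht2]; nlinarith
    rw [div_lt_iff₀ hpos] at hk
    refine ⟨k, ?_⟩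
    have h1 := hnormI t2 0
    rw [norm_zero, add_zero] at h1
    have h2 : β + (t2 ^ 2 - q ^ 2) ≤ ‖fc (a : ℂ) ((t2 : ℂ) * I)‖ := by
      rw [hqq]; linarith
    have h3 := grow_a P hpos.le h2 k
    rw [Function.iterate_succ_apply]
    linarith
  set g : ℝ := Real.log 2 / 2 ^ (k2 + 1) with hg
  have hlog2 : 0 < Real.log 2 := Real.log_pos (by norm_num)
  have hg0 : 0 < g := by positivity
  -- the time `k1`
  obtain ⟨k1, hk1⟩ : ∃ k1 : ℕ, 3 / 2 ^ (k1 + 2) ≤ g / 2 := by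
    obtain ⟨k, hk⟩ := pow_unbounded_of_one_lt (6 / g) (show (1 : ℝ) < 2 by norm_num)
    refine ⟨k, ?_⟩
    rw [div_lt_iff₀ hg0] at hk
    rw [div_le_iff₀ (by positivity), pow_add]
    nlinarith [pow_pos (show (0 : ℝ) < 2 by norm_num) k]
  obtain ⟨t1, ht1, ht12, hit1⟩ : ∃ t1 : ℝ, q < t1 ∧ t1 < t2 ∧
      ‖(fc (a : ℂ))^[k1 + 2] ((t1 : ℂ) * I)‖ < 3 := by
    have hc : Continuous (fun t : ℝ => ‖(fc (a : ℂ))^[k1 + 2] ((t : ℂ) * I)‖) := by
      have h1 : Continuous (fun t : ℝ => ((a : ℂ), (t : ℂ) * I)) := by fun_prop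
      exact ((cont_iter (k1 + 2)).comp h1).norm
    have h2 : ‖(fc (a : ℂ))^[k1 + 2] ((q : ℂ) * I)‖ < 3 := by
      have h3 := fix_iter P k1
      rw [zz] at h3
      rw [h3, norm_real, Real.norm_eq_abs, abs_of_pos (by linarith)]
      have := P.β2
      linarith
    have h3 : ∀ᶠ t : ℝ in 𝓝 q, ‖(fc (a : ℂ))^[k1 + 2] ((t : ℂ) * I)‖ < 3 :=
      hc.continuousAt.eventually (gt_mem_nhds h2)
    have h4 : ∀ᶠ t : ℝ in 𝓝[>] q, t ∈ Ioo q t2 := Ioo_mem_nhdsGT (by rw [ht2]; linarith)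
    obtain ⟨t, h5, h6⟩ := ((h3.filter_mono nhdsWithin_le_nhds).and h4).exists
    exact ⟨t, h6.1, h6.2, h5⟩
  set ρ : ℝ := (t1 - q) / 4 with hρ
  have hρ0 : 0 < ρ := by rw [hρ]; linarith
  have hρ1 : ρ ≤ 1 / 80 := by rw [hρ]; rw [ht2] at ht12; linarith
  set η : ℝ := (t1 ^ 2 - q ^ 2) / 2 with hη
  have hη0 : 0 < η := by rw [hη]; nlinarith
  -- the compact set
  set K : Set ℂ := (fun x : ℝ × ℂ => (x.1 : ℂ) * I + x.2) '' (Icc t1 t2 ×ˢ closedBall 0 ρ) with hK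
  have hKc : IsCompact K := by
    apply (isCompact_Icc.prod (isCompact_closedBall 0 ρ)).image
    fun_prop
  have hKg : ∀ z ∈ K, β + η ≤ ‖fc (a : ℂ) z‖ := by
    rintro _ ⟨⟨t, s⟩, ⟨ht, hs⟩, rfl⟩
    simp only at ht hs ⊢
    rw [mem_closedBall_zero_iff] at hs
    have h1 := hnormI t s
    have ht0 : 0 ≤ t := by linarith [ht.1]
    rw [abs_of_nonneg ht0] at h1
    have ht3 : t ≤ 13 / 20 := by
      have := ht.2
      rw [ht2] at this
      linarith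
    have h2 : 2 * t * ‖s‖ ≤ 2 * t * ρ := by gcongr
    have h3 : ‖s‖ ^ 2 ≤ ρ ^ 2 := by gcongr
    have h4 : t1 ^ 2 ≤ t ^ 2 := by
      have := ht.1
      gcongr
      linarith
    have h5 : 2 * t * ρ + ρ ^ 2 ≤ η := by
      have h6 : t1 ^ 2 - q ^ 2 = 4 * ρ * (t1 + q) := by rw [hρ]; ring
      rw [hη, h6]
      nlinarith
    rw [hη] at h5 ⊢
    rw [hqq] at h5 ⊢
    linarith
  obtain ⟨k3, hk3⟩ : ∃ k3 : ℕ, ∀ z ∈ K, 8 < ‖(fc (a : ℂ))^[k3 + 1] z‖ := by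
    obtain ⟨k, hk⟩ := pow_unbounded_of_one_lt (8 / η) (show (1 : ℝ) < 3 by norm_num)
    rw [div_lt_iff₀ hη0] at hk
    refine ⟨k, fun z hz => ?_⟩
    have h3 := grow_a P hη0.le (hKg z hz) k
    rw [Function.iterate_succ_apply]
    linarith
  -- nearby parameters
  have e1 : ∀ᶠ c in 𝓝 (a : ℂ), ∀ z ∈ K, 8 < ‖(fc c)^[k3 + 1] z‖ := by
    apply hKc.eventually_forall_of_forall_eventually (P := fun c z => 8 < ‖(fc c)^[k3 + 1] z‖)
    intro z hz
    exact (cont_iter (k3 + 1)).norm.continuousAt.eventually (lt_mem_nhds (hk3 z hz))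
  have hci : ∀ k : ℕ, ∀ z : ℂ, ContinuousAt (fun c : ℂ => ‖(fc c)^[k] z‖) (a : ℂ) := by
    intro k z
    have h1 : Continuous (fun c : ℂ => (c, z)) := by fun_prop
    exact ((cont_iter k).comp h1).norm.continuousAt
  have e2 : ∀ᶠ c in 𝓝 (a : ℂ), 8 < ‖(fc c)^[k2 + 1] ((t2 : ℂ) * I)‖ :=
    (hci (k2 + 1) _).eventually (lt_mem_nhds hk2)
  have e3 : ∀ᶠ c in 𝓝 (a : ℂ), ‖(fc c)^[k1 + 2] ((t1 : ℂ) * I)‖ < 3 :=
    (hci (k1 + 2) _).eventually (gt_mem_nhds hit1)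
  have e4 : ∀ᶠ c in 𝓝 (a : ℂ), ‖c‖ < 2 := by
    apply continuous_norm.continuousAt.eventually (gt_mem_nhds _)
    change ‖(a : ℂ)‖ < 2
    rw [norm_real, Real.norm_eq_abs, abs_of_neg (by linarith)]
    linarith
  obtain ⟨δ', hδ', h⟩ := Metric.eventually_nhds_iff_ball.1 (e1.and (e2.and (e3.and e4)))
  refine ⟨t1, t2, ρ, g, Real.log 2 / 2 ^ (k3 + 1), δ', ht1, ht12, rfl, hρ0, hρ1, hg0,
    by positivity, hδ', ?_⟩
  intro c hc
  obtain ⟨h1, h2, h3, h4⟩ := h c hc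
  refine ⟨h4.le, ?_, ?_, ?_⟩
  · intro t ht z hz
    apply green_ge_of h4.le
    refine (h1 z ⟨(t, z - t * I), ⟨ht, ?_⟩, by simp⟩).le
    rw [mem_closedBall, dist_eq_norm] at hz
    rw [mem_closedBall_zero_iff]
    exact hz
  · exact (green_le_of h4.le _ h3.le).trans hk1
  · exact green_ge_of h4.le _ h2.le

end Pool.Agent.TH363.IM
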