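import Pool.Agent.TH363.IM.Dyn

/-!
# Growth of the transfer operator at the band merging parameter
-/

set_option autoImplicit false

open Set Metric Filter Topology Complex

namespace Pool.Agent.TH363.IM

theorem sq_re_sq (z : ℂ) : (sq z).re ^ 2 - (sq z).im ^ 2 = z.re := by
  have h := congrArg Complex.re (sq_sq z)
  rw [pow_two, mul_re] at h
  rw [← h]; ring

theorem sq_im_sq (z : ℂ) : 2 * (sq z).re * (sq z).im = z.im := by
  have h := congrArg Complex.im (sq_sq z)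
  rw [pow_two, mul_im] at h
  rw [← h]; ring

theorem norm_sq_eq (z : ℂ) : ‖sq z‖ = √‖z‖ := by
  rw [← norm_sq_sq z, Real.sqrt_sq (norm_nonneg _)]

theorem sq_re_pos {z : ℂ} (hz : z.im ≠ 0) : 0 < (sq z).re := by
  rcases (sq_re_nonneg z).lt_or_eq with h | h
  · exact h
  · exfalso; apply hz; rw [← sq_im_sq z, ← h]; ring

theorem sq_im_ne {z : ℂ} (hz : z.im ≠ 0) : (sq z).im ≠ 0 := by
  intro h; apply hz; rw [← sq_im_sq z, h]; ring

/-- the invariant domain -/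
def Dm : Set ℂ := {z | z.im ≠ 0 ∧ ‖z‖ ≤ 37 / 20}

theorem neg_Dm {z : ℂ} (h : z ∈ Dm) : -z ∈ Dm := ⟨by simpa using h.1, by simpa using h.2⟩

theorem norm_sub_Dm {z : ℂ} (h : z ∈ Dm) {x : ℝ} (hx : |x| ≤ 37 / 20) :
    ‖z - (x : ℂ)‖ ≤ 97 / 20 := by
  have := norm_sub_le z (x : ℂ)
  rw [norm_real, Real.norm_eq_abs] at this
  have := h.2
  linarith

theorem norm_sub_Dm_a {a b β q : ℝ} (P : Par a b β q) {z : ℂ} (h : z ∈ Dm) :
    ‖z - (a : ℂ)‖ ≤ 17 / 5 := by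
  have := norm_sub_le z (a : ℂ)
  rw [norm_real, Real.norm_eq_abs] at this
  have h2 := h.2
  have := P.a1; have := P.a2
  have : |a| ≤ 31 / 20 := abs_le.2 ⟨by linarith, by linarith⟩
  linarith

theorem sq_Dm {a b β q : ℝ} (P : Par a b β q) {z : ℂ} (h : z ∈ Dm) : sq (z - a) ∈ Dm := by
  have h1 : (z - (a : ℂ)).im ≠ 0 := by simpa using h.1
  refine ⟨sq_im_ne h1, ?_⟩
  rw [norm_sq_eq]
  have := norm_sub_Dm_a P h
  calc √‖z - (a : ℂ)‖ ≤ √((37 / 20) ^ 2) := Real.sqrt_le_sqrt (by linarith)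
    _ = 37 / 20 := Real.sqrt_sq (by norm_num)

theorem norm_sub_pos {z : ℂ} (h : z ∈ Dm) (x : ℝ) : 0 < ‖z - (x : ℂ)‖ := by
  rw [norm_pos_iff]
  intro h0
  apply h.1
  have := congrArg Complex.im h0
  simpa using this

/-- the weight -/
noncomputable def wt (a b p : ℝ) (z : ℂ) : ℝ :=
  ‖z - (a : ℂ)‖ ^ (-(p / 2)) * ‖z - (b : ℂ)‖ ^ (-(p / 4)) * ‖z + (b : ℂ)‖ ^ (-(p / 4))

theorem norm_add_pos {z : ℂ} (h : z ∈ Dm) (x : ℝ) : 0 < ‖z + (x : ℂ)‖ := by
  have := norm_sub_pos h (-x)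
  simpa using this

theorem wt_pos {a b p : ℝ} {z : ℂ} (h : z ∈ Dm) : 0 < wt a b p z :=
  mul_pos (mul_pos (Real.rpow_pos_of_pos (norm_sub_pos h a) _)
    (Real.rpow_pos_of_pos (norm_sub_pos h b) _)) (Real.rpow_pos_of_pos (norm_add_pos h b) _)

/-- the transfer operator -/
noncomputable def LL (a p : ℝ) (F : ℂ → ℝ) (z : ℂ) : ℝ :=
  (2 * ‖sq (z - a)‖) ^ (-p) * (F (sq (z - a)) + F (-(sq (z - a))))

/-- the gain -/
noncomputable def gn (a p : ℝ) (z : ℂ) : ℝ :=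
  Real.cosh (p / 4 * (Real.log ‖sq (z - a) - (a : ℂ)‖ - Real.log ‖sq (z - a) + (a : ℂ)‖))

theorem cosh_id {A B s : ℝ} (hA : 0 < A) (hB : 0 < B) :
    A ^ (-(2 * s)) + B ^ (-(2 * s)) =
      2 * (A ^ (-s) * B ^ (-s)) * Real.cosh (s * (Real.log A - Real.log B)) := by
  rw [Real.cosh_eq, Real.rpow_def_of_pos hA, Real.rpow_def_of_pos hB, Real.rpow_def_of_pos hA,
    Real.rpow_def_of_pos hB, ← Real.exp_add]
  have h1 : Real.exp (Real.log A * -(2 * s)) =
      Real.exp (Real.log A * -s + Real.log B * -s) *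
        Real.exp (-(s * (Real.log A - Real.log B))) := by
    rw [← Real.exp_add]; congr 1; ring
  have h2 : Real.exp (Real.log B * -(2 * s)) =
      Real.exp (Real.log A * -s + Real.log B * -s) *
        Real.exp (s * (Real.log A - Real.log B)) := by
    rw [← Real.exp_add]; congr 1; ring
  rw [h1, h2]; ring

theorem LL_wt {a b β q : ℝ} (P : Par a b β q) (p : ℝ) {z : ℂ} (h : z ∈ Dm) :
    LL a p (wt a b p) z = 2 ^ (1 - p) * gn a p z * wt a b p z := by
  set y := sq (z - a) with hy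
  have hyD : y ∈ Dm := sq_Dm P h
  have hys : y ^ 2 = z - a := sq_sq _
  have hA := norm_sub_pos hyD a
  have hB := norm_add_pos hyD a
  have hC := norm_sub_pos hyD b
  have hE := norm_add_pos hyD b
  have hza := norm_sub_pos h a
  have hzb := norm_sub_pos h b
  have hzb' := norm_add_pos h b
  have h1 : ‖y - (a : ℂ)‖ * ‖y + (a : ℂ)‖ = ‖z - (b : ℂ)‖ := by
    rw [← norm_mul]; congr 1
    have : (b : ℂ) = (a : ℂ) ^ 2 + a := by rw [P.hb]; push_cast; ring
    rw [this]; linear_combination hys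
  have h2 : ‖y - (b : ℂ)‖ * ‖y + (b : ℂ)‖ = ‖z + (b : ℂ)‖ := by
    rw [← norm_mul]; congr 1
    have : (b : ℂ) ^ 2 + a = -b := by exact_mod_cast congrArg (fun x : ℝ => (x : ℂ)) P.eq
    linear_combination hys - this
  have h3 : ‖y‖ ^ 2 = ‖z - (a : ℂ)‖ := norm_sq_sq _
  have hy0 : 0 < ‖y‖ := norm_pos_iff.2 (fun h0 => hyD.1 (by rw [h0]; rfl))
  have h4 : ∀ x : ℂ, ∀ x' : ℂ, ‖-x - x'‖ = ‖x + x'‖ := fun x x' => by
    rw [← norm_neg]; congr 1; ring
  have h5 : ∀ x : ℂ, ∀ x' : ℂ, ‖-x + x'‖ = ‖x - x'‖ := fun x x' => by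
    rw [← norm_neg]; congr 1; ring
  have h6 := cosh_id (s := p / 4) hA hB
  have e1 : -(2 * (p / 4)) = -(p / 2) := by ring
  rw [e1] at h6
  rw [LL, ← hy, wt, wt, wt, h4, h4, h5, gn, ← hy]
  have h7 : ‖z - (b : ℂ)‖ ^ (-(p / 4)) = ‖y - (a : ℂ)‖ ^ (-(p / 4)) * ‖y + (a : ℂ)‖ ^ (-(p / 4)) := by
    rw [← h1, Real.mul_rpow hA.le hB.le]
  have h8 : ‖z + (b : ℂ)‖ ^ (-(p / 4)) = ‖y - (b : ℂ)‖ ^ (-(p / 4)) * ‖y + (b : ℂ)‖ ^ (-(p / 4)) := by
    rw [← h2, Real.mul_rpow hC.le hE.le]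
  have h9 : ‖z - (a : ℂ)‖ ^ (-(p / 2)) = ‖y‖ ^ (-p) := by
    rw [← h3, ← Real.rpow_natCast, ← Real.rpow_mul hy0.le]
    congr 1; push_cast; ring
  rw [h7, h8, h9, Real.mul_rpow (by norm_num) hy0.le, Real.rpow_sub (by norm_num),
    Real.rpow_one, Real.rpow_neg (by norm_num : (0:ℝ) ≤ 2)]
  have h10 : ∀ u v x y' c w : ℝ, u * w * (x * y' * c + v * c * y') = u * w * (y' * c * (x + v)) := by
    intros; ring
  calc _ = (2 ^ p)⁻¹ * ‖y‖ ^ (-p) * (‖y - (b : ℂ)‖ ^ (-(p / 4)) * ‖y + (b : ℂ)‖ ^ (-(p / 4)) *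
        (‖y - (a : ℂ)‖ ^ (-(p / 2)) + ‖y + (a : ℂ)‖ ^ (-(p / 2)))) := by ring
    _ = _ := by rw [h6]; ring

theorem gn_one (a p : ℝ) (z : ℂ) : 1 ≤ gn a p z := Real.one_le_cosh _

theorem log_ratio {A B x : ℝ} (hB : 0 < B) (hA : 0 < A)
    (hx : x * (A ^ 2 + B ^ 2) = A ^ 2 - B ^ 2) (hx7 : 7 / 10 ≤ x) :
    4 / 5 ≤ Real.log A - Real.log B := by
  have hS : 0 < A ^ 2 + B ^ 2 := by positivity
  have hx1 : x < 1 := by
    by_contra h
    push Not at h
    nlinarith [sq_pos_of_pos hB]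
  have h1 := Real.hasSum_log_sub_log_of_abs_lt_one (x := x) (by rw [abs_of_pos (by linarith)]; exact hx1)
  have h2 := sum_le_hasSum (Finset.range 2) (fun k _ => by positivity) h1
  rw [Finset.sum_range_succ, Finset.sum_range_one] at h2
  have h3 : 1 + x = 2 * A ^ 2 / (A ^ 2 + B ^ 2) := by
    rw [eq_div_iff hS.ne']; linarith
  have h4 : 1 - x = 2 * B ^ 2 / (A ^ 2 + B ^ 2) := by
    rw [eq_div_iff hS.ne']; linarith
  have h5 : Real.log (1 + x) - Real.log (1 - x) = 2 * (Real.log A - Real.log B) := by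
    rw [h3, h4, Real.log_div (by positivity) hS.ne', Real.log_div (by positivity) hS.ne',
      Real.log_mul (by norm_num) (by positivity), Real.log_mul (by norm_num) (by positivity),
      Real.log_pow, Real.log_pow]
    push_cast; ring
  rw [h5] at h2
  norm_num at h2
  have h6 : (7 / 10 : ℝ) ^ 3 ≤ x ^ 3 := by gcongr
  norm_num at h6
  linarith

theorem poly_ineq {α X s : ℝ} (h1 : 77 / 50 < α) (h2 : α < 31 / 20) (hX : 837 / 1000 ≤ X)
    (hs : 0 ≤ s) (hc : s ^ 2 + 2 * α * s ≤ 4 * α * X ^ 2 + 1369 / 400 - α ^ 2) :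
    7 / 10 * (s + α ^ 2) ≤ 2 * α * X := by
  by_contra hcon
  push Not at hcon
  set t : ℝ := 20 / 7 * α * X - α ^ 2 with ht
  have hts : t < s := by rw [ht]; linarith
  have ht0 : 0 < t := by
    rw [ht]
    have : α * (837 / 1000) ≤ α * X := by gcongr
    nlinarith
  have h3 : t ^ 2 + 2 * α * t < s ^ 2 + 2 * α * s := by nlinarith
  have h4 : 4 * α * X ^ 2 + 1369 / 400 - α ^ 2 ≤ t ^ 2 + 2 * α * t := by
    have e : t ^ 2 + 2 * α * t - (4 * α * X ^ 2 + 1369 / 400 - α ^ 2) =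
        X ^ 2 * (400 / 49 * α ^ 2 - 4 * α) - X * (40 / 7 * (α ^ 2 * (α - 1))) +
          (α ^ 2 * (α - 1) ^ 2 - 1369 / 400) := by rw [ht]; ring
    have a2l : (77 / 50) ^ 2 ≤ α ^ 2 := by gcongr
    have a2u : α ^ 2 ≤ (31 / 20) ^ 2 := by gcongr
    have c1 : 66 / 5 ≤ 400 / 49 * α ^ 2 - 4 * α := by nlinarith
    have c2 : 40 / 7 * (α ^ 2 * (α - 1)) ≤ 7552 / 1000 := by
      have h10 : 0 ≤ α - 1 := by linarith
      have : α ^ 2 * (α - 1) ≤ (31 / 20) ^ 2 * (31 / 20 - 1) := by gcongr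
      norm_num at this ⊢
      linarith
    have c3 : 691 / 1000 ≤ α ^ 2 * (α - 1) ^ 2 := by
      have h5 : (77 / 50 - 1 : ℝ) ^ 2 ≤ (α - 1) ^ 2 := by gcongr
      have h6 : (77 / 50 : ℝ) ^ 2 * (77 / 50 - 1) ^ 2 ≤ α ^ 2 * (α - 1) ^ 2 := by gcongr
      norm_num at h6 ⊢
      linarith
    have d1 : X ^ 2 * (66 / 5) ≤ X ^ 2 * (400 / 49 * α ^ 2 - 4 * α) := by gcongr
    have d2 : X * (40 / 7 * (α ^ 2 * (α - 1))) ≤ X * (7552 / 1000) := by gcongr
    nlinarith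
  linarith

theorem gn_ge {a b β q : ℝ} (P : Par a b β q) (p : ℝ) {z : ℂ} (h : z ∈ Dm)
    (hr : 837 / 1000 ≤ (sq (z - a)).re) : Real.cosh (p / 5) ≤ gn a p z := by
  set y := sq (z - a) with hy
  have hyD : y ∈ Dm := sq_Dm P h
  have hA := norm_sub_pos hyD a
  have hB := norm_add_pos hyD a
  have ha1 := P.a1
  have ha2 := P.a2
  have hAB : ‖y - (a : ℂ)‖ ^ 2 - ‖y + (a : ℂ)‖ ^ 2 = 4 * (-a) * y.re := by
    rw [← normSq_eq_norm_sq, ← normSq_eq_norm_sq, normSq_apply, normSq_apply]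
    simp only [sub_re, add_re, sub_im, add_im, ofReal_re, ofReal_im]; ring
  have hAB2 : ‖y - (a : ℂ)‖ ^ 2 + ‖y + (a : ℂ)‖ ^ 2 = 2 * (‖y‖ ^ 2 + (-a) ^ 2) := by
    rw [← normSq_eq_norm_sq, ← normSq_eq_norm_sq, ← normSq_eq_norm_sq, normSq_apply, normSq_apply,
      normSq_apply]
    simp only [sub_re, add_re, sub_im, add_im, ofReal_re, ofReal_im]; ring
  have hcons : (‖y‖ ^ 2) ^ 2 + 2 * (-a) * ‖y‖ ^ 2 ≤
      4 * (-a) * y.re ^ 2 + 1369 / 400 - (-a) ^ 2 := by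
    have hz : z = y ^ 2 + a := by rw [hy, sq_sq]; ring
    have h1 : ‖z‖ ^ 2 ≤ (37 / 20) ^ 2 := by
      have := h.2
      gcongr
    have h2 : ‖z‖ ^ 2 = (‖y‖ ^ 2) ^ 2 + 2 * (-a) * ‖y‖ ^ 2 - 4 * (-a) * y.re ^ 2 + (-a) ^ 2 := by
      rw [hz, ← normSq_eq_norm_sq, ← normSq_eq_norm_sq, normSq_apply, normSq_apply]
      simp only [add_re, add_im, ofReal_re, ofReal_im, pow_two, mul_re, mul_im]
      ring
    norm_num at h1
    linarith
  have hx7 := poly_ineq (α := -a) (X := y.re) (s := ‖y‖ ^ 2) (by linarith) (by linarith) hr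
    (by positivity) hcons
  have hS : 0 < ‖y - (a : ℂ)‖ ^ 2 + ‖y + (a : ℂ)‖ ^ 2 := by positivity
  have hlog := log_ratio (A := ‖y - (a : ℂ)‖) (B := ‖y + (a : ℂ)‖)
    (x := (‖y - (a : ℂ)‖ ^ 2 - ‖y + (a : ℂ)‖ ^ 2) / (‖y - (a : ℂ)‖ ^ 2 + ‖y + (a : ℂ)‖ ^ 2)) hB hA
    (by rw [div_mul_cancel₀ _ hS.ne']) (by
      rw [le_div_iff₀ hS, hAB, hAB2]; linarith)
  rw [gn, ← hy, ← Real.cosh_abs (p / 5), ← Real.cosh_abs (p / 4 * _)]
  apply Real.cosh_le_cosh.2
  rw [abs_abs, abs_abs, abs_mul, abs_div, abs_div]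
  rw [abs_of_pos (by norm_num : (0:ℝ) < 5), abs_of_pos (by norm_num : (0:ℝ) < 4)]
  have h9 : (4 : ℝ) / 5 ≤ |Real.log ‖y - (a : ℂ)‖ - Real.log ‖y + (a : ℂ)‖| :=
    hlog.trans (le_abs_self _)
  calc |p| / 5 = |p| / 4 * (4 / 5) := by ring
    _ ≤ _ := mul_le_mul_of_nonneg_left h9 (by positivity)

theorem re_ge_of_small {a b β q : ℝ} (P : Par a b β q) {y : ℂ} (hr : |y.re| ≤ 837 / 1000) :
    837 / 1000 ≤ (sq (y - a)).re := by
  have h1 := sq_re_sq (y - (a : ℂ))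
  have h2 : (y - (a : ℂ)).re = y.re - a := by simp
  rw [h2] at h1
  have h3 := (abs_le.1 hr).1
  have ha2 := P.a2
  nlinarith [sq_re_nonneg (y - (a : ℂ)), sq_nonneg (sq (y - (a : ℂ))).im]

theorem LL_mono {a p : ℝ} {F G : ℂ → ℝ} {z : ℂ} (h1 : F (sq (z - a)) ≤ G (sq (z - a)))
    (h2 : F (-(sq (z - a))) ≤ G (-(sq (z - a)))) : LL a p F z ≤ LL a p G z :=
  mul_le_mul_of_nonneg_left (add_le_add h1 h2) (Real.rpow_nonneg (by positivity) _)

theorem LL_smul (a p K : ℝ) (F : ℂ → ℝ) (z : ℂ) : LL a p (fun z => K * F z) z = K * LL a p F z := by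
  simp only [LL]; ring

theorem two_step {a b β q : ℝ} (P : Par a b β q) (p : ℝ) {z : ℂ} (h : z ∈ Dm) :
    (2 ^ (1 - p)) ^ 2 * Real.cosh (p / 5) * wt a b p z ≤ LL a p (LL a p (wt a b p)) z := by
  have hyD : sq (z - a) ∈ Dm := sq_Dm P h
  have hyD' := neg_Dm hyD
  have h2p : (0 : ℝ) < 2 ^ (1 - p) := by positivity
  have hw := wt_pos (a := a) (b := b) (p := p) h
  rcases le_or_gt (837 / 1000) (sq (z - a)).re with hr | hr
  · calc (2 ^ (1 - p)) ^ 2 * Real.cosh (p / 5) * wt a b p z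
        ≤ (2 ^ (1 - p)) ^ 2 * gn a p z * wt a b p z := by
          gcongr
          exact gn_ge P p h hr
      _ = 2 ^ (1 - p) * LL a p (wt a b p) z := by rw [LL_wt P p h]; ring
      _ = LL a p (fun z => 2 ^ (1 - p) * wt a b p z) z := (LL_smul _ _ _ _ _).symm
      _ ≤ _ := by
        apply LL_mono
        · rw [LL_wt P p hyD]
          have := wt_pos (a := a) (b := b) (p := p) hyD
          have h3 := gn_one a p (sq (z - a))
          calc 2 ^ (1 - p) * wt a b p (sq (z - a)) = 2 ^ (1 - p) * 1 * wt a b p (sq (z - a)) := by ring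
            _ ≤ _ := by gcongr
        · rw [LL_wt P p hyD']
          have := wt_pos (a := a) (b := b) (p := p) hyD'
          have h3 := gn_one a p (-(sq (z - a)))
          calc 2 ^ (1 - p) * wt a b p (-(sq (z - a)))
              = 2 ^ (1 - p) * 1 * wt a b p (-(sq (z - a))) := by ring
            _ ≤ _ := by gcongr
  · have hr0 := sq_re_nonneg (z - a)
    have hs1 : |(sq (z - (a : ℂ))).re| ≤ 837 / 1000 := by rw [abs_of_nonneg hr0]; exact hr.le
    have hs2 : |(-(sq (z - (a : ℂ)))).re| ≤ 837 / 1000 := by rw [neg_re, abs_neg]; exact hs1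
    have g1 := gn_ge P p hyD (re_ge_of_small P hs1)
    have g2 := gn_ge P p hyD' (re_ge_of_small P hs2)
    calc (2 ^ (1 - p)) ^ 2 * Real.cosh (p / 5) * wt a b p z
        ≤ (2 ^ (1 - p)) ^ 2 * Real.cosh (p / 5) * (gn a p z * wt a b p z) := by
          have h3 := gn_one a p z
          have : wt a b p z ≤ gn a p z * wt a b p z := le_mul_of_one_le_left hw.le h3
          have hc : 0 < Real.cosh (p / 5) := Real.cosh_pos _
          gcongr
      _ = 2 ^ (1 - p) * Real.cosh (p / 5) * LL a p (wt a b p) z := by rw [LL_wt P p h]; ring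
      _ = LL a p (fun z => (2 ^ (1 - p) * Real.cosh (p / 5)) * wt a b p z) z :=
        (LL_smul _ _ _ _ _).symm
      _ ≤ _ := by
        apply LL_mono
        · rw [LL_wt P p hyD]
          have := wt_pos (a := a) (b := b) (p := p) hyD
          gcongr
        · rw [LL_wt P p hyD']
          have := wt_pos (a := a) (b := b) (p := p) hyD'
          gcongr

theorem LL_iter_mono {a b β q : ℝ} (P : Par a b β q) {p : ℝ} {F G : ℂ → ℝ}
    (h : ∀ z ∈ Dm, F z ≤ G z) (n : ℕ) : ∀ z ∈ Dm, (LL a p)^[n] F z ≤ (LL a p)^[n] G z := by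
  induction n with
  | zero => exact h
  | succ n ih =>
    intro z hz
    rw [Function.iterate_succ_apply', Function.iterate_succ_apply']
    exact LL_mono (ih _ (sq_Dm P hz)) (ih _ (neg_Dm (sq_Dm P hz)))

theorem growth {a b β q : ℝ} (P : Par a b β q) (p : ℝ) (m : ℕ) : ∀ z ∈ Dm,
    (2 ^ (1 - p)) ^ (2 * m) * Real.cosh (p / 5) ^ m * wt a b p z ≤
      (LL a p)^[2 * m] (wt a b p) z := by
  induction m with
  | zero => intro z _; simp
  | succ m ih =>
    intro z hz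
    have e : 2 * (m + 1) = 2 * m + 1 + 1 := by ring
    rw [e, Function.iterate_succ_apply', Function.iterate_succ_apply']
    set K : ℝ := (2 ^ (1 - p)) ^ (2 * m) * Real.cosh (p / 5) ^ m with hK
    have hK0 : 0 ≤ K := by have := (Real.cosh_pos (p / 5)).le; positivity
    have h1 : ∀ z ∈ Dm, K * wt a b p z ≤ (LL a p)^[2 * m] (wt a b p) z := ih
    have hmono : LL a p (LL a p (fun z => K * wt a b p z)) z ≤
        LL a p (LL a p ((LL a p)^[2 * m] (wt a b p))) z := by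
      apply LL_mono
      · exact LL_mono (h1 _ (sq_Dm P (sq_Dm P hz))) (h1 _ (neg_Dm (sq_Dm P (sq_Dm P hz))))
      · exact LL_mono (h1 _ (sq_Dm P (neg_Dm (sq_Dm P hz))))
          (h1 _ (neg_Dm (sq_Dm P (neg_Dm (sq_Dm P hz)))))
    refine le_trans ?_ hmono
    have h2 : LL a p (fun z => K * wt a b p z) = fun z => K * LL a p (wt a b p) z :=
      funext fun z => LL_smul _ _ _ _ _
    rw [h2, LL_smul]
    calc (2 ^ (1 - p)) ^ (2 * m + 1 + 1) * Real.cosh (p / 5) ^ (m + 1) * wt a b p z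
        = K * ((2 ^ (1 - p)) ^ 2 * Real.cosh (p / 5) * wt a b p z) := by rw [hK]; ring
      _ ≤ _ := mul_le_mul_of_nonneg_left (two_step P p hz) hK0

/-- words of length `n` -/
def words : ℕ → Finset (List Bool)
  | 0 => {[]}
  | n + 1 => ((words n).image (List.cons true)) ∪ ((words n).image (List.cons false))

theorem mem_words {n : ℕ} {σ : List Bool} (h : σ ∈ words n) : σ.length = n := by
  induction n generalizing σ with
  | zero => simp only [words, Finset.mem_singleton] at h; rw [h]; rfl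
  | succ n ih =>
    simp only [words, Finset.mem_union, Finset.mem_image] at h
    rcases h with ⟨τ, h1, rfl⟩ | ⟨τ, h1, rfl⟩ <;> simp [ih h1]

theorem sum_words (n : ℕ) (f : List Bool → ℝ) :
    ∑ σ ∈ words (n + 1), f σ = ∑ σ ∈ words n, f (true :: σ) + ∑ σ ∈ words n, f (false :: σ) := by
  rw [words, Finset.sum_union, Finset.sum_image, Finset.sum_image]
  · intro x _ y _ h; exact (List.cons.inj h).2
  · intro x _ y _ h; exact (List.cons.inj h).2
  · rw [Finset.disjoint_left]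
    intro x h1 h2
    simp only [Finset.mem_image] at h1 h2
    obtain ⟨u, _, rfl⟩ := h1
    obtain ⟨v, _, h3⟩ := h2
    exact absurd (List.cons.inj h3).1 (by decide)

theorem sum_words_eq (a p : ℝ) (F : ℂ → ℝ) (n : ℕ) (z : ℂ) :
    ∑ σ ∈ words n, ‖dbr a σ z‖ ^ p * F (br a σ z) = (LL a p)^[n] F z := by
  induction n generalizing z with
  | zero => simp [words, dbr, br]
  | succ n ih =>
    rw [sum_words, Function.iterate_succ_apply', LL, ← ih, ← ih, mul_add, Finset.mul_sum,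
      Finset.mul_sum]
    have key : ∀ s : Bool, ∀ σ : List Bool, ‖dbr a (s :: σ) z‖ ^ p * F (br a (s :: σ) z) =
        (2 * ‖sq (z - a)‖) ^ (-p) *
          (‖dbr a σ (sg s * sq (z - a))‖ ^ p * F (br a σ (sg s * sq (z - a)))) := by
      intro s σ
      have h1 : ‖dbr a (s :: σ) z‖ = ‖dbr a σ (sg s * sq (z - a))‖ * (2 * ‖sq (z - a)‖)⁻¹ := by
        change ‖dbr a σ (sg s * sq (z - a)) * (sg s / (2 * sq (z - a)))‖ = _
        rw [norm_mul, norm_div, norm_sg, norm_mul, Complex.norm_two, one_div]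
      have h2 : br a (s :: σ) z = br a σ (sg s * sq (z - a)) := rfl
      rw [h1, h2, Real.mul_rpow (norm_nonneg _) (by positivity), Real.inv_rpow (by positivity),
        ← Real.rpow_neg (by positivity)]
      ring
    congr 1
    · refine Finset.sum_congr rfl fun σ _ => ?_
      rw [key]
      simp [sg]
    · refine Finset.sum_congr rfl fun σ _ => ?_
      rw [key]
      simp [sg]

end Pool.Agent.TH363.IM
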