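import Pool.Agent.TH363.IM.Gr
import Pool.Agent.TH653.MB.A4

/-!
# The image of a branch under the inverse of the exterior map
-/

set_option autoImplicit false

open Set Metric Filter Topology Complex N62a1eb23

namespace Pool.Agent.TH363.IM

open Pool.Agent.H713R2 Pool.Agent.H713R2.AR Pool.Agent.Helper265.Br

theorem deriv_upper {Φ : ℂ → ℂ} {z : ℂ} {ρ A : ℝ} (hρ : 0 < ρ) (hA : 0 < A) (hA3 : A ≤ 3)
    (hd : DifferentiableOn ℂ Φ (ball z ρ))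
    (hb : ∀ w ∈ ball z ρ, 1 < ‖Φ w‖ ∧ Real.log ‖Φ w‖ ≤ A) :
    ‖deriv Φ z‖ ≤ 2 * Real.exp 4 / ρ * A := by
  have hm : ∀ x ∈ ball (0 : ℂ) ρ, z + x ∈ ball z ρ := by
    intro x hx
    rw [mem_ball_zero_iff] at hx
    rw [mem_ball, dist_eq_norm, add_sub_cancel_left]
    exact hx
  have hfd : DifferentiableOn ℂ (fun x => Φ (z + x)) (ball 0 ρ) := by
    apply hd.comp (by fun_prop)
    intro x hx
    exact hm x hx
  obtain ⟨G, hG1, hG2, hG3⟩ := Pool.Agent.TH653.MB.exists_log_ball hρ hfd (fun x hx h => by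
    have := (hb _ (hm x hx)).1
    rw [h, norm_zero] at this
    linarith)
  have hre : ∀ x ∈ ball (0 : ℂ) ρ, 0 ≤ (G x).re ∧ (G x).re ≤ A := by
    intro x hx
    have h1 := Pool.Agent.TH653.MB.log_norm_of_exp (f := fun x => Φ (z + x)) (hG2 x hx)
    obtain ⟨h2, h3⟩ := hb _ (hm x hx)
    rw [← h1]
    exact ⟨Real.log_nonneg h2.le, h3⟩
  have h0 : (0 : ℂ) ∈ ball (0 : ℂ) ρ := mem_ball_self hρ
  have hGd : HasDerivAt G (deriv G 0) 0 := (hG1.differentiableAt (isOpen_ball.mem_nhds h0)).hasDerivAt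
  -- the auxiliary bounded function
  have hk : HasDerivAt (fun x => exp (-(G x) / A)) (exp (-(G 0) / A) * (-(deriv G 0) / A)) 0 :=
    (hGd.neg.div_const _).cexp
  have hkb : ‖deriv (fun x => exp (-(G x) / A)) 0‖ ≤ 1 / (ρ / 2) := by
    have hsub : closedBall (0 : ℂ) (ρ / 2) ⊆ ball 0 ρ := closedBall_subset_ball (by linarith)
    apply norm_deriv_le_of_forall_mem_sphere_norm_le (by positivity)
    · apply DifferentiableOn.diffContOnCl
      rw [closure_ball _ (by positivity)]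
      exact ((hG1.mono hsub).neg.div_const _).cexp
    · intro x hx
      obtain ⟨h1, h2⟩ := hre x (hsub (sphere_subset_closedBall hx))
      rw [norm_exp]
      have e : (-(G x) / A).re = -(G x).re / A := by
        rw [div_ofReal_re, neg_re]
      rw [e]
      apply Real.exp_le_one_iff.2
      apply div_nonpos_of_nonpos_of_nonneg (by linarith) hA.le
  rw [hk.deriv, norm_mul, norm_exp, norm_div, norm_neg, norm_real, Real.norm_eq_abs,
    abs_of_pos hA] at hkb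
  have e : (-(G 0) / A).re = -(G 0).re / A := by
    rw [div_ofReal_re, neg_re]
  rw [e] at hkb
  obtain ⟨h1, h2⟩ := hre 0 h0
  have h3 : Real.exp (-1) ≤ Real.exp (-(G 0).re / A) := by
    apply Real.exp_le_exp.2
    rw [le_div_iff₀ hA]; linarith
  have h4 : ‖deriv G 0‖ ≤ Real.exp 1 * (2 / ρ) * A := by
    have h5 : Real.exp (-1) * (‖deriv G 0‖ / A) ≤ 1 / (ρ / 2) :=
      (mul_le_mul_of_nonneg_right h3 (by positivity)).trans hkb
    have h6 : Real.exp 1 * (Real.exp (-1) * (‖deriv G 0‖ / A)) = ‖deriv G 0‖ / A := by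
      rw [← mul_assoc, ← Real.exp_add]; simp
    have h7 : ‖deriv G 0‖ / A ≤ Real.exp 1 * (1 / (ρ / 2)) := by
      rw [← h6]; gcongr
    rw [div_le_iff₀ hA] at h7
    calc _ ≤ _ := h7
      _ = _ := by field_simp
  -- the derivative of `Φ`
  have hzb : z ∈ ball z ρ := mem_ball_self hρ
  have h5 : HasDerivAt Φ (deriv Φ z) (z + 0) := by
    rw [add_zero]
    exact (hd.differentiableAt (isOpen_ball.mem_nhds hzb)).hasDerivAt
  have h6 : HasDerivAt (fun x => Φ (z + x)) (deriv Φ z) 0 := by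
    simpa using HasDerivAt.comp_const_add z 0 h5
  have h7 : HasDerivAt (fun x => exp (G x)) (exp (G 0) * deriv G 0) 0 := hGd.cexp
  have h8 : HasDerivAt (fun x => exp (G x)) (deriv Φ z) 0 := by
    refine h6.congr_of_eventuallyEq ?_
    filter_upwards [isOpen_ball.mem_nhds h0] with x hx using hG2 x hx
  rw [h8.unique h7, norm_mul, norm_exp]
  have h9 : Real.exp (G 0).re ≤ Real.exp 3 := Real.exp_le_exp.2 (by linarith)
  calc Real.exp (G 0).re * ‖deriv G 0‖ ≤ Real.exp 3 * (Real.exp 1 * (2 / ρ) * A) := by gcongr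
    _ = (Real.exp 3 * Real.exp 1) * (2 / ρ) * A := by ring
    _ = 2 * Real.exp 4 / ρ * A := by
        have : Real.exp 3 * Real.exp 1 = Real.exp 4 := by rw [← Real.exp_add]; norm_num
        rw [this]; ring

theorem sub_log_le {x y : ℝ} (hy : 1 ≤ y) (hxy : Real.log y ≤ Real.log x) (hx : 0 < x) :
    Real.log x - Real.log y ≤ x - y := by
  have hy0 : 0 < y := by linarith
  have hle : y ≤ x := (Real.log_le_log_iff hy0 hx).1 hxy
  rw [← Real.log_div hx.ne' hy0.ne']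
  refine (Real.log_le_sub_one_of_pos (by positivity)).trans ?_
  have : x / y - 1 = (x - y) / y := by field_simp
  rw [this]
  exact div_le_self (by linarith) hy

theorem leaf {a b β q : ℝ} (P : Par a b β q) {ψ : ℂ → ℂ} (hψ : IsExteriorMap (multibrotSet 2) ψ)
    (p : ℝ) :
    ∃ δ' η c0 g' : ℝ, 0 < δ' ∧ 0 < η ∧ 0 < c0 ∧ 0 < g' ∧
      ∀ (n : ℕ) (Q : ℂ → ℂ) (m : ℝ), DifferentiableOn ℂ Q (Vq q) →
        (∀ z ∈ Vq q, Q z ∈ ball (a : ℂ) δ' ∧ (fc (Q z))^[n] (Q z) = z ∧ deriv Q z ≠ 0 ∧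
          m ≤ ‖deriv Q z‖ ^ p) →
        ∃ ζ : ℂ, ∀ v ∈ ball ζ (η / 2 ^ n), 1 < ‖v‖ ∧ ψ v ∈ Q '' Vq q ∧
          g' / 2 ^ n ≤ Real.log ‖v‖ ∧ Real.log ‖v‖ ≤ 3 / 2 ^ n ∧
          c0 * (2 ^ n) ^ p * m ≤ ‖deriv ψ v‖ ^ p := by
  obtain ⟨B, hB⟩ := exists_beta (d := 2) le_rfl
  obtain ⟨t1, t2, ρ, g, g', δ', ht1, ht12, ht2, hρ, hρ1, hg, hg', hδ', hgr⟩ := near_green P
  obtain ⟨cK, hcK, hkoebe⟩ := koebe_omit
  obtain ⟨CD, hCD, hdist⟩ := distortion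
  have hq1 := P.q1
  have hq2 := P.q2
  set E : Set ℂ := {z | 1 < ‖z‖} with hE
  have hEo : IsOpen E := isOpen_lt continuous_const continuous_norm
  set Cu : ℝ := 2 * Real.exp 4 / ρ * 3 with hCu
  have hCu0 : 0 < Cu := by positivity
  set C1 : ℝ := max (max Cu (1 / g)) 1 with hC1
  have hC11 : 1 ≤ C1 := le_max_right _ _
  have hCuC : Cu ≤ C1 := (le_max_left _ _).trans (le_max_left _ _)
  have hgC : 1 / g ≤ C1 := (le_max_right _ _).trans (le_max_left _ _)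
  set η : ℝ := cK * ρ * g / 4 with hη
  refine ⟨δ', η, CD ^ (-|p|) * C1 ^ (-|p|), g', hδ', by positivity, by positivity, hg', ?_⟩
  intro n Q m hQd hQ
  have h2n : (0 : ℝ) < 2 ^ n := by positivity
  have h2n1 : (1 : ℝ) ≤ 2 ^ n := one_le_pow₀ (by norm_num)
  set Φ : ℂ → ℂ := fun z => Function.invFunOn ψ E (Q z) with hΦ
  -- the discs
  have hVt : ∀ t ∈ Icc t1 t2, ∀ z ∈ ball ((t : ℂ) * I) ρ, z ∈ Vq q ∧ ‖z‖ ≤ 3 := by
    intro t ht z hz
    rw [mem_ball, dist_eq_norm] at hz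
    have h1 : ‖z - zz q‖ ≤ ‖z - t * I‖ + ‖(t : ℂ) * I - zz q‖ := norm_sub_le_norm_sub_add_norm_sub _ _ _
    have h2 : ‖(t : ℂ) * I - zz q‖ = t - q := by
      have : (t : ℂ) * I - zz q = ((t - q : ℝ) : ℂ) * I := by rw [zz]; push_cast; ring
      rw [this, norm_mul, norm_I, mul_one, norm_real, Real.norm_eq_abs, abs_of_nonneg]
      linarith [ht.1]
    have h3 := ht.2
    have h4 : ‖z - zz q‖ < 1 / 10 := by linarith
    refine ⟨by rw [Vq, mem_ball, dist_eq_norm]; exact h4, ?_⟩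
    have h5 : ‖z‖ ≤ ‖z - zz q‖ + ‖zz q‖ := by
      calc ‖z‖ = ‖(z - zz q) + zz q‖ := by rw [sub_add_cancel]
        _ ≤ _ := norm_add_le _ _
    have h6 : ‖zz q‖ = q := by
      rw [zz, norm_mul, norm_I, mul_one, norm_real, Real.norm_eq_abs, abs_of_pos (by linarith)]
    linarith
  -- the Green function at the branch
  have hgreen : ∀ z ∈ Vq q, green 2 (Q z) (Q z) = green 2 (Q z) z / 2 ^ n := by
    intro z hz
    have h1 := green_iter (Q z) (Q z) n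
    rw [(hQ z hz).2.1] at h1
    rw [h1]; field_simp
  have hmem : ∀ t ∈ Icc t1 t2, ∀ z ∈ ball ((t : ℂ) * I) ρ, Q z ∈ ψ '' E ∧ Φ z ∈ E ∧ ψ (Φ z) = Q z ∧
      Real.log ‖Φ z‖ = green 2 (Q z) z / 2 ^ n ∧ g' / 2 ^ n ≤ Real.log ‖Φ z‖ ∧
      Real.log ‖Φ z‖ ≤ 3 / 2 ^ n := by
    intro t ht z hz
    obtain ⟨hV, hz3⟩ := hVt t ht z hz
    obtain ⟨hc2, hc3, -, -⟩ := hgr (Q z) (hQ z hV).1
    have h1 := hc3 t ht z (ball_subset_closedBall hz)
    have h2 := hgreen z hV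
    have h3 : Q z ∈ ψ '' E := by
      rw [hψ.image]
      intro hM
      have h4 := green_mandel hM
      rw [h2] at h4
      have : 0 < green 2 (Q z) z / 2 ^ n := by
        have : 0 < green 2 (Q z) z := by linarith
        positivity
      linarith
    have h4 : Φ z ∈ E := invFunOn_mem h3
    have h5 : ψ (Φ z) = Q z := invFunOn_right h3
    have h6 : Real.log ‖Φ z‖ = green 2 (Q z) z / 2 ^ n := by
      rw [← h2, ← green_psi hB h4, ← exteriorMap_unique hB hψ h4, h5]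
    refine ⟨h3, h4, h5, h6, ?_, ?_⟩
    · rw [h6]; gcongr
    · rw [h6]
      have h7 := green_le_of hc2 0 (z := z) hz3
      rw [pow_zero, div_one] at h7
      gcongr
  have hder : ∀ t ∈ Icc t1 t2, ∀ z ∈ ball ((t : ℂ) * I) ρ,
      HasDerivAt Φ ((deriv ψ (Φ z))⁻¹ * deriv Q z) z := by
    intro t ht z hz
    obtain ⟨h1, h2, h3, -⟩ := hmem t ht z hz
    have h4 := Pool.Agent.Helper265.Br.hasDerivAt_inv hEo hψ.diff hψ.inj h2
    rw [h3] at h4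
    have h5 : HasDerivAt Q (deriv Q z) z :=
      (hQd.differentiableAt (isOpen_ball.mem_nhds (hVt t ht z hz).1)).hasDerivAt
    exact h4.comp z h5
  have hself : ∀ t : ℝ, (t : ℂ) * I ∈ ball ((t : ℂ) * I) ρ := fun t => mem_ball_self hρ
  -- a point with large derivative
  obtain ⟨t, ht, hlow⟩ : ∃ t ∈ Icc t1 t2, g / 2 ^ n ≤ ‖deriv Φ ((t : ℂ) * I)‖ := by
    by_contra hcon
    push Not at hcon
    have h1 : ∀ t ∈ Icc t1 t2, HasDerivWithinAt (fun t : ℝ => Φ ((t : ℂ) * I))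
        (deriv Φ ((t : ℂ) * I) * I) (Icc t1 t2) t := by
      intro t ht
      have h2 : HasDerivAt Φ (deriv Φ ((t : ℂ) * I)) ((t : ℂ) * I) :=
        (hder t ht _ (hself t)).differentiableAt.hasDerivAt
      have h3 : HasDerivAt (fun t : ℝ => (t : ℂ) * I) I t := by
        simpa using (Complex.ofRealCLM.hasDerivAt (x := t)).mul_const I
      have h4 := h2.scomp t h3
      rw [smul_eq_mul, mul_comm] at h4
      exact h4.hasDerivWithinAt
    have h2 := norm_image_sub_le_of_norm_deriv_le_segment' h1 (C := g / 2 ^ n) (fun t ht => by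
      rw [norm_mul, norm_I, mul_one]
      exact (hcon t ⟨ht.1, ht.2.le⟩).le) t2 (right_mem_Icc.2 ht12.le)
    have m1 : t1 ∈ Icc t1 t2 := left_mem_Icc.2 ht12.le
    have m2 : t2 ∈ Icc t1 t2 := right_mem_Icc.2 ht12.le
    obtain ⟨-, a2, -, a4, -⟩ := hmem t1 m1 _ (hself t1)
    obtain ⟨-, b2, -, b4, -⟩ := hmem t2 m2 _ (hself t2)
    have a5 := (hgr (Q ((t1 : ℂ) * I)) (hQ _ (hVt t1 m1 _ (hself t1)).1).1).2.2.1
    have b5 := (hgr (Q ((t2 : ℂ) * I)) (hQ _ (hVt t2 m2 _ (hself t2)).1).1).2.2.2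
    have a6 : Real.log ‖Φ ((t1 : ℂ) * I)‖ ≤ g / 2 / 2 ^ n := by rw [a4]; gcongr
    have b6 : g / 2 ^ n ≤ Real.log ‖Φ ((t2 : ℂ) * I)‖ := by rw [b4]; gcongr
    have hgn : 0 < g / 2 ^ n := by positivity
    have e1 : g / 2 / 2 ^ n = (g / 2 ^ n) / 2 := by ring
    rw [e1] at a6
    have h3 := sub_log_le (x := ‖Φ ((t2 : ℂ) * I)‖) (y := ‖Φ ((t1 : ℂ) * I)‖)
      (le_of_lt a2) (by linarith) (lt_trans one_pos b2)
    have h4 := norm_sub_norm_le (Φ ((t2 : ℂ) * I)) (Φ ((t1 : ℂ) * I))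
    have h5 : t2 - t1 ≤ 1 / 20 := by linarith
    have h6 : g / 2 ^ n * (t2 - t1) ≤ g / 2 ^ n * (1 / 20) := by gcongr
    linarith
  set zw : ℂ := (t : ℂ) * I with hzw
  set ζ : ℂ := Φ zw with hζ
  have hΦd : DifferentiableOn ℂ Φ (ball zw ρ) := fun z hz =>
    (hder t ht z hz).differentiableAt.differentiableWithinAt
  have hΦi : InjOn Φ (ball zw ρ) := by
    intro x hx y hy hxy
    have h1 : Q x = Q y := by
      rw [← (hmem t ht x hx).2.2.1, ← (hmem t ht y hy).2.2.1, hxy]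
    have h2 := (hQ x (hVt t ht x hx).1).2.1
    rw [h1, (hQ y (hVt t ht y hy).1).2.1] at h2
    exact h2.symm
  have hup : ‖deriv Φ zw‖ ≤ Cu / 2 ^ n := by
    have h1 := deriv_upper (Φ := Φ) (z := zw) (A := 3 / 2 ^ n) hρ (by positivity)
      (div_le_self (by norm_num) h2n1) hΦd (fun w hw => by
        obtain ⟨-, h2, -, -, -, h3⟩ := hmem t ht w hw
        exact ⟨h2, h3⟩)
    calc _ ≤ _ := h1
      _ = _ := by rw [hCu]; ring
  have hzwb : zw ∈ ball zw ρ := mem_ball_self hρ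
  have hψζ : deriv ψ ζ ≠ 0 := Pool.Agent.Helper265.Br.deriv_ne_zero hEo hψ.diff hψ.inj
    (hmem t ht zw hzwb).2.1
  have hQ0 : deriv Q zw ≠ 0 := (hQ zw (hVt t ht zw hzwb).1).2.2.1
  have hΦ' : deriv Φ zw = (deriv ψ ζ)⁻¹ * deriv Q zw := (hder t ht zw hzwb).deriv
  have hn1 : 0 < ‖deriv ψ ζ‖ := norm_pos_iff.2 hψζ
  have hn2 : 0 < ‖deriv Q zw‖ := norm_pos_iff.2 hQ0
  have hprod : ‖deriv Φ zw‖ * ‖deriv ψ ζ‖ = ‖deriv Q zw‖ := by
    rw [hΦ', norm_mul, norm_inv]; field_simp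
  -- comparison
  have hcomp : C1 ^ (-|p|) * (2 ^ n * ‖deriv Q zw‖) ^ p ≤ ‖deriv ψ ζ‖ ^ p := by
    apply rpow_comp hC11 hn1 (by positivity)
    · rw [← hprod]
      have h1 : g / 2 ^ n * ‖deriv ψ ζ‖ ≤ ‖deriv Φ zw‖ * ‖deriv ψ ζ‖ := by gcongr
      have h2 : ‖deriv ψ ζ‖ = (1 / g) * (2 ^ n * (g / 2 ^ n * ‖deriv ψ ζ‖)) := by field_simp
      calc ‖deriv ψ ζ‖ = (1 / g) * (2 ^ n * (g / 2 ^ n * ‖deriv ψ ζ‖)) := h2
        _ ≤ C1 * (2 ^ n * (‖deriv Φ zw‖ * ‖deriv ψ ζ‖)) := by gcongr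
    · rw [← hprod]
      calc 2 ^ n * (‖deriv Φ zw‖ * ‖deriv ψ ζ‖) ≤ 2 ^ n * (Cu / 2 ^ n * ‖deriv ψ ζ‖) := by gcongr
        _ = Cu * ‖deriv ψ ζ‖ := by field_simp
        _ ≤ _ := by gcongr
  -- the disc around `ζ`
  have hdisc : ball ζ (cK * ρ * g / 2 ^ n) ⊆ Φ '' ball zw ρ := by
    intro v hv
    by_contra hcon
    have h1 := hkoebe Φ zw ρ hρ hΦd hΦi v hcon
    rw [mem_ball, dist_eq_norm, ← norm_neg, neg_sub] at hv
    have h2 : cK * ρ * g / 2 ^ n ≤ cK * ρ * ‖deriv Φ zw‖ := by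
      calc cK * ρ * g / 2 ^ n = cK * ρ * (g / 2 ^ n) := by ring
        _ ≤ _ := by gcongr
    linarith
  have hbig : ∀ v ∈ ball ζ (cK * ρ * g / 2 ^ n), 1 < ‖v‖ ∧ ψ v ∈ Q '' Vq q ∧
      g' / 2 ^ n ≤ Real.log ‖v‖ ∧ Real.log ‖v‖ ≤ 3 / 2 ^ n := by
    intro v hv
    obtain ⟨z, hz, rfl⟩ := hdisc hv
    obtain ⟨-, h2, h3, -, h5, h6⟩ := hmem t ht z hz
    exact ⟨h2, ⟨z, (hVt t ht z hz).1, h3.symm⟩, h5, h6⟩
  refine ⟨ζ, fun v hv => ?_⟩
  have hηr : η / 2 ^ n = (cK * ρ * g / 2 ^ n) / 4 := by rw [hη]; ring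
  have hR : 0 < cK * ρ * g / 2 ^ n := by positivity
  rw [hηr] at hv
  have hv' : v ∈ ball ζ (cK * ρ * g / 2 ^ n) := ball_subset_ball (by linarith) hv
  obtain ⟨h1, h2, h3, h4⟩ := hbig v hv'
  refine ⟨h1, h2, h3, h4, ?_⟩
  have hsub : ball ζ (cK * ρ * g / 2 ^ n) ⊆ E := fun w hw => (hbig w hw).1
  rw [mem_ball, dist_eq_norm] at hv
  obtain ⟨d1, d2⟩ := hdist ψ ζ (cK * ρ * g / 2 ^ n) hR (hψ.diff.mono hsub) (hψ.inj.mono hsub) v hv.le
  have hn3 : 0 < ‖deriv ψ v‖ := norm_pos_iff.2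
    (Pool.Agent.Helper265.Br.deriv_ne_zero hEo hψ.diff hψ.inj h1)
  have h5 := rpow_comp (p := p) hCD hn3 hn1 d1 d2
  have h6 : (2 ^ n) ^ p * m ≤ (2 ^ n * ‖deriv Q zw‖) ^ p := by
    rw [Real.mul_rpow h2n.le hn2.le]
    exact mul_le_mul_of_nonneg_left (hQ zw (hVt t ht zw hzwb).1).2.2.2 (by positivity)
  calc CD ^ (-|p|) * C1 ^ (-|p|) * (2 ^ n) ^ p * m
      = CD ^ (-|p|) * (C1 ^ (-|p|) * ((2 ^ n) ^ p * m)) := by ring
    _ ≤ CD ^ (-|p|) * (C1 ^ (-|p|) * (2 ^ n * ‖deriv Q zw‖) ^ p) := by gcongr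
    _ ≤ CD ^ (-|p|) * ‖deriv ψ ζ‖ ^ p := by gcongr
    _ ≤ _ := h5

end Pool.Agent.TH363.IM
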