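import Pool.Agent.TH363.IM.Fam

/-!
# Persistence of the family of words for nearby parameters
-/

set_option autoImplicit false

open Set Metric Filter Topology Complex

namespace Pool.Agent.TH363.IM

/-- the disc `V` -/
def Vq (q : ℝ) : Set ℂ := ball (zz q) (1 / 10)

theorem rpow_comp {C u v p : ℝ} (hC : 1 ≤ C) (hu : 0 < u) (hv : 0 < v) (h1 : u ≤ C * v)
    (h2 : v ≤ C * u) : C ^ (-|p|) * v ^ p ≤ u ^ p := by
  have hC0 : 0 < C := by linarith
  rcases le_or_gt 0 p with hp | hp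
  · rw [abs_of_nonneg hp]
    have h3 : v ^ p ≤ C ^ p * u ^ p := by
      rw [← Real.mul_rpow hC0.le hu.le]
      exact Real.rpow_le_rpow hv.le h2 hp
    calc C ^ (-p) * v ^ p ≤ C ^ (-p) * (C ^ p * u ^ p) := by gcongr
      _ = (C ^ (-p) * C ^ p) * u ^ p := by ring
      _ = u ^ p := by rw [← Real.rpow_add hC0]; simp
  · rw [abs_of_neg hp, neg_neg, ← Real.mul_rpow hC0.le hv.le]
    exact Real.rpow_le_rpow_of_nonpos hu h1 hp.le

theorem per {a b β q : ℝ} (P : Par a b β q) {p : ℝ} (hp : p ≠ 0) {ε : ℝ}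
    (hε : (2 : ℝ) ^ (2 * ε) < Real.cosh (p / 5)) (Λ : ℝ) :
    ∃ N : ℕ, 1 ≤ N ∧ ∃ (J : Finset (List Bool)) (μ : List Bool → ℝ) (δ : ℝ), 0 < δ ∧
      (∀ τ ∈ J, τ.length = N ∧ 0 < μ τ) ∧
      (∀ τ ∈ J, ∀ c ∈ ball (a : ℂ) δ, ∀ z ∈ Vq q, Good c τ z ∧ br c τ z ∈ Vq q ∧
        ‖dbr c τ z‖ ≤ 1 / 2 ∧ μ τ ≤ ‖dbr c τ z‖ ^ p) ∧
      Λ * (2 ^ (1 - p + ε)) ^ N ≤ ∑ τ ∈ J, μ τ := by
  obtain ⟨C, hC1, hdist⟩ := Pool.Agent.Helper265.Br.distortion
  have hC0 : 0 < C := by linarith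
  have hq1 := P.q1
  have hq2 := P.q2
  obtain ⟨N, hN, J, hJl, hJm, hJs⟩ := fam P hp hε (Λ * (2 * C ^ |p|))
  set μ : List Bool → ℝ := fun τ => 1 / 2 * (C ^ (-|p|) * ‖dbr a τ (zz q)‖ ^ p) with hμ
  have hz0 : zz q ∈ ball (zz q) q := mem_ball_self (by linarith)
  have hd : ∀ τ : List Bool, ∀ z ∈ ball (zz q) q, HasDerivAt (br a τ) (dbr a τ z) z :=
    fun τ z hz => hasDerivAt_br (good_Dm P τ (ball_Dm P hz).1)
  have hpos : ∀ τ : List Bool, ∀ z ∈ ball (zz q) q, 0 < ‖dbr a τ z‖ := fun τ z hz =>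
    norm_pos_iff.2 (dbr_ne (good_Dm P τ (ball_Dm P hz).1))
  have hsub : closedBall (zz q) (1 / 10) ⊆ ball (zz q) q := closedBall_subset_ball (by linarith)
  have key : ∀ τ ∈ J, ∀ z ∈ closedBall (zz q) (1 / 10), μ τ < ‖dbr a τ z‖ ^ p ∧
      ‖dbr a τ z‖ < 1 / 2 := by
    intro τ hτ z hz
    have hdo : DifferentiableOn ℂ (br a τ) (ball (zz q) q) := fun x hx =>
      (hd τ x hx).differentiableAt.differentiableWithinAt
    have hio : InjOn (br a τ) (ball (zz q) q) := by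
      intro x _ y _ h
      have h1 := congrArg ((fc a)^[τ.length]) h
      rwa [iter_br, iter_br] at h1
    have hzn : ‖z - zz q‖ ≤ q / 4 := by
      rw [mem_closedBall, dist_eq_norm] at hz
      linarith
    obtain ⟨h1, h2⟩ := hdist (br a τ) (zz q) q (by linarith) hdo hio z hzn
    rw [(hd τ z (hsub hz)).deriv, (hd τ _ hz0).deriv] at h1 h2
    constructor
    · have h3 := rpow_comp (p := p) hC1 (hpos τ z (hsub hz)) (hpos τ _ hz0) h1 h2
      have h4 : 0 < C ^ (-|p|) * ‖dbr a τ (zz q)‖ ^ p := by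
        have := hpos τ _ hz0
        positivity
      simp only [hμ]
      linarith
    · have h3 : ‖deriv (fun x => br a τ x - zz q) z‖ ≤ (1 / 40) / (2 / 5) := by
        apply norm_deriv_le_of_forall_mem_sphere_norm_le (by norm_num)
        · apply DiffContOnCl.mk_ball
          · intro x hx
            have hx' : x ∈ ball (zz q) q := by
              rw [mem_closedBall] at hz
              rw [mem_ball] at hx ⊢
              have := dist_triangle x z (zz q)
              linarith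
            exact ((hd τ x hx').differentiableAt.sub_const _).differentiableWithinAt
          · intro x hx
            have hx' : x ∈ ball (zz q) q := by
              rw [mem_closedBall] at hz hx
              rw [mem_ball]
              have := dist_triangle x z (zz q)
              linarith
            exact ((hd τ x hx').differentiableAt.sub_const _).continuousAt.continuousWithinAt
        · intro x hx
          have hx' : x ∈ ball (zz q) q := by
            rw [mem_closedBall] at hz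
            rw [mem_sphere] at hx
            rw [mem_ball]
            have := dist_triangle x z (zz q)
            linarith
          have := hJm τ hτ x hx'
          rw [mem_ball, dist_eq_norm] at this
          exact this.le
      rw [((hd τ z (hsub hz)).sub_const _).deriv] at h3
      linarith
  have hev : ∀ τ ∈ J, ∀ᶠ c in 𝓝 (a : ℂ), ∀ z ∈ closedBall (zz q) (1 / 10),
      Good c τ z ∧ br c τ z ∈ Vq q ∧ ‖dbr c τ z‖ < 1 / 2 ∧ μ τ < ‖dbr c τ z‖ ^ p := by
    intro τ hτ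
    apply (isCompact_closedBall (zz q) (1 / 10)).eventually_forall_of_forall_eventually
      (P := fun c z => Good c τ z ∧ br c τ z ∈ Vq q ∧ ‖dbr c τ z‖ < 1 / 2 ∧ μ τ < ‖dbr c τ z‖ ^ p)
    intro z hz
    have hg : Good a τ z := good_Dm P τ (ball_Dm P (hsub hz)).1
    have h1 : ∀ᶠ x : ℂ × ℂ in 𝓝 ((a : ℂ), z), Good x.1 τ x.2 :=
      (isOpen_good τ).mem_nhds hg
    have c1 := (br_joint τ (p := ((a : ℂ), z)) hg).continuousAt
    have c2 := (dbr_joint τ (p := ((a : ℂ), z)) hg).norm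
    have h2 : ∀ᶠ x : ℂ × ℂ in 𝓝 ((a : ℂ), z), br x.1 τ x.2 ∈ Vq q := by
      apply c1.eventually_mem
      apply isOpen_ball.mem_nhds
      exact ball_subset_ball (by norm_num) (hJm τ hτ z (hsub hz))
    obtain ⟨k1, k2⟩ := key τ hτ z hz
    have h3 : ∀ᶠ x : ℂ × ℂ in 𝓝 ((a : ℂ), z), ‖dbr x.1 τ x.2‖ < 1 / 2 :=
      c2.eventually (gt_mem_nhds k2)
    have h4 : ∀ᶠ x : ℂ × ℂ in 𝓝 ((a : ℂ), z), μ τ < ‖dbr x.1 τ x.2‖ ^ p := by
      have c3 := c2.rpow_const (p := p) (Or.inl (hpos τ z (hsub hz)).ne')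
      exact c3.eventually (lt_mem_nhds k1)
    filter_upwards [h1, h2, h3, h4] with x a1 a2 a3 a4 using ⟨a1, a2, a3, a4⟩
  rw [← Filter.eventually_all_finset] at hev
  obtain ⟨δ, hδ, h⟩ := Metric.eventually_nhds_iff_ball.1 hev
  refine ⟨N, hN, J, μ, δ, hδ, ?_, ?_, ?_⟩
  · intro τ hτ
    refine ⟨hJl τ hτ, ?_⟩
    have := hpos τ _ hz0
    simp only [hμ]; positivity
  · intro τ hτ c hc z hz
    obtain ⟨h1, h2, h3, h4⟩ := h c hc τ hτ z (ball_subset_closedBall hz)
    exact ⟨h1, h2, h3.le, h4.le⟩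
  · simp only [hμ]
    rw [← Finset.mul_sum, ← Finset.mul_sum]
    have h1 : C ^ (-|p|) * C ^ |p| = 1 := by rw [← Real.rpow_add hC0]; simp
    calc Λ * (2 ^ (1 - p + ε)) ^ N = 1 / 2 * (C ^ (-|p|) * ((Λ * (2 * C ^ |p|)) * (2 ^ (1 - p + ε)) ^ N)) := by
          linear_combination (-(Λ * (2 ^ (1 - p + ε)) ^ N)) * h1
      _ ≤ _ := by gcongr

end Pool.Agent.TH363.IM
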