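import Pool.Agent.TH363.IM.Grow

/-!
# Words that return to a fixed disc
-/

set_option autoImplicit false

open Set Metric Filter Topology Complex

namespace Pool.Agent.TH363.IM

/-- the sign of a word -/
noncomputable def sgr : List Bool → ℝ
  | [] => 1
  | s :: σ => (if s then 1 else -1) * sgr σ

theorem sgr_append (σ τ : List Bool) : sgr (σ ++ τ) = sgr σ * sgr τ := by
  induction σ with
  | nil => simp [sgr]
  | cons s σ ih => change _ * sgr (σ ++ τ) = _ * sgr σ * sgr τ; rw [ih]; ring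

theorem sgr_cases (σ : List Bool) : sgr σ = 1 ∨ sgr σ = -1 := by
  induction σ with
  | nil => left; rfl
  | cons s σ ih =>
    change (if s then 1 else -1) * sgr σ = 1 ∨ (if s then 1 else -1) * sgr σ = -1
    rcases ih with h | h <;> cases s <;> simp [h]

theorem step_Dm {a b β q : ℝ} (P : Par a b β q) (s : Bool) {z : ℂ} (h : z ∈ Dm) :
    sg s * sq (z - a) ∈ Dm := by
  have h1 := sq_Dm P h
  cases s
  · simpa [sg] using neg_Dm h1
  · simpa [sg] using h1

theorem step_im {s : Bool} {a : ℝ} {z : ℂ} (h : z ∈ Dm) :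
    0 < (if s then 1 else -1) * (sg s * sq (z - a)).im * z.im := by
  have h1 : (z - (a : ℂ)).im ≠ 0 := by simpa using h.1
  have h2 := sq_re_pos h1
  have h3 := sq_im_ne h1
  have h4 := sq_im_sq (z - (a : ℂ))
  have h5 : (z - (a : ℂ)).im = z.im := by simp
  rw [h5] at h4
  have h6 : 0 < (sq (z - (a : ℂ))).im * z.im := by
    rw [← h4]
    have : 0 < (sq (z - (a : ℂ))).im ^ 2 := by positivity
    nlinarith
  cases s
  · have : (sg false * sq (z - (a : ℂ))).im = -(sq (z - (a : ℂ))).im := by simp [sg]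
    rw [this]; simp only [Bool.false_eq_true, if_false]; linarith
  · have : (sg true * sq (z - (a : ℂ))).im = (sq (z - (a : ℂ))).im := by simp [sg]
    rw [this]; simp only [if_true]; linarith

theorem br_Dm {a b β q : ℝ} (P : Par a b β q) (σ : List Bool) {z : ℂ} (h : z ∈ Dm) :
    br a σ z ∈ Dm := by
  induction σ generalizing z with
  | nil => exact h
  | cons s σ ih => exact ih (step_Dm P s h)

theorem br_im {a b β q : ℝ} (P : Par a b β q) (σ : List Bool) {z : ℂ} (h : z ∈ Dm) :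
    0 < sgr σ * (br a σ z).im * z.im := by
  induction σ generalizing z with
  | nil =>
    have : 0 < z.im ^ 2 := by have := h.1; positivity
    simp only [sgr, br]; nlinarith
  | cons s σ ih =>
    have h1 := ih (step_Dm P s h)
    have h2 := step_im (s := s) (a := a) h
    have h0 := (step_Dm P s h).1
    have h3 := mul_pos h1 h2
    change 0 < ((if s then 1 else -1) * sgr σ) * (br a σ (sg s * sq (z - a))).im * z.im
    set X := (br a σ (sg s * sq (z - a))).im
    set Y := (sg s * sq (z - (a : ℂ))).im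
    have h4 : 0 < Y ^ 2 := by positivity
    by_contra hc
    push Not at hc
    have h5 : sgr σ * X * Y * ((if s then 1 else -1) * Y * z.im) =
      Y ^ 2 * ((if s then 1 else -1) * sgr σ * X * z.im) := by ring
    rw [h5] at h3
    nlinarith

theorem good_Dm {a b β q : ℝ} (P : Par a b β q) (σ : List Bool) {z : ℂ} (h : z ∈ Dm) :
    Good a σ z := by
  induction σ generalizing z with
  | nil => trivial
  | cons s σ ih =>
    refine ⟨?_, ih (step_Dm P s h)⟩
    rw [mem_slitPlane_iff]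
    right
    simpa using h.1

/-- close a word with the letter making the sign positive -/
noncomputable def cl (ρ : List Bool) : List Bool := ρ ++ [decide (0 < sgr ρ)]

theorem cl_sgr (ρ : List Bool) : sgr (cl ρ) = 1 := by
  rw [cl, sgr_append]
  rcases sgr_cases ρ with h | h <;> rw [h] <;> norm_num [sgr]

theorem cl_im {a b β q : ℝ} (P : Par a b β q) (ρ : List Bool) {z : ℂ} (h : z ∈ Dm)
    (hz : 0 < z.im) : 0 < (br a (cl ρ) z).im := by
  have := br_im P (cl ρ) h
  rw [cl_sgr, one_mul] at this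
  exact (mul_pos_iff_of_pos_right hz).1 this

theorem plus_step {a b β q : ℝ} (P : Par a b β q) (y : ℂ) :
    ‖sq (y - a) - (β : ℂ)‖ ≤ ‖y - (β : ℂ)‖ / β := by
  have hβ := P.β1
  have h0 : 0 < β := by linarith
  rw [le_div_iff₀ h0]
  have h1 : (β : ℂ) ^ 2 + a = β := by exact_mod_cast congrArg (fun x : ℝ => (x : ℂ)) P.hβ
  have h2 : (sq (y - a) - (β : ℂ)) * (sq (y - a) + (β : ℂ)) = y - β := by
    linear_combination sq_sq (y - a) - h1
  rw [← h2, norm_mul]
  refine mul_le_mul_of_nonneg_left ?_ (norm_nonneg _)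
  have h3 := abs_re_le_norm (sq (y - a) + (β : ℂ))
  have h4 := sq_re_nonneg (y - a)
  rw [add_re, ofReal_re] at h3
  have := le_abs_self ((sq (y - a)).re + β)
  linarith

/-- repeated `+` -/
def pl (k : ℕ) : List Bool := List.replicate k true

theorem pl_near {a b β q : ℝ} (P : Par a b β q) (k : ℕ) (y : ℂ) :
    ‖br a (pl k) y - (β : ℂ)‖ ≤ ‖y - (β : ℂ)‖ / β ^ k := by
  have h0 : 0 < β := by have := P.β1; linarith
  induction k generalizing y with
  | zero => simp [pl, br]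
  | succ k ih =>
    have h1 := ih (sg true * sq (y - a))
    have h2 : sg true * sq (y - a) = sq (y - a) := by simp [sg]
    change ‖br a (pl k) (sg true * sq (y - a)) - (β : ℂ)‖ ≤ _
    refine h1.trans ?_
    rw [h2, div_le_div_iff₀ (by positivity) (by positivity)]
    have h3 := plus_step P y
    rw [le_div_iff₀ h0] at h3
    calc ‖sq (y - a) - (β : ℂ)‖ * β ^ (k + 1) = (‖sq (y - a) - (β : ℂ)‖ * β) * β ^ k := by ring
      _ ≤ _ := by gcongr

/-- the point `i q` -/
noncomputable def zz (q : ℝ) : ℂ := q * I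

theorem zz_sq {a b β q : ℝ} (P : Par a b β q) : zz q ^ 2 + a = -β := by
  have h1 : (q : ℂ) ^ 2 = a + β := by exact_mod_cast congrArg (fun x : ℝ => (x : ℂ)) P.hq
  rw [zz, mul_pow, I_sq, h1]; ring

theorem y1_near {a b β q : ℝ} (P : Par a b β q) (k : ℕ) {y : ℂ} (hy : y ∈ Dm) :
    ‖br a (pl k ++ [false]) y + (β : ℂ)‖ ≤ 5 / β ^ (k + 1) := by
  have h0 : 0 < β := by have := P.β1; linarith
  rw [br_append]
  set x := br a (pl k) y
  have h1 : br a [false] x = -sq (x - a) := by simp [br, sg]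
  rw [h1]
  have h2 : ‖-sq (x - a) + (β : ℂ)‖ = ‖sq (x - a) - (β : ℂ)‖ := by
    rw [← norm_neg]; congr 1; ring
  rw [h2]
  have h3 := plus_step P x
  have h4 := pl_near P k y
  have h5 : ‖y - (β : ℂ)‖ ≤ 5 := by
    have := norm_sub_Dm (x := β) hy (by rw [abs_of_pos h0]; exact P.β2.le)
    linarith
  calc _ ≤ ‖x - (β : ℂ)‖ / β := h3
    _ ≤ (‖y - (β : ℂ)‖ / β ^ k) / β := by gcongr
    _ ≤ (5 / β ^ k) / β := by gcongr
    _ = _ := by rw [div_div, pow_succ]

theorem land {a b β q : ℝ} (P : Par a b β q) (k : ℕ) (σ : List Bool) {z : ℂ} (hz : z ∈ Dm)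
    (h0 : 0 < z.im) :
    ‖br a (cl (σ ++ (pl k ++ [false]))) z - zz q‖ ≤ 5 / β ^ (k + 1) / q := by
  have him := cl_im P (σ ++ (pl k ++ [false])) hz h0
  have hq := P.q1
  have hq0 : 0 < q := by linarith
  set s := decide (0 < sgr (σ ++ (pl k ++ [false]))) with hs
  have h1 : br a (cl (σ ++ (pl k ++ [false]))) z =
      sg s * sq (br a (pl k ++ [false]) (br a σ z) - a) := by
    rw [cl, br_append, br_append]; rfl
  rw [h1] at him ⊢
  set y1 := br a (pl k ++ [false]) (br a σ z) with hy1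
  set x := sg s * sq (y1 - a) with hx
  have h2 : x ^ 2 = y1 - a := by rw [hx, mul_pow, sg_sq, sq_sq, one_mul]
  have h3 : (x - zz q) * (x + zz q) = y1 + β := by
    linear_combination h2 - zz_sq P
  have h4 := y1_near P k (br_Dm P σ hz)
  rw [← hy1, ← h3, norm_mul] at h4
  rw [le_div_iff₀ hq0]
  refine le_trans ?_ h4
  refine mul_le_mul_of_nonneg_left ?_ (norm_nonneg _)
  have h5 := abs_im_le_norm (x + zz q)
  have h6 : (x + zz q).im = x.im + q := by simp [zz]
  rw [h6] at h5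
  have := le_abs_self (x.im + q)
  linarith

theorem dbr_norm_cons (a : ℂ) (s : Bool) (τ : List Bool) (y : ℂ) :
    ‖dbr a (s :: τ) y‖ = ‖dbr a τ (sg s * sq (y - a))‖ * (1 / (2 * ‖sq (y - a)‖)) := by
  change ‖dbr a τ (sg s * sq (y - a)) * (sg s / (2 * sq (y - a)))‖ = _
  rw [norm_mul, norm_div, norm_sg, norm_mul, Complex.norm_two]

theorem fac_ge {a b β q : ℝ} (P : Par a b β q) {y : ℂ} (h : y ∈ Dm) :
    1 / 5 ≤ 1 / (2 * ‖sq (y - a)‖) := by
  have hy := sq_Dm P h
  have h0 : 0 < ‖sq (y - a)‖ := norm_pos_iff.2 (fun h0 => hy.1 (by rw [h0]; rfl))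
  apply one_div_le_one_div_of_le (by positivity)
  have h3 := norm_sub_Dm_a P h
  have h4 := norm_sq_sq (y - a)
  nlinarith

theorem dbr_ge {a b β q : ℝ} (P : Par a b β q) (τ : List Bool) {y : ℂ} (h : y ∈ Dm) :
    (1 / 5) ^ τ.length ≤ ‖dbr a τ y‖ := by
  induction τ generalizing y with
  | nil => simp [dbr]
  | cons s τ ih =>
    rw [dbr_norm_cons, List.length_cons, pow_succ]
    exact mul_le_mul (ih (step_Dm P s h)) (fac_ge P h) (by norm_num) (norm_nonneg _)

theorem E1 {a b β q : ℝ} (P : Par a b β q) (s : Bool) (τ : List Bool) {y : ℂ} (h : y ∈ Dm) :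
    (1 / 5) ^ (τ.length + 1) ≤ ‖dbr a (s :: τ) y‖ * √‖y - (a : ℂ)‖ := by
  rw [dbr_norm_cons, norm_sq_eq]
  have h0 : 0 < √‖y - (a : ℂ)‖ := Real.sqrt_pos.2 (norm_sub_pos h a)
  have h1 := dbr_ge P τ (step_Dm P s h)
  have h2 : ‖dbr a τ (sg s * sq (y - a))‖ * (1 / (2 * √‖y - (a : ℂ)‖)) * √‖y - (a : ℂ)‖ =
      ‖dbr a τ (sg s * sq (y - a))‖ * (1 / 2) := by field_simp
  rw [h2, pow_succ]
  exact mul_le_mul h1 (by norm_num) (by norm_num) (norm_nonneg _)

theorem E2 {a b β q : ℝ} (P : Par a b β q) (s : Bool) (τ : List Bool) {y : ℂ} (h : y ∈ Dm) :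
    (1 / 5) ^ (τ.length + 2) ≤ ‖dbr a (false :: s :: τ) y‖ * √‖y - (b : ℂ)‖ := by
  have h1 := E1 P s τ (step_Dm P false h)
  have h2 : sg false * sq (y - (a : ℂ)) = -sq (y - a) := by simp [sg]
  have h3 : ‖sg false * sq (y - (a : ℂ)) - a‖ ≤ ‖y - (b : ℂ)‖ := by
    rw [h2]
    have h4 : ‖-sq (y - (a : ℂ)) - a‖ = ‖sq (y - (a : ℂ)) + a‖ := by
      rw [← norm_neg]; congr 1; ring
    rw [h4]
    have h5 : (sq (y - (a : ℂ)) + a) * (sq (y - (a : ℂ)) - a) = y - b := by
      have : (b : ℂ) = (a : ℂ) ^ 2 + a := by rw [P.hb]; push_cast; ring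
      rw [this]; linear_combination sq_sq (y - (a : ℂ))
    rw [← h5, norm_mul]
    refine le_mul_of_one_le_right (norm_nonneg _) ?_
    have h6 := abs_re_le_norm (sq (y - (a : ℂ)) - a)
    rw [sub_re, ofReal_re] at h6
    have h7 := sq_re_nonneg (y - (a : ℂ))
    have := P.a2
    have := le_abs_self ((sq (y - (a : ℂ))).re - a)
    linarith
  rw [dbr_norm_cons (s := false)]
  have h8 : √‖sg false * sq (y - (a : ℂ)) - a‖ ≤ √‖y - (b : ℂ)‖ := Real.sqrt_le_sqrt h3
  calc (1 / 5 : ℝ) ^ (τ.length + 2) = (1 / 5) ^ (τ.length + 1) * (1 / 5) := by rw [← pow_succ]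
    _ ≤ (‖dbr a (s :: τ) (sg false * sq (y - (a : ℂ)))‖ * √‖sg false * sq (y - (a : ℂ)) - a‖) *
        (1 / (2 * ‖sq (y - (a : ℂ))‖)) := mul_le_mul h1 (fac_ge P h) (by norm_num) (by positivity)
    _ ≤ (‖dbr a (s :: τ) (sg false * sq (y - (a : ℂ)))‖ * √‖y - (b : ℂ)‖) *
        (1 / (2 * ‖sq (y - (a : ℂ))‖)) := by gcongr
    _ = _ := by ring

theorem E3 {a b β q : ℝ} (P : Par a b β q) (s : Bool) (τ : List Bool) {y : ℂ} (h : y ∈ Dm) :
    (1 / 5) ^ (τ.length + 3) ≤ ‖dbr a (true :: false :: s :: τ) y‖ * √(2 * ‖y + (b : ℂ)‖) := by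
  have h1 := E2 P s τ (step_Dm P true h)
  have h2 : sg true * sq (y - (a : ℂ)) = sq (y - a) := by simp [sg]
  have h3 : ‖sg true * sq (y - (a : ℂ)) - b‖ ≤ 2 * ‖y + (b : ℂ)‖ := by
    rw [h2]
    have h5 : (sq (y - (a : ℂ)) - b) * (sq (y - (a : ℂ)) + b) = y + b := by
      have : (b : ℂ) ^ 2 + a = -b := by exact_mod_cast congrArg (fun x : ℝ => (x : ℂ)) P.eq
      linear_combination sq_sq (y - (a : ℂ)) - this
    rw [← h5, norm_mul]
    have h6 := abs_re_le_norm (sq (y - (a : ℂ)) + b)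
    rw [add_re, ofReal_re] at h6
    have h7 := sq_re_nonneg (y - (a : ℂ))
    have := P.b1
    have := le_abs_self ((sq (y - (a : ℂ))).re + b)
    have h8 : 1 ≤ 2 * ‖sq (y - (a : ℂ)) + b‖ := by linarith
    calc ‖sq (y - (a : ℂ)) - b‖ ≤ ‖sq (y - (a : ℂ)) - b‖ * (2 * ‖sq (y - (a : ℂ)) + b‖) :=
          le_mul_of_one_le_right (norm_nonneg _) h8
      _ = _ := by ring
  rw [dbr_norm_cons (s := true)]
  have h8 : √‖sg true * sq (y - (a : ℂ)) - b‖ ≤ √(2 * ‖y + (b : ℂ)‖) := Real.sqrt_le_sqrt h3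
  calc (1 / 5 : ℝ) ^ (τ.length + 3) = (1 / 5) ^ (τ.length + 2) * (1 / 5) := by rw [← pow_succ]
    _ ≤ (‖dbr a (false :: s :: τ) (sg true * sq (y - (a : ℂ)))‖ *
          √‖sg true * sq (y - (a : ℂ)) - b‖) *
        (1 / (2 * ‖sq (y - (a : ℂ))‖)) := mul_le_mul h1 (fac_ge P h) (by norm_num) (by positivity)
    _ ≤ (‖dbr a (false :: s :: τ) (sg true * sq (y - (a : ℂ)))‖ * √(2 * ‖y + (b : ℂ)‖)) *
        (1 / (2 * ‖sq (y - (a : ℂ))‖)) := by gcongr
    _ = _ := by ring

/-- upper bound for the derivative along `+ … +` -/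
theorem pl_le {a b β q : ℝ} (P : Par a b β q) (k : ℕ) {y : ℂ} (hy : 0 ≤ y.re) :
    ‖dbr a (pl k) y‖ ≤ 1 := by
  induction k generalizing y with
  | zero => simp [pl, dbr]
  | succ k ih =>
    change ‖dbr a (true :: pl k) y‖ ≤ 1
    rw [dbr_norm_cons]
    have h2 : sg true * sq (y - (a : ℂ)) = sq (y - a) := by simp [sg]
    rw [h2]
    have h3 := ih (sq_re_nonneg (y - a))
    have h4 : 1 ≤ 2 * ‖sq (y - (a : ℂ))‖ := by
      have h5 := norm_sq_sq (y - (a : ℂ))
      have h6 := abs_re_le_norm (y - (a : ℂ))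
      rw [sub_re, ofReal_re] at h6
      have := P.a2
      have := le_abs_self (y.re - a)
      nlinarith [norm_nonneg (sq (y - (a : ℂ)))]
    have h7 : 1 / (2 * ‖sq (y - (a : ℂ))‖) ≤ 1 := by
      rw [div_le_one (by linarith)]; exact h4
    calc _ ≤ 1 * 1 := mul_le_mul h3 h7 (by positivity) (by norm_num)
      _ = 1 := one_mul 1

/-- upper bound for the derivative along `+ … + - s` -/
theorem E0 {a b β q : ℝ} (P : Par a b β q) {k : ℕ} (hk : 5 / β ^ (k + 1) ≤ 1 / 40) (s : Bool)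
    {y : ℂ} (h : y ∈ Dm) :
    ‖dbr a (true :: (pl k ++ [false]) ++ [s]) y‖ * √‖y - (a : ℂ)‖ ≤ 1 := by
  have hS := sq_Dm P h
  have h2 : sg true * sq (y - (a : ℂ)) = sq (y - a) := by simp [sg]
  set y' := sq (y - (a : ℂ)) with hy'
  have h3 : ‖dbr a (pl k ++ [false] ++ [s]) y'‖ ≤ 1 := by
    rw [dbr_append, dbr_append, norm_mul, norm_mul]
    have h4 := pl_le P k (y := y') (sq_re_nonneg _)
    have h5 : ‖dbr a [false] (br a (pl k) y')‖ ≤ 1 := by
      have hre : 0 ≤ (br a (pl k) y').re := by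
        have : ∀ k : ℕ, ∀ y : ℂ, 0 ≤ y.re → 0 ≤ (br a (pl k) y).re := by
          intro k
          induction k with
          | zero => intro y h; exact h
          | succ k ih =>
            intro y _
            change 0 ≤ (br a (pl k) (sg true * sq (y - a))).re
            apply ih
            have : sg true * sq (y - (a : ℂ)) = sq (y - a) := by simp [sg]
            rw [this]; exact sq_re_nonneg _
        exact this k y' (sq_re_nonneg _)
      rw [dbr_norm_cons]
      simp only [dbr, norm_one, one_mul]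
      set x := br a (pl k) y'
      have h5 := norm_sq_sq (x - (a : ℂ))
      have h6 := abs_re_le_norm (x - (a : ℂ))
      rw [sub_re, ofReal_re] at h6
      have := P.a2
      have := le_abs_self (x.re - a)
      have h8 : 1 ≤ 2 * ‖sq (x - (a : ℂ))‖ := by nlinarith [norm_nonneg (sq (x - (a : ℂ)))]
      rw [div_le_one (by linarith)]; exact h8
    have h6 : ‖dbr a [s] (br a (pl k ++ [false]) y')‖ ≤ 1 := by
      rw [dbr_norm_cons]
      simp only [dbr, norm_one, one_mul]
      have h7 := y1_near P k (y := y') hS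
      set x := br a (pl k ++ [false]) y'
      have h9 := norm_sq_sq (x - (a : ℂ))
      have h10 : (1 : ℝ) / 4 ≤ ‖x - (a : ℂ)‖ := by
        have h11 : ‖(-β - a : ℂ)‖ ≤ ‖x - (a : ℂ)‖ + ‖x + (β : ℂ)‖ := by
          have : (-β - a : ℂ) = (x - a) - (x + β) := by ring
          rw [this]; exact norm_sub_le _ _
        have h12 : ‖(-β - a : ℂ)‖ = β + a := by
          have : (-β - a : ℂ) = ((-(β + a) : ℝ) : ℂ) := by push_cast; ring
          rw [this, norm_real, Real.norm_eq_abs, abs_neg, abs_of_pos]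
          have := P.β1; have := P.a1; linarith
        have := P.β1; have := P.a1
        linarith
      have h8 : 1 ≤ 2 * ‖sq (x - (a : ℂ))‖ := by nlinarith [norm_nonneg (sq (x - (a : ℂ)))]
      rw [div_le_one (by linarith)]; exact h8
    have h13 := mul_le_mul h5 h4 (norm_nonneg _) zero_le_one
    have h14 := mul_le_mul h6 h13 (by positivity) zero_le_one
    linarith
  have e : true :: (pl k ++ [false]) ++ [s] = true :: (pl k ++ [false] ++ [s]) := rfl
  rw [e, dbr_norm_cons, h2, ← hy']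
  have h4 : ‖y'‖ = √‖y - (a : ℂ)‖ := norm_sq_eq _
  rw [← h4]
  have h5 : 0 < ‖y'‖ := norm_pos_iff.2 (fun h0 => hS.1 (by rw [h0]; rfl))
  calc _ = ‖dbr a (pl k ++ [false] ++ [s]) y'‖ * (1 / 2) := by field_simp
    _ ≤ 1 * 1 := mul_le_mul h3 (by norm_num) (by norm_num) (by norm_num)
    _ = 1 := by norm_num

end Pool.Agent.TH363.IM
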