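import Pool.Agent.TH363.IM.Cross

/-!
# The tree of inverse branches in the parameter plane
-/

set_option autoImplicit false

open Set Metric Filter Topology Complex

namespace Pool.Agent.TH363.IM

/-- one level of the tree -/
def Lev (a : ℂ) (q p δ : ℝ) (n : ℕ) (S : ℝ) : Prop :=
  ∃ (ι : Type) (_ : Fintype ι) (Q : ι → ℂ → ℂ) (m : ι → ℝ),
    (∀ i, DifferentiableOn ℂ (Q i) (Vq q)) ∧
    (∀ i, ∀ z ∈ Vq q, Q i z ∈ ball a (δ / 4) ∧ (fc (Q i z))^[n] (Q i z) = z ∧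
      ‖deriv (Q i) z‖ ≤ δ ∧ deriv (Q i) z ≠ 0 ∧ m i ≤ ‖deriv (Q i) z‖ ^ p) ∧
    (∀ i, 0 < m i) ∧ (∀ i j, ∀ z ∈ Vq q, ∀ z' ∈ Vq q, Q i z = Q j z' → i = j) ∧
    S ≤ ∑ i, m i

theorem lev_step {a : ℂ} {q p δ : ℝ} (hδ : 0 < δ) {N : ℕ} {J : Finset (List Bool)}
    {μ : List Bool → ℝ} (hJ : ∀ τ ∈ J, τ.length = N ∧ 0 < μ τ)
    (hJ2 : ∀ τ ∈ J, ∀ c ∈ ball a δ, ∀ z ∈ Vq q, Good c τ z ∧ br c τ z ∈ Vq q ∧
        ‖dbr c τ z‖ ≤ 1 / 2 ∧ μ τ ≤ ‖dbr c τ z‖ ^ p) {n : ℕ} {S : ℝ} (h : Lev a q p δ n S) :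
    Lev a q p δ (n + N) (2 ^ (-|p|) * (∑ τ ∈ J, μ τ) * S) := by
  obtain ⟨ι, hι, Q, m, hQd, hQ, hm, hdis, hS⟩ := h
  have hsub4 : ball a (δ / 4) ⊆ ball a δ := ball_subset_ball (by linarith)
  have key : ∀ x : ι × J, ∃ u : ℂ → ℂ, DifferentiableOn ℂ u (Vq q) ∧
      (∀ z ∈ Vq q, u z ∈ ball a (δ / 4)) ∧ (∀ z ∈ Vq q, u z = Q x.1 (br (u z) x.2 z)) ∧
      ∀ z ∈ Vq q, ‖deriv u z‖ ≤ δ ∧ deriv u z ≠ 0 ∧
        2 ^ (-|p|) * (m x.1 * μ x.2) ≤ ‖deriv u z‖ ^ p := by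
    rintro ⟨i, τ, hτ⟩
    have hdiff : DifferentiableOn ℂ (fun x : ℂ × ℂ => br x.1 τ x.2) (ball a δ ×ˢ Vq q) := by
      rintro ⟨c, z⟩ ⟨hc, hz⟩
      exact (br_joint τ (p := (c, z)) (hJ2 τ hτ c hc z hz).1).differentiableWithinAt
    have hMc : ∀ c ∈ ball a (δ / 2), ∀ z ∈ Vq q,
        ‖deriv (fun c => (fun x : ℂ × ℂ => br x.1 τ x.2) (c, z)) c‖ ≤ 2 / (5 * δ) := by
      intro c hc z hz
      have h1 : DifferentiableOn ℂ (fun c => br c τ z) (ball a δ) := by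
        intro c hc
        have h2 := br_joint τ (p := (c, z)) (hJ2 τ hτ c hc z hz).1
        exact (DifferentiableAt.comp (f := fun c : ℂ => (c, z))
          (g := fun x : ℂ × ℂ => br x.1 τ x.2) c h2
          (differentiableAt_id.prodMk (differentiableAt_const _))).differentiableWithinAt
      have h3 := cauchy_c (y := zz q) (ρ := 1 / 10) hδ h1 (fun c hc =>
        ball_subset_closedBall (hJ2 τ hτ c hc z hz).2.1) c hc
      calc _ ≤ _ := h3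
        _ = _ := by field_simp; norm_num
    obtain ⟨u, hu1, hu2, hu3, hu4⟩ := step (a := a) hδ (V := Vq q) (V' := Vq q)
      isOpen_ball isOpen_ball (h := fun x : ℂ × ℂ => br x.1 τ x.2) hdiff
      (fun c hc z hz => (hJ2 τ hτ c hc z hz).2.1) (M := 2 / (5 * δ)) (τ := δ) hδ.le hMc
      (Q := Q i) (hQd i) (fun y hy => (hQ i y hy).1) (fun y hy => (hQ i y hy).2.2.1)
      (by
        have : δ * (2 / (5 * δ)) = 2 / 5 := by field_simp
        rw [this]; norm_num)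
    refine ⟨u, hu1, hu2, hu3, fun z hz => ?_⟩
    have hc := hsub4 (hu2 z hz)
    obtain ⟨g1, g2, g3, g4⟩ := hJ2 τ hτ (u z) hc z hz
    obtain ⟨-, -, b3, b4, b5⟩ := hQ i (br (u z) τ z) g2
    have h0 : δ * (2 / (5 * δ)) = 2 / 5 := by field_simp
    obtain ⟨l1, l2⟩ := hu4 z hz
    have h6 : deriv (fun z' => br (u z) τ z') z = dbr (u z) τ z := (hasDerivAt_br g1).deriv
    simp only [h0] at l1 l2
    rw [h6] at l1 l2
    have hA : 0 < ‖deriv (Q i) (br (u z) τ z)‖ := norm_pos_iff.2 b4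
    have hB : 0 < ‖dbr (u z) τ z‖ := norm_pos_iff.2 (dbr_ne g1)
    have hAB := mul_pos hA hB
    have hU : 0 < ‖deriv u z‖ := by
      by_contra hneg
      push Not at hneg
      linarith
    refine ⟨?_, norm_pos_iff.1 hU, ?_⟩
    · have h7 : ‖deriv (Q i) (br (u z) τ z)‖ * ‖dbr (u z) τ z‖ ≤ δ * (1 / 2) :=
        mul_le_mul b3 g3 hB.le hδ.le
      linarith
    · have h8 := rpow_comp (p := p) (C := 2) (by norm_num) hU hAB (by linarith) (by linarith)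
      refine le_trans ?_ h8
      rw [Real.mul_rpow hA.le hB.le]
      have := (hm i).le
      have := (hJ τ hτ).2.le
      have h9 : m i * μ τ ≤ ‖deriv (Q i) (br (u z) τ z)‖ ^ p * ‖dbr (u z) τ z‖ ^ p :=
        mul_le_mul b5 g4 (by positivity) (by positivity)
      exact mul_le_mul_of_nonneg_left h9 (by positivity)
  choose u hu1 hu2 hu3 hu4 using key
  have hit : ∀ x : ι × J, ∀ z ∈ Vq q, (fc (u x z))^[n] (u x z) = br (u x z) x.2 z := by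
    intro x z hz
    have hb := (hJ2 x.2 x.2.2 (u x z) (hsub4 (hu2 x z hz)) z hz).2.1
    have h1 := (hQ x.1 _ hb).2.1
    rwa [← hu3 x z hz] at h1
  refine ⟨ι × J, inferInstance, u, fun x => 2 ^ (-|p|) * (m x.1 * μ x.2), hu1, ?_, ?_, ?_, ?_⟩
  · intro x z hz
    obtain ⟨h1, h2, h3⟩ := hu4 x z hz
    refine ⟨hu2 x z hz, ?_, h1, h2, h3⟩
    rw [add_comm n N, Function.iterate_add_apply, hit x z hz]
    have h4 := iter_br (u x z) (x.2 : List Bool) z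
    rwa [(hJ x.2 x.2.2).1] at h4
  · intro x
    have := hm x.1
    have := (hJ x.2 x.2.2).2
    positivity
  · intro x y z hz z' hz' hxy
    have hbx := (hJ2 x.2 x.2.2 (u x z) (hsub4 (hu2 x z hz)) z hz)
    have hby := (hJ2 y.2 y.2.2 (u y z') (hsub4 (hu2 y z' hz')) z' hz')
    have h1 : Q x.1 (br (u x z) x.2 z) = Q y.1 (br (u y z') y.2 z') := by
      rw [← hu3 x z hz, ← hu3 y z' hz', hxy]
    have h2 := hdis x.1 y.1 _ hbx.2.1 _ hby.2.1 h1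
    have h3 : br (u x z) x.2 z = br (u x z) y.2 z' := by
      have e1 := hit x z hz
      have e2 := hit y z' hz'
      rw [← hxy] at e2
      rw [← e1, ← e2]
    have h4 : z = z' := by
      have h5 := congrArg ((fc (u x z))^[N]) h3
      have e1 := iter_br (u x z) (x.2 : List Bool) z
      have e2 := iter_br (u x z) (y.2 : List Bool) z'
      rw [(hJ x.2 x.2.2).1] at e1
      rw [(hJ y.2 y.2.2).1] at e2
      rw [e1, e2] at h5
      exact h5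
    rw [← h4] at h3
    have h6 := br_inj_word ((hJ x.2 x.2.2).1.trans (hJ y.2 y.2.2).1.symm) hbx.1 h3
    exact Prod.ext h2 (Subtype.ext h6)
  · rw [Fintype.sum_prod_type]
    have e1 : ∀ i : ι, ∑ y : J, 2 ^ (-|p|) * (m i * μ y) = 2 ^ (-|p|) * (∑ τ ∈ J, μ τ) * m i := by
      intro i
      rw [← Finset.mul_sum, ← Finset.mul_sum, Finset.sum_coe_sort J μ]; ring
    simp only [e1]
    rw [← Finset.mul_sum]
    have : 0 ≤ ∑ τ ∈ J, μ τ := Finset.sum_nonneg fun τ hτ => (hJ τ hτ).2.le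
    gcongr

theorem tree {a b β q : ℝ} (P : Par a b β q) {p : ℝ} (hp : p ≠ 0) {ε : ℝ}
    (hε : (2 : ℝ) ^ (2 * ε) < Real.cosh (p / 5)) {δ' : ℝ} (hδ' : 0 < δ') :
    ∃ N : ℕ, 1 ≤ N ∧ ∃ (n1 : ℕ) (S0 δ : ℝ), 0 < S0 ∧ 0 < δ ∧ δ ≤ δ' ∧
      ∀ k : ℕ, Lev a q p δ (n1 + k * N) (S0 * ((2 ^ (1 - p + ε)) ^ N) ^ k) := by
  obtain ⟨N, hN, J, μ, δ0, hδ0, hJ, hJ2, hsum⟩ := per P hp hε (2 ^ |p|)
  set δ := min δ0 δ' with hδd
  have hδ : 0 < δ := lt_min hδ0 hδ'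
  have hJ2' : ∀ τ ∈ J, ∀ c ∈ ball (a : ℂ) δ, ∀ z ∈ Vq q, Good c τ z ∧ br c τ z ∈ Vq q ∧
        ‖dbr c τ z‖ ≤ 1 / 2 ∧ μ τ ≤ ‖dbr c τ z‖ ^ p := fun τ hτ c hc z hz =>
    hJ2 τ hτ c (ball_subset_ball (min_le_left _ _) hc) z hz
  obtain ⟨n1, Q, hQd, hQ, hQb⟩ := base P (ε := δ / 4) (by positivity)
  have hcl : closedBall (zz q) (1 / 10) ⊆ ball (zz q) (1 / 8) := closedBall_subset_ball (by norm_num)
  have hcont : ContinuousOn (fun z => ‖deriv Q z‖ ^ p) (closedBall (zz q) (1 / 10)) := by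
    apply ContinuousOn.rpow_const
    · exact ((hQd.deriv isOpen_ball).continuousOn.mono hcl).norm
    · intro z hz
      left
      exact (norm_pos_iff.2 (hQ z (hcl hz)).2.2).ne'
  obtain ⟨z1, hz1, hmin⟩ := (isCompact_closedBall (zz q) (1 / 10)).exists_isMinOn
    ⟨zz q, mem_closedBall_self (by norm_num)⟩ hcont
  set S0 := ‖deriv Q z1‖ ^ p with hS0
  have hS0p : 0 < S0 := by
    have := norm_pos_iff.2 (hQ z1 (hcl hz1)).2.2
    positivity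
  have hsub : Vq q ⊆ closedBall (zz q) (1 / 10) := ball_subset_closedBall
  refine ⟨N, hN, n1, S0, δ, hS0p, hδ, min_le_right _ _, fun k => ?_⟩
  induction k with
  | zero =>
    refine ⟨Unit, inferInstance, fun _ => Q, fun _ => S0, fun _ => hQd.mono (hsub.trans hcl), ?_, ?_,
      ?_, ?_⟩
    · intro _ z hz
      obtain ⟨h1, h2, h3⟩ := hQ z (hcl (hsub hz))
      have h4 := hQb z (hsub hz)
      refine ⟨h1, ?_, by linarith, h3, hmin (hsub hz)⟩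
      rw [zero_mul, add_zero]; exact h2
    · intro _; exact hS0p
    · intro _ _ _ _ _ _ _; rfl
    · simp
  | succ k ih =>
    have h1 := lev_step hδ hJ hJ2' ih
    have e : n1 + (k + 1) * N = n1 + k * N + N := by ring
    rw [e]
    obtain ⟨ι, hι, Q', m, c1, c2, c3, c4, c5⟩ := h1
    refine ⟨ι, hι, Q', m, c1, c2, c3, c4, le_trans ?_ c5⟩
    have h2 : (2 ^ (1 - p + ε)) ^ N ≤ 2 ^ (-|p|) * ∑ τ ∈ J, μ τ := by
      have e2 : (2 : ℝ) ^ (-|p|) * 2 ^ |p| = 1 := by rw [← Real.rpow_add (by norm_num)]; simp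
      calc ((2 : ℝ) ^ (1 - p + ε)) ^ N = 2 ^ (-|p|) * (2 ^ |p| * (2 ^ (1 - p + ε)) ^ N) := by
            linear_combination (-((2 ^ (1 - p + ε)) ^ N)) * e2
        _ ≤ _ := by gcongr
    rw [pow_succ]
    calc S0 * (((2 ^ (1 - p + ε)) ^ N) ^ k * (2 ^ (1 - p + ε)) ^ N)
        = (2 ^ (1 - p + ε)) ^ N * (S0 * ((2 ^ (1 - p + ε)) ^ N) ^ k) := by ring
      _ ≤ _ := by gcongr

end Pool.Agent.TH363.IM
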